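import Pool.Agent.Helper59_TOR.Om

/-! TOR, algebraic model, part 5: the standard surface of genus `n` with one boundary component. -/

set_option autoImplicit false

namespace Pool.Agent.TOR.H59

open FreeGroup

/-- ranks of the letters: `x_j, y_j⁻¹, x_j⁻¹, y_j` have the ranks `4j+1, 4j+2, 4j+3, 4j+4` -/
def rk (n : ℕ) (l : (Fin 2 × Fin n) × Bool) : ℕ :=
  4 * (l.1.2 : ℕ) + (if l.1.1 = 0 then (if l.2 then 1 else 3) else (if l.2 then 4 else 2))

theorem rk_inj (n : ℕ) : Function.Injective (rk n) := by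
  rintro ⟨⟨a, j⟩, b⟩ ⟨⟨a', j'⟩, b'⟩ h
  have hj : (j : ℕ) = (j' : ℕ) := by
    unfold rk at h
    simp only at h
    split_ifs at h <;> omega
  have hj' : j = j' := Fin.ext hj
  subst hj'
  fin_cases a <;> fin_cases a' <;> cases b <;> cases b' <;> simp_all [rk]

/-- the standard fat graph -/
def sR (n : ℕ) : Rib (Fin 2 × Fin n) where
  N := 4 * n
  r := rk n
  inj := rk_inj n
  pos := by
    intro l; unfold rk; split_ifs <;> omega
  le := by
    intro l
    have := l.1.2.2
    unfold rk; split_ifs <;> omega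

/-- the four letters of a handle -/
def hw (n : ℕ) (j : Fin n) : List ((Fin 2 × Fin n) × Bool) :=
  [((0, j), true), ((1, j), true), ((0, j), false), ((1, j), false)]

/-- the boundary word -/
def sZ (n : ℕ) : List ((Fin 2 × Fin n) × Bool) := (List.finRange n).flatMap (hw n)

/-- the boundary element of the frozen statement -/
def zeta (n : ℕ) : FreeGroup (Fin 2 × Fin n) :=
  ((List.finRange n).map (fun j => FreeGroup.of ((0 : Fin 2), j) * FreeGroup.of ((1 : Fin 2), j)
              * (FreeGroup.of ((0 : Fin 2), j))⁻¹ * (FreeGroup.of ((1 : Fin 2), j))⁻¹)).prod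

theorem mk_sZ (n : ℕ) : FreeGroup.mk (sZ n) = zeta n := by
  unfold sZ zeta
  induction (List.finRange n) with
  | nil => simp [← FreeGroup.one_eq_mk]
  | cons j L ih =>
    rw [List.flatMap_cons, List.map_cons, List.prod_cons, ← ih, ← FreeGroup.mul_mk]
    congr 1

theorem bd_aux (n : ℕ) : ∀ (k a : ℕ), a + k = n →
    Bd (sR n) (4 * a) (((List.finRange n).drop a).flatMap (hw n)) := by
  intro k
  induction k with
  | zero =>
    intro a ha
    have : (List.finRange n).drop a = [] := by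
      rw [List.drop_eq_nil_iff]; simp; omega
    rw [this]
    show 4 * a = 4 * n
    omega
  | succ k ih =>
    intro a ha
    have hlt : a < (List.finRange n).length := by simp; omega
    rw [List.drop_eq_getElem_cons hlt, List.flatMap_cons]
    have h1 := ih (a + 1) (by omega)
    have e : ((List.finRange n)[a] : Fin n).val = a := by simp
    simp only [hw, List.cons_append, List.nil_append, Bd, sR, rk, iv]
    rw [e]
    simp only [if_true, Bool.not_true, Bool.not_false, if_false, Bool.false_eq_true,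
      Fin.isValue, one_ne_zero]
    exact ⟨trivial, trivial, trivial, trivial, h1⟩

theorem bd_std (n : ℕ) : Bd (sR n) 0 (sZ n) := by
  have := bd_aux n n 0 (by omega)
  simpa [sZ] using this

theorem all_std (n : ℕ) : ∀ l, l ∈ sZ n := by
  rintro ⟨⟨a, j⟩, b⟩
  unfold sZ
  rw [List.mem_flatMap]
  refine ⟨j, List.mem_finRange j, ?_⟩
  fin_cases a <;> cases b <;> simp [hw]

theorem zeta_ne_one {n : ℕ} (hn : 0 < n) : FreeGroup.mk (sZ n) ≠ 1 := by
  intro h
  have h1 : (FreeGroup.mk (sZ n)).toWord = [] := by rw [h, FreeGroup.toWord_one]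
  rw [toWord_mk_bd (sR n) (bd_std n)] at h1
  have h2 := all_std n ((0, ⟨0, hn⟩), true)
  rw [h1] at h2
  simp at h2

/-- rigidity for the standard surface -/
theorem rigid_std {n : ℕ} {X : Set (FreeGroup (Fin 2 × Fin n))} (hA : AI X)
    (hX : ∀ g, g ∈ X ↔ g * zeta n ∈ X) (g h : FreeGroup (Fin 2 × Fin n)) : g ∈ X ↔ h ∈ X := by
  rw [← mk_sZ] at hX
  exact rigid (sR n) (bd_std n) (all_std n) hA hX g h

section std
variable {n : ℕ} (hn : 0 < n) (φ : MulAut (FreeGroup (Fin 2 × Fin n)))
  (hφ : φ (zeta n) = zeta n)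
include hn hφ

theorem co_std (p q r : Om (Fin 2 × Fin n)) :
    co (sR n) (ap φ p) (ap φ q) (ap φ r) ↔ co (sR n) p q r := by
  rw [← mk_sZ] at hφ
  exact co_ap (sR n) (bd_std n) (all_std n) (zeta_ne_one hn) φ hφ p q r

theorem cmp_std {i : ℕ} {k : FreeGroup (Fin 2 × Fin n)} {j : ℕ} {m : FreeGroup (Fin 2 × Fin n)} :
    Cmp (sR n) i (φ k) j (φ m) ↔ Cmp (sR n) i k j m := by
  rw [← mk_sZ] at hφ
  exact cmp_ap (sR n) (bd_std n) (all_std n) (zeta_ne_one hn) φ hφ

theorem arc_std {k : FreeGroup (Fin 2 × Fin n)} : Arc (sR n) (φ k) ↔ Arc (sR n) k := by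
  rw [← mk_sZ] at hφ
  exact arc_ap (sR n) (bd_std n) (all_std n) (zeta_ne_one hn) φ hφ

theorem hnd_std {k l : FreeGroup (Fin 2 × Fin n)} : Hnd (sR n) (φ k) (φ l) ↔ Hnd (sR n) k l := by
  rw [← mk_sZ] at hφ
  exact hnd_ap (sR n) (bd_std n) (all_std n) (zeta_ne_one hn) φ hφ

end std

end Pool.Agent.TOR.H59
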