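import Pool.Agent.Helper59_TOR.Sur
import Pool.Agent.Helper58_TOR.Flow

/-! TOR, algebraic model, part 7: the complex of arcs at one gap, compatible with a family of arcs,
with an open condition on the class, is acyclic. -/

set_option autoImplicit false

namespace Pool.Agent.TOR.H59

open FreeGroup

variable {α : Type} [DecidableEq α]

/-- the positive representative of an arc -/
def prep (R : Rib α) (w : FreeGroup α) : FreeGroup α := if key R w < key R w⁻¹ then w else w⁻¹

theorem prep_or (R : Rib α) (w : FreeGroup α) : prep R w = w ∨ prep R w = w⁻¹ := by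
  unfold prep; split_ifs <;> simp

omit [DecidableEq α] in
theorem inv_ne_self {w : FreeGroup α} (hw : w ≠ 1) : w⁻¹ ≠ w := by
  intro h
  have h1 : w ^ 2 = 1 := by rw [pow_two]; nth_rw 1 [← h]; exact inv_mul_cancel w
  exact hw (by simpa using h1)

theorem prep_lt {R : Rib α} {w : FreeGroup α} (hw : w ≠ 1) :
    key R (prep R w) < key R (prep R w)⁻¹ := by
  unfold prep
  split_ifs with h
  · exact h
  · rw [inv_inv]
    rcases lt_trichotomy (key R w) (key R w⁻¹) with h1 | h1 | h1
    · exact (h h1).elim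
    · exact (inv_ne_self hw (key_inj R h1).symm).elim
    · exact h1

theorem cmp_prep_left {R : Rib α} {i : ℕ} {w : FreeGroup α} {j : ℕ} {m : FreeGroup α} :
    Cmp R i (prep R w) j m ↔ Cmp R i w j m := by
  rcases prep_or R w with h | h <;> rw [h]
  exact cmp_inv_left

theorem cmp_prep_right {R : Rib α} {i : ℕ} {w : FreeGroup α} {j : ℕ} {m : FreeGroup α} :
    Cmp R j m i (prep R w) ↔ Cmp R j m i w := by
  rw [cmp_comm, cmp_prep_left, cmp_comm]

theorem arc_prep {R : Rib α} {w : FreeGroup α} (hw : w ≠ 1) (h : Cmp R 0 w 0 w) :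
    Arc R (prep R w) := by
  refine ⟨?_, prep_lt hw, cmp_prep_left.2 (cmp_prep_right.2 h)⟩
  rcases prep_or R w with h1 | h1 <;> rw [h1]
  · exact hw
  · simpa using hw

theorem cr_prep (R : Rib α) (j : ℕ) (m : FreeGroup α) (i : ℕ) (w : FreeGroup α) :
    cr R j m i (prep R w) = cr R j m i w := by
  rcases prep_or R w with h | h <;> rw [h]
  exact cr_inv R j m i w

section fla
variable (R : Rib α) (i : ℕ) (T : Set (ℕ × FreeGroup α)) {A : Type*} [CommGroup A]
  (P : FreeGroup α →* A)

/-- the arcs at the gap `i` which are compatible with the arcs in `T`, with nontrivial class -/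
def AV : Type := {k : FreeGroup α // Arc R k ∧ P k ≠ 1 ∧ ∀ x ∈ T, Cmp R i k x.1 x.2}

/-- systems of such arcs -/
def AK (s : Set (AV R i T P)) : Prop := ∀ v ∈ s, ∀ w ∈ s, Cmp R i v.1 i w.1

/-- ARC FLOW. The complex of all systems of arcs at the gap `i`, with nontrivial class, compatible
with the arcs in `T`, is acyclic if it is not empty. -/
theorem fla (M : Type*) [AddCommGroup M] (e : AV R i T P) :
    H58.Acyc M (AK R i T P) := by
  classical
  refine H58.flow (K := AK R i T P) ?_ (fun v => cr R i e.1 i v.1) e ?_ ?_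
  · intro s t hst ht v hv w hw
    exact ht v (hst hv) w (hst hw)
  · intro s hs h0 v hv w hw
    have ee : Cmp R i e.1 i e.1 := cmp_same e.2.1.2.2
    rcases Set.mem_insert_iff.1 hv with hv1 | hv1 <;>
      rcases Set.mem_insert_iff.1 hw with hw1 | hw1
    · rw [hv1, hw1]; exact ee
    · rw [hv1]; exact cr_eq_zero.1 (h0 w hw1)
    · rw [hw1]; exact (cr_eq_zero.1 (h0 v hv1)).symm
    · exact hs v hv1 w hw1
  · intro L _ hex
    let L' : Set (FreeGroup α) := {k | ∃ v ∈ L, k = v.1 ∨ k = v.1⁻¹}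
    have hL' : L'.Finite := by
      have : (⋃ v ∈ (L : Set (AV R i T P)), ({v.1, v.1⁻¹} : Set (FreeGroup α))).Finite :=
        Set.Finite.biUnion L.finite_toSet (fun v _ => Set.toFinite _)
      refine this.subset ?_
      rintro k ⟨v, hv, h⟩
      simp only [Set.mem_iUnion, Set.mem_insert_iff, Set.mem_singleton_iff]
      exact ⟨v, hv, h⟩
    have hinv : ∀ k ∈ L', k⁻¹ ∈ L' := by
      rintro k ⟨v, hv, rfl | rfl⟩
      · exact ⟨v, hv, Or.inr rfl⟩
      · exact ⟨v, hv, Or.inl (inv_inv _)⟩
    have hex' : ∃ g k, k ∈ L' ∧ Lo R (1, i) (e.1, i) (g, i) (g * k, i) := by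
      obtain ⟨v, hv, h⟩ := hex
      have h1 : ¬ Cmp R i e.1 i v.1 := fun h' => by
        rw [cr_eq_zero.2 h'] at h; exact lt_irrefl _ h
      unfold Cmp at h1
      push Not at h1
      obtain ⟨g, hg⟩ := h1
      exact ⟨g, v.1, ⟨v, hv, Or.inl rfl⟩, hg⟩
    obtain ⟨g, k, hs⟩ := exists_sg R i e.1 L' hL' hinv hex'
    obtain ⟨v, hvL, hvk⟩ := hs.mem
    have ee : Cmp R i e.1 i e.1 := cmp_same e.2.1.2.2
    have vv : Cmp R i v.1 i v.1 := cmp_same v.2.1.2.2
    have kk : ∀ {j : ℕ} {m : FreeGroup α}, Cmp R i v.1 j m → Cmp R i k j m := by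
      intro j m h
      rcases hvk with h' | h' <;> rw [h']
      · exact h
      · exact h.inv_left
    have kks : Cmp R i k i k := (kk (kk vv).symm)
    have hcr : cr R i e.1 i k = cr R i e.1 i v.1 := by
      rcases hvk with h' | h' <;> rw [h']
      exact cr_inv R i e.1 i v.1
    have hPk : P k ≠ 1 := by
      rcases hvk with h' | h' <;> rw [h']
      · exact v.2.2.1
      · rw [_root_.map_inv]
        simpa using v.2.2.1
    -- the two candidates
    have hg1 : g ≠ 1 := by rintro rfl; exact hs.h1.ne12 rfl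
    have hgk1 : g * k ≠ 1 := by
      intro h; have := hs.h2.ne23; rw [h] at this; exact this rfl
    have good : ∀ w : FreeGroup α, w ≠ 1 → P w ≠ 1 → Cmp R i w i w →
        (∀ m ∈ L', Cmp R i k i m → Cmp R i w i m) →
        (∀ x ∈ T, Cmp R i w x.1 x.2) → cr R i e.1 i w < cr R i e.1 i k →
        ∃ v' : AV R i T P, cr R i e.1 i v'.1 < cr R i e.1 i v.1 ∧
          ∀ s : Set (AV R i T P), (∀ a ∈ s, a ∈ L) → v ∈ s → AK R i T P s →
            AK R i T P (insert v' s) := by
      intro w hw1 hPw hww hwm hwT hlt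
      refine ⟨⟨prep R w, arc_prep hw1 (cmp_same hww), ?_, fun x hx => cmp_prep_left.2 (hwT x hx)⟩,
        ?_, ?_⟩
      · rcases prep_or R w with h | h <;> rw [h]
        · exact hPw
        · rw [_root_.map_inv]; simpa using hPw
      · show cr R i e.1 i (prep R w) < _
        rw [cr_prep, ← hcr]; exact hlt
      · intro s hsL hvs hK a ha b hb
        have hwb : ∀ b ∈ s, Cmp R i w i b.1 := fun b hb =>
          hwm b.1 ⟨b, hsL b hb, Or.inl rfl⟩ (kk (hK v hvs b hb))
        rcases Set.mem_insert_iff.1 ha with ha1 | ha1 <;>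
          rcases Set.mem_insert_iff.1 hb with hb1 | hb1
        · rw [ha1, hb1]; exact cmp_prep_left.2 (cmp_prep_right.2 hww)
        · rw [ha1]; exact cmp_prep_left.2 (hwb b hb1)
        · rw [hb1]; exact cmp_prep_right.2 (hwb a ha1).symm
        · exact hK a ha1 b hb1
    have hself := hs.cmp_self hinv kks ee
    have hcrlt := hs.cr_lt ee
    have hP : P g ≠ 1 ∨ P (g * k) ≠ 1 := by
      by_contra hcon
      push Not at hcon
      rw [_root_.map_mul, hcon.1, one_mul] at hcon
      exact hPk hcon.2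
    have hT : ∀ x ∈ T, Cmp R i g x.1 x.2 ∧ Cmp R i (g * k) x.1 x.2 := fun x hx =>
      hs.cmp_tau (kk (v.2.2.2 x hx)) (e.2.2.2 x hx)
    refine ⟨v, hvL, ?_⟩
    rcases hP with hP | hP
    · exact good g hg1 hP hself.1 (fun m hm h => (hs.cmp_mem hinv hm h).1)
        (fun x hx => (hT x hx).1) hcrlt.1
    · exact good (g * k) hgk1 hP hself.2 (fun m hm h => (hs.cmp_mem hinv hm h).2)
        (fun x hx => (hT x hx).2) hcrlt.2

end fla

end Pool.Agent.TOR.H59
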