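import Pool.Agent.Helper59_TOR.Pent
import Pool.Agent.Helper29_TOR.If3

/-! TOR, algebraic model, part 13: change of coordinates for handles at different gaps. -/

set_option autoImplicit false

namespace Pool.Agent.TOR.H59

open FreeGroup

/-- CC2 (helper96): cutting off handles of a fat graph -/
def CC2S : Prop := ∀ (α : Type) [DecidableEq α] [Fintype α] (R : Rib α) (Z : List (α × Bool)),
  Bd R 0 Z → (∀ l, l ∈ Z) → ∀ (m : ℕ) (a b : Fin m → α),
  (∀ i, ∃ U V, Z = U ++ [(a i, true), (b i, true), (a i, false), (b i, false)] ++ V) →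
  (∀ i i', i < i' → R.r (b i, true) < R.r (a i', true)) →
  ∃ (g : ℕ) (Φ : FreeGroup (Fin 2 × Fin (m + g)) ≃* FreeGroup α),
    Φ (zeta (m + g)) = FreeGroup.mk Z ∧
    ∀ i : Fin m, Φ (FreeGroup.of (0, Fin.castAdd g i)) = FreeGroup.of (a i) ∧
      Φ (FreeGroup.of (1, Fin.castAdd g i)) = FreeGroup.of (b i)

theorem rank_eq {α β : Type} [Fintype α] [Fintype β] (Φ : FreeGroup α ≃* FreeGroup β) :
    Fintype.card α = Fintype.card β := by
  classical
  have e : (α → Multiplicative (ZMod 2)) ≃ (β → Multiplicative (ZMod 2)) :=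
    FreeGroup.lift.trans ((MulEquiv.monoidHomCongrLeftEquiv
      (N := Multiplicative (ZMod 2)) Φ).trans FreeGroup.lift.symm)
  have h := Fintype.card_congr e
  rw [Fintype.card_fun, Fintype.card_fun] at h
  have h2 : Fintype.card (Multiplicative (ZMod 2)) = 2 := by
    rw [Fintype.card_multiplicative, ZMod.card]
  rw [h2] at h
  exact Nat.pow_right_injective (le_refl 2) h

theorem bd_next {α : Type} (R : Rib α) : ∀ (Z : List (α × Bool)) (b : ℕ), Bd R b Z →
    ∀ (U : List (α × Bool)) (m l : α × Bool) (W : List (α × Bool)), Z = U ++ m :: l :: W →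
    R.r l = R.r (iv m) + 1 := by
  intro Z
  induction Z with
  | nil => intro b _ U m l W h; simp at h
  | cons z Z ih =>
    intro b hb U m l W h
    cases U with
    | nil =>
      simp only [List.nil_append, List.cons.injEq] at h
      obtain ⟨h1, h2⟩ := h
      subst h1 h2
      exact hb.2.1
    | cons u U =>
      simp only [List.cons_append, List.cons.injEq] at h
      exact ih _ hb.2 U m l W h.2

/-! ### the family of the arcs and boundary arcs of compatible handles -/

section family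
variable {α : Type} [DecidableEq α] {R : Rib α} {k l k' l' : FreeGroup α}

/-- two handles, all germs of the first before all germs of the second, pairwise compatible -/
structure HH (R : Rib α) (k l k' l' : FreeGroup α) : Prop where
  h : Hnd R k l
  h' : Hnd R k' l'
  kk : Cmp R 0 k 0 k'
  kl : Cmp R 0 k 0 l'
  lk : Cmp R 0 l 0 k'
  ll : Cmp R 0 l 0 l'
  lt : key R l < key R k'

variable (H : HH R k l k' l')
include H

theorem HH.sec_left {m : FreeGroup α} (hm : key R m ≤ key R l) : ¬ Sec R k' l' m := by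
  have g1 := H.h'.2.2.2.1
  have g2 := H.h'.2.2.2.2.1
  have h1 := hm.trans_lt H.lt
  rintro (⟨a, _⟩ | ⟨a, _⟩ | ⟨a, _⟩)
  · exact lt_asymm a h1
  · exact lt_asymm a (h1.trans g1)
  · exact lt_asymm a (h1.trans (g1.trans g2))

theorem HH.sec_right {m : FreeGroup α} (hm : key R l ≤ key R m) : ¬ Sec R k l m := by
  have g2 := H.h.2.2.2.2.1
  have g3 := H.h.2.2.2.2.2
  rintro (⟨_, a⟩ | ⟨_, a⟩ | ⟨_, a⟩)
  · exact absurd (a.trans (g2.trans g3)) (not_lt.2 hm)
  · exact absurd (a.trans g3) (not_lt.2 hm)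
  · exact absurd a (not_lt.2 hm)

theorem HH.cm_left_k : Cmp R 0 (cm k l) 0 k' := by
  have g1 := H.h'.2.2.2.1
  have g2 := H.h'.2.2.2.2.1
  exact H.h.cmp_cm H.kk H.lk (H.sec_right H.lt.le) (H.sec_right (H.lt.trans (g1.trans g2)).le)

theorem HH.cm_left_l : Cmp R 0 (cm k l) 0 l' := by
  have g1 := H.h'.2.2.2.1
  have g2 := H.h'.2.2.2.2.1
  have g3 := H.h'.2.2.2.2.2
  exact H.h.cmp_cm H.kl H.ll (H.sec_right (H.lt.trans (g1.trans (g2.trans g3))).le)
    (H.sec_right (H.lt.trans g1).le)

theorem HH.cm_right_k : Cmp R 0 (cm k' l') 0 k := by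
  have g1 := H.h.2.2.2.1
  have g2 := H.h.2.2.2.2.1
  have g3 := H.h.2.2.2.2.2
  exact H.h'.cmp_cm H.kk.symm H.kl.symm (H.sec_left (g1.trans (g2.trans g3)).le)
    (H.sec_left g3.le)

theorem HH.cm_right_l : Cmp R 0 (cm k' l') 0 l := by
  have g1 := H.h.2.2.2.1
  have g2 := H.h.2.2.2.2.1
  have g3 := H.h.2.2.2.2.2
  exact H.h'.cmp_cm H.lk.symm H.ll.symm (H.sec_left le_rfl) (H.sec_left (g2.trans g3).le)

theorem HH.cm_cm : Cmp R 0 (cm k l) 0 (cm k' l') := by
  have g1 := H.h'.2.2.2.1
  have g2 := H.h'.2.2.2.2.1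
  have g3 := H.h'.2.2.2.2.2
  have h1 := H.h'.germ_out H.lk.symm H.ll.symm (H.sec_left le_rfl)
    (H.sec_left (H.h.2.2.2.2.1.trans H.h.2.2.2.2.2).le)
  have h2 : key R l ≤ key R (cm k' l') := by
    by_contra hcon
    exact h1.2 ⟨not_le.1 hcon, H.lt⟩
  have h3 : key R l ≤ key R (cm k' l')⁻¹ :=
    (H.lt.trans ((g1.trans (g2.trans g3)).trans H.h'.key_l_lt.1)).le
  exact H.h.cmp_cm H.cm_right_k.symm H.cm_right_l.symm (H.sec_right h2) (H.sec_right h3)

end family

/-! ### the change of coordinates -/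

/-- the standard surface of positive genus -/
noncomputable def sS (n : ℕ) (hn : 0 < n) : Srf (Fin 2 × Fin n) where
  R := sR n
  Z := sZ n
  bd := bd_std n
  all := all_std n
  ne := zeta_ne_one hn
  ab := by
    intro f
    rw [mk_sZ]
    unfold zeta
    rw [map_list_prod, List.map_map]
    apply List.prod_eq_one
    intro x hx
    rw [List.mem_map] at hx
    obtain ⟨j, _, rfl⟩ := hx
    simp only [Function.comp_apply, _root_.map_mul, _root_.map_inv]
    rw [mul_comm (f (FreeGroup.of (0, j))) (f (FreeGroup.of (1, j)))]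
    group

/-- the sequence `k 0, l 0, k 1, l 1, ...` -/
def seq2 {m : ℕ} {G : Type} (k l : Fin m → G) (t : Fin (2 * m)) : G :=
  if (t : ℕ) % 2 = 0 then k ⟨t / 2, by omega⟩ else l ⟨t / 2, by omega⟩

theorem seq2_even {m : ℕ} {G : Type} (k l : Fin m → G) (i : Fin m) :
    seq2 k l ⟨2 * i, by omega⟩ = k i := by
  unfold seq2
  rw [if_pos (by simp)]
  congr 1
  ext
  simp

theorem seq2_odd {m : ℕ} {G : Type} (k l : Fin m → G) (i : Fin m) :
    seq2 k l ⟨2 * i + 1, by omega⟩ = l i := by
  unfold seq2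
  rw [if_neg (by simp)]
  congr 1
  ext
  simp only
  omega

/-- the homomorphism `x ↦ sf (ev x) v` -/
def sfl {n : ℕ} (v : Fin 2 × Fin n → ℤ) : FreeGroup (Fin 2 × Fin n) →* Multiplicative ℤ where
  toFun x := Multiplicative.ofAdd (H29.sf (H29.ev x) v)
  map_one' := by
    rw [H29.ev_one]
    have : H29.sf (0 : Fin 2 × Fin n → ℤ) v = 0 := by unfold H29.sf; simp
    rw [this]; rfl
  map_mul' x y := by
    rw [H29.ev_mul, H29.sf_add_left, ofAdd_add]

theorem cch_pos (cc2 : CC2S) (n : ℕ) (hn : 0 < n) (m : ℕ) (j : Fin m → ℕ) (hj : StrictMono j)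
    (k l : Fin m → FreeGroup (Fin 2 × Fin n)) (hh : ∀ i, Hnd (sR n) (k i) (l i))
    (hc : ∀ i i', i ≠ i' → Cmp (sR n) (j i) (k i) (j i') (k i') ∧
      Cmp (sR n) (j i) (k i) (j i') (l i') ∧ Cmp (sR n) (j i) (l i) (j i') (k i') ∧
      Cmp (sR n) (j i) (l i) (j i') (l i')) :
    ∃ (hmn : m ≤ n) (φ : MulAut (FreeGroup (Fin 2 × Fin n))), φ (zeta n) = zeta n ∧
      ∀ i : Fin m, φ (FreeGroup.of (0, Fin.castLE hmn i)) = k i ∧
        φ (FreeGroup.of (1, Fin.castLE hmn i)) = l i := by
  classical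
  -- pairs of handles
  have hHH : ∀ i i', i < i' → HH (sR n) (k i) (l i) (k i') (l i') := by
    intro i i' h
    obtain ⟨c1, c2, c3, c4⟩ := hc i i' h.ne
    exact ⟨hh i, hh i', cmp_one c1, cmp_one c2, cmp_one c3, cmp_one c4,
      germ_lt (hj h) (hh i).l1 (hh i').k1 c3⟩
  -- the family
  let T : Finset (FreeGroup (Fin 2 × Fin n)) :=
    Finset.univ.image k ∪ Finset.univ.image l ∪ Finset.univ.image (fun i => cm (k i) (l i))
  have hTm : ∀ e ∈ T, ∃ i, e = k i ∨ e = l i ∨ e = cm (k i) (l i) := by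
    intro e he
    simp only [T, Finset.mem_union, Finset.mem_image, Finset.mem_univ, true_and] at he
    rcases he with (⟨i, hi⟩ | ⟨i, hi⟩) | ⟨i, hi⟩
    · exact ⟨i, Or.inl hi.symm⟩
    · exact ⟨i, Or.inr (Or.inl hi.symm)⟩
    · exact ⟨i, Or.inr (Or.inr hi.symm)⟩
  have hTk : ∀ i, k i ∈ T := fun i => by simp [T]
  have hTl : ∀ i, l i ∈ T := fun i => by simp [T]
  have hTc : ∀ i, cm (k i) (l i) ∈ T := fun i => by simp [T]
  have same : ∀ i, ∀ e e', (e = k i ∨ e = l i ∨ e = cm (k i) (l i)) →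
      (e' = k i ∨ e' = l i ∨ e' = cm (k i) (l i)) → Cmp (sR n) 0 e 0 e' := by
    intro i e e' he he'
    rcases he with rfl | rfl | rfl <;> rcases he' with rfl | rfl | rfl
    · exact (hh i).kk
    · exact (hh i).kl
    · exact (hh i).cmp_cm_k.symm
    · exact (hh i).kl.symm
    · exact (hh i).ll
    · exact (hh i).cmp_cm_l.symm
    · exact (hh i).cmp_cm_k
    · exact (hh i).cmp_cm_l
    · exact (hh i).cmp_cm_self
  have diff : ∀ i i', i < i' → ∀ e e', (e = k i ∨ e = l i ∨ e = cm (k i) (l i)) →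
      (e' = k i' ∨ e' = l i' ∨ e' = cm (k i') (l i')) → Cmp (sR n) 0 e 0 e' := by
    intro i i' h e e' he he'
    have H := hHH i i' h
    rcases he with rfl | rfl | rfl <;> rcases he' with rfl | rfl | rfl
    · exact H.kk
    · exact H.kl
    · exact H.cm_right_k.symm
    · exact H.lk
    · exact H.ll
    · exact H.cm_right_l.symm
    · exact H.cm_left_k
    · exact H.cm_left_l
    · exact H.cm_cm
  have hT : ∀ e ∈ T, ∀ e' ∈ T, Cmp (sS n hn).R 0 e 0 e' := by
    intro e he e' he'
    obtain ⟨i, hi⟩ := hTm e he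
    obtain ⟨i', hi'⟩ := hTm e' he'
    rcases lt_trichotomy i i' with h | h | h
    · exact diff i i' h e e' hi hi'
    · subst h; exact same i e e' hi hi'
    · exact (diff i' i h e' e hi' hi).symm
  -- independence
  have hind : ∀ t : Fin (2 * m), ∃ f : FreeGroup (Fin 2 × Fin n) →* Multiplicative ℤ,
      (∀ s < t, f (seq2 k l s) = 1) ∧ f (seq2 k l t) ≠ 1 := by
    intro t
    have z : ∀ (x y : FreeGroup (Fin 2 × Fin n)), H29.sf (H29.ev x) (H29.ev y) = 0 →
        sfl (H29.ev y) x = 1 := by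
      intro x y h
      show Multiplicative.ofAdd (H29.sf (H29.ev x) (H29.ev y)) = 1
      rw [h]; rfl
    have z1 : ∀ (x y : FreeGroup (Fin 2 × Fin n)), H29.sf (H29.ev x) (H29.ev y) ≠ 0 →
        sfl (H29.ev y) x ≠ 1 := by
      intro x y h h'
      apply h
      exact Multiplicative.ofAdd.injective h'
    have orth : ∀ i i' : Fin m, i ≠ i' → ∀ x ∈ ({k i, l i} : Set _), ∀ y ∈ ({k i', l i'} : Set _),
        H29.sf (H29.ev x) (H29.ev y) = 0 := by
      intro i i' hii x hx y hy
      obtain ⟨c1, c2, c3, c4⟩ := hc i i' hii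
      have hjj : j i ≠ j i' := fun h => hii (hj.injective h)
      rcases hx with rfl | hx
      · rcases hy with rfl | hy
        · exact H29.sf_cmp hjj c1
        · rw [Set.mem_singleton_iff.1 hy]; exact H29.sf_cmp hjj c2
      · rw [Set.mem_singleton_iff.1 hx]
        rcases hy with rfl | hy
        · exact H29.sf_cmp hjj c3
        · rw [Set.mem_singleton_iff.1 hy]; exact H29.sf_cmp hjj c4
    have mem : ∀ s : Fin (2 * m), seq2 k l s ∈
        ({k ⟨s / 2, by omega⟩, l ⟨s / 2, by omega⟩} : Set (FreeGroup (Fin 2 × Fin n))) := by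
      intro s
      unfold seq2
      split_ifs
      · exact Or.inl rfl
      · exact Or.inr rfl
    set i : Fin m := ⟨t / 2, by omega⟩ with hi
    by_cases ht : (t : ℕ) % 2 = 0
    · have et : seq2 k l t = k i := by unfold seq2; rw [if_pos ht]
      refine ⟨sfl (H29.ev (l i)), ?_, ?_⟩
      · intro s hs
        apply z
        refine orth ⟨s / 2, by omega⟩ i ?_ _ (mem s) _ (Or.inr rfl)
        intro h
        have h1 := congrArg Fin.val h
        have h2 : (s : ℕ) < t := hs
        simp only [hi] at h1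
        omega
      · rw [et]
        apply z1
        rw [H29.sf_hnd (hh i)]
        decide
    · have et : seq2 k l t = l i := by unfold seq2; rw [if_neg ht]
      refine ⟨sfl (H29.ev (k i)), ?_, ?_⟩
      · intro s hs
        apply z
        have h2 : (s : ℕ) < t := hs
        by_cases h3 : (s : ℕ) / 2 = t / 2
        · have h4 : (s : ℕ) % 2 = 0 := by omega
          have h5 : seq2 k l s = k i := by
            unfold seq2
            rw [if_pos h4]
            congr 1
            exact Fin.ext h3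
          rw [h5]
          exact H29.sf_self _
        · refine orth ⟨s / 2, by omega⟩ i ?_ _ (mem s) _ (Or.inl rfl)
          intro h
          exact h3 (congrArg Fin.val h)
      · rw [et]
        apply z1
        rw [H29.sf_swap, H29.sf_hnd (hh i)]
        decide
  obtain ⟨ψ, hψ, hψT, a, ha, hae⟩ := unc_ind (sS n hn) T hT (2 * m) (seq2 k l) (fun t => by
    unfold seq2
    split_ifs
    · exact hTk _
    · exact hTl _) hind
  -- the letters of the handles
  let A : Fin m → Fin 2 × Fin n := fun i => a ⟨2 * i, by omega⟩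
  let B : Fin m → Fin 2 × Fin n := fun i => a ⟨2 * i + 1, by omega⟩
  have hA : ∀ i, ψ (FreeGroup.of (A i)) = k i := fun i => (hae _).trans (seq2_even k l i)
  have hB : ∀ i, ψ (FreeGroup.of (B i)) = l i := fun i => (hae _).trans (seq2_odd k l i)
  have hAB : ∀ i, A i ≠ B i := by
    intro i h
    have := congrArg Fin.val (ha h)
    simp only at this
    omega
  set S' := (sS n hn).new ψ hψ with hS'
  have hr : ∀ x y : (Fin 2 × Fin n) × Bool, S'.R.r x < S'.R.r y ↔
      key (sR n) (ψ (lt x)) < key (sR n) (ψ (lt y)) := fun x y => nr_lt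
  have letT : ∀ c : Fin 2 × Fin n, ψ (lt (c, true)) = ψ (FreeGroup.of c) := fun c => rfl
  have letF : ∀ c : Fin 2 × Fin n, ψ (lt (c, false)) = (ψ (FreeGroup.of c))⁻¹ := by
    intro c
    rw [← _root_.map_inv]; rfl
  -- the blocks
  have hblk : ∀ i, ∃ U V, S'.Z = U ++ [(A i, true), (B i, true), (A i, false), (B i, false)] ++ V := by
    intro i
    set w : List ((Fin 2 × Fin n) × Bool) :=
      [(A i, true), (B i, true), (A i, false), (B i, false)] with hw
    have hwr : FreeGroup.IsReduced w := by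
      have h1 := hAB i
      have h2 := h1.symm
      rw [hw]
      simp only [FreeGroup.isReduced_cons_cons, FreeGroup.IsReduced.singleton, and_true]
      simp [h1, h2]
    have hψw : ψ (FreeGroup.mk w) = cm (k i) (l i) := by
      have e1 : FreeGroup.mk w = cm (FreeGroup.of (A i)) (FreeGroup.of (B i)) := rfl
      rw [e1]
      unfold cm
      simp only [_root_.map_mul, _root_.map_inv, hA, hB]
    have hw1 : FreeGroup.mk w ≠ 1 := by
      intro h
      rw [h, _root_.map_one] at hψw
      exact (hh i).cm_ne hψw.symm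
    have hcmp : ∀ (g : FreeGroup (Fin 2 × Fin n)) (x : (Fin 2 × Fin n) × Bool),
        ¬ Lo S'.R (1, 0) (FreeGroup.mk w, 0) (g, 0) (g * lt x, 0) := by
      intro g x hx
      have h1 := (lo_new hψ 0 _ _ _ _).1 hx
      rw [_root_.map_one, hψw, _root_.map_mul] at h1
      rcases lt_cases ψ x with h2 | h2
      · rw [h2] at h1
        exact hψT _ (hTc i) x.1 _ h1
      · rw [h2] at h1
        exact (hψT _ (hTc i) x.1).inv_right _ h1
    have tw : (FreeGroup.mk w).toWord = w := by rw [FreeGroup.toWord_mk, hwr.reduce_eq]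
    obtain ⟨U, V, hUV | hUV⟩ := sw S' 0 hw1 hcmp
    · exact ⟨U, V, by rw [tw] at hUV; exact hUV⟩
    · exfalso
      rw [FreeGroup.toWord_inv, tw] at hUV
      have e2 : FreeGroup.invRev w =
          [(B i, true), (A i, true), (B i, false), (A i, false)] := by
        rw [hw]; simp [FreeGroup.invRev]
      rw [e2] at hUV
      -- the rank of `A` follows the rank of `B⁻¹`
      have h3 : S'.R.r (A i, true) = S'.R.r (B i, false) + 1 := by
        have h4 := bd_next S'.R S'.Z 0 S'.bd U (B i, true) (A i, true)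
          ([(B i, false), (A i, false)] ++ V) (by rw [hUV]; simp)
        exact h4
      have h4 : S'.R.r (A i, true) < S'.R.r (B i, false) := by
        rw [hr, letT, letF, hA, hB]
        exact (hh i).2.2.2.1
      omega
  have hord : ∀ i i', i < i' → S'.R.r (B i, true) < S'.R.r (A i', true) := by
    intro i i' h
    rw [hr, letT, letT, hA, hB]
    exact (hHH i i' h).lt
  obtain ⟨g, Φ, hΦ1, hΦ2⟩ := cc2 _ S'.R S'.Z S'.bd S'.all m A B hblk hord
  have hcard := rank_eq Φ
  simp only [Fintype.card_prod, Fintype.card_fin] at hcard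
  have hmg : m + g = n := by omega
  subst hmg
  refine ⟨Nat.le_add_right m g, Φ.trans ψ, ?_, ?_⟩
  · show ψ (Φ (zeta (m + g))) = zeta (m + g)
    rw [hΦ1]
    have := (sS (m + g) hn).new_mk ψ hψ
    rw [← hS'] at this
    rw [this]
    exact mk_sZ (m + g)
  · intro i
    obtain ⟨h1, h2⟩ := hΦ2 i
    constructor
    · show ψ (Φ (FreeGroup.of (0, Fin.castAdd g i))) = k i
      rw [h1, hA]
    · show ψ (Φ (FreeGroup.of (1, Fin.castAdd g i))) = l i
      rw [h2, hB]

/-- CHANGE OF COORDINATES -/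
theorem cch (cc2 : CC2S) (n m : ℕ) (j : Fin m → ℕ) (hj : StrictMono j)
    (k l : Fin m → FreeGroup (Fin 2 × Fin n)) (hh : ∀ i, Hnd (sR n) (k i) (l i))
    (hc : ∀ i i', i ≠ i' → Cmp (sR n) (j i) (k i) (j i') (k i') ∧
      Cmp (sR n) (j i) (k i) (j i') (l i') ∧ Cmp (sR n) (j i) (l i) (j i') (k i') ∧
      Cmp (sR n) (j i) (l i) (j i') (l i')) :
    ∃ (hmn : m ≤ n) (φ : MulAut (FreeGroup (Fin 2 × Fin n))), φ (zeta n) = zeta n ∧
      ∀ i : Fin m, φ (FreeGroup.of (0, Fin.castLE hmn i)) = k i ∧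
        φ (FreeGroup.of (1, Fin.castLE hmn i)) = l i := by
  rcases Nat.eq_zero_or_pos n with hn | hn
  · subst hn
    rcases Nat.eq_zero_or_pos m with hm | hm
    · subst hm
      exact ⟨le_rfl, 1, rfl, fun i => i.elim0⟩
    · exfalso
      have h1 := (hh ⟨0, hm⟩).k1
      apply h1
      have : Subsingleton (FreeGroup (Fin 2 × Fin 0)) := by
        have : IsEmpty (Fin 2 × Fin 0) := inferInstance
        infer_instance
      exact Subsingleton.elim _ _
  · exact cch_pos cc2 n hn m j hj k l hh hc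

end Pool.Agent.TOR.H59
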