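import Pool.Agent.Helper59_TOR.Cch
import Pool.Agent.Helper96_TOR.Cc2
import Pool.Agent.Helper36_TOR.Stmts
import Pool.Agent.Helper20_TWS.Stmts

/-! TOR, change of coordinates for systems of handles: final statements. -/

set_option autoImplicit false

namespace Pool.Agent.TOR.H59

/-- handle blocks in a boundary word (helper96) -/
theorem cc2s : CC2S := fun _ _ _ R _ h1 h2 _ a b h3 h4 => Pool.Agent.TOR96.cc2 R h1 h2 a b h3 h4

/-- CHANGE OF COORDINATES, no hypotheses -/
theorem cc_handles (n m : ℕ) (j : Fin m → ℕ) (hj : StrictMono j)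
    (k l : Fin m → FreeGroup (Fin 2 × Fin n)) (hh : ∀ i, Hnd (sR n) (k i) (l i))
    (hc : ∀ i i', i ≠ i' → Cmp (sR n) (j i) (k i) (j i') (k i') ∧
      Cmp (sR n) (j i) (k i) (j i') (l i') ∧ Cmp (sR n) (j i) (l i) (j i') (k i') ∧
      Cmp (sR n) (j i) (l i) (j i') (l i')) :
    ∃ (hmn : m ≤ n) (φ : MulAut (FreeGroup (Fin 2 × Fin n))), φ (zeta n) = zeta n ∧
      ∀ i : Fin m, φ (FreeGroup.of (0, Fin.castLE hmn i)) = k i ∧
        φ (FreeGroup.of (1, Fin.castLE hmn i)) = l i := cch cc2s n m j hj k l hh hc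

/-- the form of the action side -/
theorem cchSA : SA.CCH := by
  intro n m j hj k l hh hc
  obtain ⟨hmn, φ, h1, h2⟩ := cc_handles n m j hj k l hh hc
  exact ⟨hmn, ⟨φ, h1⟩, h2⟩

/-- two handles at neighbouring gaps -/
theorem cc2_tws : TWS.Cc2S := by
  intro n a b ha hb i k l k' l' h h' hc
  have c1 := hc k (by simp) k' (by simp)
  have c2 := hc k (by simp) l' (by simp)
  have c3 := hc l (by simp) k' (by simp)
  have c4 := hc l (by simp) l' (by simp)
  have hj : StrictMono (![i, i + 1] : Fin 2 → ℕ) := by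
    intro x y hxy
    fin_cases x <;> fin_cases y <;> simp at hxy ⊢
  obtain ⟨hmn, φ, h1, h2⟩ := cc_handles n 2 ![i, i + 1] hj ![k, k'] ![l, l'] (by
    intro x
    fin_cases x
    · exact h
    · exact h') (by
    intro x y hxy
    fin_cases x <;> fin_cases y
    · exact (hxy rfl).elim
    · exact ⟨c1, c2, c3, c4⟩
    · exact ⟨c1.symm, c3.symm, c2.symm, c4.symm⟩
    · exact (hxy rfl).elim)
  have e0 : Fin.castLE hmn (0 : Fin 2) = a := Fin.ext (by simp [ha])
  have e1 : Fin.castLE hmn (1 : Fin 2) = b := Fin.ext (by simp [hb])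
  have f0 := h2 0
  have f1 := h2 1
  rw [e0] at f0
  rw [e1] at f1
  exact ⟨φ, h1, f0.1, f0.2, f1.1, f1.2⟩

end Pool.Agent.TOR.H59
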