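import Pool.Agent.Helper59_TOR.Dua
import Pool.Agent.Helper20_TWS.Ext

/-! TOR, algebraic model, part 15: dual arcs of a basis of compatible arcs (DUA). -/

set_option autoImplicit false

namespace Pool.Agent.TOR.H59

open FreeGroup Pointwise

variable {α : Type} [DecidableEq α]

theorem le_key_iff (R : Rib α) {t h : FreeGroup α} (ht : t ≠ 1) :
    key R t ≤ key R h ↔ h = t ∨ cy R t h 1 := by
  by_cases hw : h = 1
  · subst hw
    constructor
    · intro h
      exact absurd (key_one_lt R ht) (not_lt.2 h)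
    · rintro (h | h)
      · exact (ht h.symm).elim
      · exact (h.ne23 rfl).elim
  · have e3 : cy R t h 1 ↔ key R t < key R h := by
      rw [← cy_one R ht hw]
      exact ⟨fun h => h.rot.rot, fun h => h.rot⟩
    rw [e3, le_iff_lt_or_eq]
    constructor
    · rintro (h | h)
      · exact Or.inr h
      · exact Or.inl (key_inj R h).symm
    · rintro (h | h)
      · exact Or.inr (by rw [h])
      · exact Or.inl h

theorem key_one_le (R : Rib α) (h : FreeGroup α) : key R 1 ≤ key R h := by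
  by_cases e : h = 1
  · rw [e]
  · exact (key_one_lt R e).le

theorem nst_contra {Ω : Type*} {A B : Set Ω} (h : H58.Nst A B) {a b c d : Ω}
    (a1 : a ∈ A) (a2 : a ∉ B) (b1 : b ∉ A) (b2 : b ∈ B) (c1 : c ∈ A) (c2 : c ∈ B)
    (d1 : d ∉ A) (d2 : d ∉ B) : False := by
  rcases h with h | h | h | h
  · exact a2 (h a1)
  · exact b1 (h b2)
  · exact h c1 c2
  · exact d2 (h d1)

/-- the points of a larger gap: crossing with the chord `{1, t}` at a gap with a larger number -/
theorem lo_gt (R : Rib α) {i j : ℕ} (hij : j < i) {t : FreeGroup α} (ht : t ≠ 1)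
    (g : FreeGroup α) : co R (1, i) (g, j) (t, i) ↔ ¬ key R t ≤ key R g := by
  rw [not_le]
  by_cases h1 : g = 1
  · subst h1
    exact iff_of_true (H29.co_first R hij ht) (key_one_lt R ht)
  by_cases h2 : g = t
  · subst h2
    exact iff_of_false (H29.not_co_last R hij ht) (lt_irrefl _)
  · rw [H29.co_ne R h1 h2 ht.symm, cy_one R h1 ht]

/-- self compatibility from nested half-spaces -/
theorem self_cmp (R : Rib α) {t : FreeGroup α} (ht : t ≠ 1)
    (H : ∀ g, H58.Nst {h | key R t ≤ key R (g⁻¹ * h)} {h | key R t ≤ key R h}) :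
    Cmp R 0 t 0 t := by
  intro g hg
  rw [lo_same] at hg
  have m1 : ∀ h, key R t ≤ key R (g⁻¹ * h) ↔ h = g * t ∨ cy R (g * t) h g := by
    intro h
    rw [le_key_iff R ht, inv_mul_eq_iff_eq_mul, ← cy_mul R g t (g⁻¹ * h) 1, mul_one,
      mul_inv_cancel_left]
  have nst := H g
  have kt : key R 1 < key R t := key_one_lt R ht
  have z1 := key_one_le R g
  have z2 := key_one_le R (g * t)
  have A1 : ¬ key R t ≤ key R (1 : FreeGroup α) := not_le.2 kt
  rcases hg with ⟨h1, h2⟩ | ⟨h1, h2⟩
  · -- 1 < g < t < g t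
    have c1 : key R g < key R t := by unfold Cyc at h1; grind
    have c0 : key R 1 < key R g := by unfold Cyc at h1; grind
    have c2 : key R t < key R (g * t) := by unfold Cyc at h2; grind
    refine nst_contra nst (a := 1) (b := t) (c := g * t) (d := g) ?_ A1 ?_ ?_ ?_ ?_ ?_ ?_
    · refine (m1 1).2 (Or.inr ?_)
      show Cyc _ _ _
      unfold Cyc; grind
    · intro h
      rcases (m1 t).1 h with h | h
      · rw [← h] at c2; exact lt_irrefl _ c2
      · have h' : Cyc (key R (g * t)) (key R t) (key R g) := h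
        unfold Cyc at h'; grind
    · exact le_refl (key R t)
    · exact (m1 _).2 (Or.inl rfl)
    · exact c2.le
    · intro h
      rcases (m1 g).1 h with h | h
      · exact ht (by simpa using h.symm)
      · exact h.ne23 rfl
    · exact not_le.2 c1
  · -- 1 < g t < t < g
    have c0 : key R 1 < key R (g * t) := by unfold Cyc at h1; grind
    have c1 : key R (g * t) < key R t := by unfold Cyc at h1; grind
    have c2 : key R t < key R g := by unfold Cyc at h2; grind
    refine nst_contra nst (a := g * t) (b := g) (c := t) (d := 1) ?_ ?_ ?_ ?_ ?_ ?_ ?_ A1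
    · exact (m1 _).2 (Or.inl rfl)
    · exact not_le.2 c1
    · intro h
      rcases (m1 g).1 h with h | h
      · exact ht (by simpa using h.symm)
      · exact h.ne23 rfl
    · exact c2.le
    · refine (m1 t).2 (Or.inr ?_)
      show Cyc _ _ _
      unfold Cyc; grind
    · exact le_refl (key R t)
    · intro h
      rcases (m1 1).1 h with h | h
      · rw [← h] at c0; exact lt_irrefl _ c0
      · have h' : Cyc (key R (g * t)) (key R 1) (key R g) := h
        unfold Cyc at h'; grind

theorem hs_eq_Wp (l : α × Bool) : HS l = H58.Wp [l] := by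
  ext w
  unfold HS H58.Wp
  simp only [Set.mem_ofPred_eq]
  cases w.toWord with
  | nil => simp
  | cons a u => simp [eq_comm]

/-- the key of the new ribbon structure -/
theorem key_new {R : Rib α} [Fintype α] {ψ : MulAut (FreeGroup α)} (hψ : CB R ψ)
    (x y : FreeGroup α) : key (nR R ψ) x < key (nR R ψ) y ↔ key R (ψ x) < key R (ψ y) := by
  have inj : ∀ x : FreeGroup α, ψ x = 1 ↔ x = 1 := fun x =>
    MulEquiv.map_eq_one_iff (ψ : MulAut (FreeGroup α))
  by_cases hx : x = 1
  · subst hx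
    rw [_root_.map_one]
    by_cases hy : y = 1
    · subst hy; rw [_root_.map_one]; exact iff_of_false (lt_irrefl _) (lt_irrefl _)
    · exact iff_of_true (key_one_lt _ hy) (key_one_lt _ (fun h => hy ((inj y).1 h)))
  · by_cases hy : y = 1
    · subst hy
      rw [_root_.map_one]
      exact iff_of_false (lt_asymm (key_one_lt _ hx))
        (lt_asymm (key_one_lt _ (fun h => hx ((inj x).1 h))))
    · rw [← cy_one _ hx hy, ← cy_one _ (fun h => hx ((inj x).1 h)) (fun h => hy ((inj y).1 h)),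
        cy_new hψ, _root_.map_one]

/-- DUAL ARCS -/
theorem dual [Fintype α] (S : Srf α) (ψ : MulAut (FreeGroup α)) (hψ : CB S.R ψ) (b : α) :
    ∃ t, Arc S.R t ∧ (∀ i j, j < i → ∀ c, c ≠ b → Cmp S.R i t j (ψ (FreeGroup.of c))) ∧
      ∀ i j, j < i → (H29.om S.R i j t (ψ (FreeGroup.of b)) = 1 ∨
        H29.om S.R i j t (ψ (FreeGroup.of b)) = -1) := by
  set S' := S.new ψ hψ with hS'
  obtain ⟨U', V', hl⟩ := List.append_of_mem (S'.all (b, true))
  obtain ⟨U, V, hil⟩ := List.append_of_mem (S'.all (iv (b, true)))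
  set l : α × Bool := (b, true) with hlb
  set t' := (FreeGroup.mk V)⁻¹ * lt l * FreeGroup.mk V' with ht'
  have ht'1 : t' ≠ 1 := dual_ne_one S' hl hil
  set t := ψ t' with ht
  have ht1 : t ≠ 1 := fun h => ht'1 ((MulEquiv.map_eq_one_iff (ψ : MulAut (FreeGroup α))).1 h)
  have X : ∀ g, key S.R t ≤ key S.R g ↔ FreeGroup.mk V * ψ⁻¹ g ∈ HS l := by
    intro g
    rw [hs_key S' hl hil, ← ht', ← not_lt, ← not_lt]
    have := key_new hψ (ψ⁻¹ g) t'
    rw [MulAut.apply_inv_self] at this
    rw [← this]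
    exact Iff.rfl
  have hself : Cmp S.R 0 t 0 t := by
    apply self_cmp S.R ht1
    intro g
    have h1 := H58.sn_Wp l (FreeGroup.mk V * ψ⁻¹ g * (FreeGroup.mk V)⁻¹)
    rw [← hs_eq_Wp] at h1
    have e1 : ∀ h, h ∈ {h | key S.R t ≤ key S.R h} ↔ FreeGroup.mk V * ψ⁻¹ h ∈ HS l := X
    have e2 : ∀ h, h ∈ {h | key S.R t ≤ key S.R (g⁻¹ * h)} ↔ FreeGroup.mk V * ψ⁻¹ h ∈
        (FreeGroup.mk V * ψ⁻¹ g * (FreeGroup.mk V)⁻¹) • HS l := by
      intro h
      rw [Set.mem_smul_set_iff_inv_smul_mem, Set.mem_ofPred_eq, X, smul_eq_mul, _root_.map_mul,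
        _root_.map_inv]
      have : FreeGroup.mk V * ((ψ⁻¹ g)⁻¹ * ψ⁻¹ h) =
          (FreeGroup.mk V * ψ⁻¹ g * (FreeGroup.mk V)⁻¹)⁻¹ * (FreeGroup.mk V * ψ⁻¹ h) := by group
      rw [this]
    rcases h1 with h1 | h1 | h1 | h1
    · exact Or.inl fun h hh => (e1 h).2 (h1 ((e2 h).1 hh))
    · exact Or.inr (Or.inl fun h hh => (e2 h).2 (h1 ((e1 h).1 hh)))
    · exact Or.inr (Or.inr (Or.inl fun h hh hh' => h1 ((e2 h).1 hh) ((e1 h).1 hh')))
    · exact Or.inr (Or.inr (Or.inr fun h hh => (e1 h).2 (h1 fun hh' => hh ((e2 h).2 hh'))))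
  have hcmp : ∀ i j, j < i → ∀ c, c ≠ b → Cmp S.R i t j (ψ (FreeGroup.of c)) := by
    intro i j hij c hc g hg
    have h1 := (lk_iff (H29.ne_okey hij.ne g 1) (H29.ne_okey hij.ne g t)
      (H29.ne_okey hij.ne (g * ψ (FreeGroup.of c)) 1) (H29.ne_okey hij.ne _ t)
      (fun h => ht1 (congrArg Prod.fst (okey_inj S.R h)).symm)).1 hg
    apply h1
    have h2 : co S.R (1, i) (g, j) (t, i) ↔ co S.R (1, i) (g * ψ (FreeGroup.of c), j) (t, i) := by
      rw [lo_gt S.R hij ht1, lo_gt S.R hij ht1, X, X, _root_.map_mul, MulAut.inv_apply_self,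
        ← mul_assoc]
      have := hs_mul (a := b) [(c, true)] (by
        intro l' hl'
        simp only [List.mem_singleton] at hl'
        rw [hl']; exact hc) true (FreeGroup.mk V * ψ⁻¹ g)
      exact not_congr this
    exact h2
  have hom : ∀ i j, j < i → H29.om S.R i j t (ψ (FreeGroup.of b)) = -1 := by
    intro i j hij
    unfold H29.om
    rw [finsum_eq_single _ (ψ (FreeGroup.mk V)⁻¹)]
    · rw [H29.sg_def, H29.iI_congr (lo_gt S.R hij ht1 _), H29.iI_congr (lo_gt S.R hij ht1 _),
        H29.iI_congr (not_congr (X _)), H29.iI_congr (not_congr (X _)), _root_.map_mul,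
        MulAut.inv_apply_self, MulAut.inv_apply_self, ← mul_assoc, mul_inv_cancel, one_mul,
        H29.iI_true (hs_toggle l).1,
        H29.iI_false (not_not_intro (show FreeGroup.of b ∈ HS l from (hs_toggle l).2))]
      rfl
    · intro g hg
      rw [H29.sg_def, H29.iI_congr (lo_gt S.R hij ht1 _), H29.iI_congr (lo_gt S.R hij ht1 _),
        H29.iI_congr (not_congr (X _)), H29.iI_congr (not_congr (X _)), _root_.map_mul,
        MulAut.inv_apply_self, ← mul_assoc]
      have h1 := hs_step l l (FreeGroup.mk V * ψ⁻¹ g) (by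
        rintro ⟨h, _⟩
        apply hg
        rw [← eq_inv_iff_mul_eq_one] at h
        have h2 : ψ⁻¹ g = (FreeGroup.mk V)⁻¹ := by
          rw [h, inv_inv]
        rw [← h2, MulAut.apply_inv_self]) (by
        rintro ⟨_, h⟩
        exact iv_ne_self l h.symm)
      rw [H29.iI_congr (not_congr h1)]
      exact sub_self _
  refine ⟨prep S.R t, arc_prep ht1 hself, fun i j hij c hc => cmp_prep_left.2 (hcmp i j hij c hc),
    fun i j hij => ?_⟩
  rcases prep_or S.R t with h | h
  · rw [h]; exact Or.inr (hom i j hij)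
  · rw [h, H29.om_inv_left S.R hij.ne', hom i j hij]
    exact Or.inl rfl

/-- DUA -/
theorem dua : TWS.H20.DuaS := by
  intro n ψ hn hψ b i
  obtain ⟨t, h1, h2, h3⟩ := dual (sS n hn) ψ hψ b
  refine ⟨t, h1, fun j hj c hc => h2 i j hj c hc, fun j hj => ?_⟩
  rcases h3 i j hj with h | h <;> rw [show H29.om (sR n) i j t (ψ (FreeGroup.of b)) = _ from h] <;>
    decide

end Pool.Agent.TOR.H59
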