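import Pool.Agent.Helper59_TOR.Qb

/-! TOR, algebraic model, part 9: the boundary word of a basis of compatible arcs. -/

set_option autoImplicit false

namespace Pool.Agent.TOR.H59

open FreeGroup

variable {α : Type}

theorem adm_reduced (R : Rib α) : ∀ (w : List (α × Bool)) (l : α × Bool),
    Adm R (R.r (iv l)) w → FreeGroup.IsReduced (l :: w)
  | [], l, _ => FreeGroup.IsReduced.singleton
  | a :: w, l, h => by
      rw [FreeGroup.isReduced_cons_cons]
      refine ⟨?_, adm_reduced R w a h.2⟩
      intro e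
      by_contra e'
      apply h.1
      have : a = iv l := by
        ext
        · exact e.symm
        · simp only [iv]
          cases h1 : l.2 <;> cases h2 : a.2 <;> simp_all
      rw [this]

theorem bd_of_min (R : Rib α) (hF : Full R) : ∀ (w : List (α × Bool)) (b : ℕ), b ≤ R.N →
    Adm R b w → (∀ u, Adm R b u → kf R b w ≤ kf R b u) → Bd R b w
  | [], b, hb, hw, hmin => by
      have h1 : 1 ≤ b := hw
      by_contra hcon
      have h2 : b ≠ R.N := hcon
      obtain ⟨c, hc⟩ := hF (b + 1) (by omega) (by omega)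
      have h3 := hmin [c] ⟨by omega, R.pos _⟩
      rw [← not_lt] at h3
      apply h3
      simp only [kf, List.cons_lt_cons_iff]
      left
      rw [hc]
      unfold rel
      split_ifs <;> omega
  | l :: w, b, hb, hw, hmin => by
      have h0 := R.pos l
      have h0' := R.le l
      have h00 := hw.1
      have h1 : R.r l = b + 1 := by
        by_contra hcon
        by_cases hbN : b = R.N
        · have h3 := hmin [] (show 1 ≤ b by omega)
          rw [← not_lt] at h3
          apply h3
          simp only [kf, List.cons_lt_cons_iff]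
          left
          unfold rel
          split_ifs <;> omega
        · obtain ⟨c, hc⟩ := hF (b + 1) (by omega) (by omega)
          have h3 := hmin [c] ⟨by omega, R.pos _⟩
          rw [← not_lt] at h3
          apply h3
          simp only [kf, List.cons_lt_cons_iff]
          left
          rw [hc]
          unfold rel
          split_ifs <;> omega
      refine ⟨h1, bd_of_min R hF w _ (R.le _) hw.2 ?_⟩
      intro u hu
      have h2 := hmin (l :: u) ⟨hw.1, hu⟩
      rw [← not_lt] at h2 ⊢
      intro h3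
      apply h2
      simp only [kf, List.cons_lt_cons_iff]
      exact Or.inr ⟨trivial, h3⟩

variable [DecidableEq α]

theorem bd_of_succ (R : Rib α) (hF : Full R) {z : FreeGroup α} (hz : z ≠ 1)
    (h : ∀ u, ¬ cy R 1 u z) : Bd R 0 z.toWord := by
  have hw : z.toWord ≠ [] := by rwa [Ne, FreeGroup.toWord_eq_nil_iff]
  apply bd_of_min R hF _ 0 (Nat.zero_le _) (adm_root R FreeGroup.isReduced_toWord hw)
  intro u hu
  have hu1 : FreeGroup.IsReduced u ∧ u ≠ [] := by
    cases u with
    | nil => exact absurd hu (by simp [Adm])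
    | cons l u => exact ⟨adm_reduced R u l hu.2, by simp⟩
  have e1 : (FreeGroup.mk u).toWord = u := by rw [FreeGroup.toWord_mk, hu1.1.reduce_eq]
  have e2 : FreeGroup.mk u ≠ 1 := by
    intro h'
    rw [h', FreeGroup.toWord_one] at e1
    exact hu1.2 e1.symm
  have h1 := h (FreeGroup.mk u)
  rw [cy_one R e2 hz, not_lt] at h1
  unfold key at h1
  rwa [e1] at h1

/-! ### half-spaces of the tree -/

/-- words with a given first letter -/
def HS (l : α × Bool) : Set (FreeGroup α) := {w | w.toWord.head? = some l}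

theorem AI.hs (l : α × Bool) : AI (HS l) := by
  apply AI.of_letters
  intro a
  have h1 : ({1, lt (iv a)} : Set (FreeGroup α)).Finite := Set.toFinite _
  refine h1.subset ?_
  intro w hw
  by_contra hcon
  simp only [Set.mem_insert_iff, Set.mem_singleton_iff, not_or] at hcon
  apply hw
  unfold HS
  simp only [Set.mem_ofPred_eq]
  have n1 : w.toWord ≠ [] := by
    rw [Ne, FreeGroup.toWord_eq_nil_iff]; exact hcon.1
  have n2 : (w * lt a).toWord ≠ [] := by
    rw [Ne, FreeGroup.toWord_eq_nil_iff]
    intro h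
    apply hcon.2
    rw [lt_iv]
    exact eq_inv_of_mul_eq_one_left h
  rcases word_mul_lt w a with h | h
  · rw [h, List.head?_append_of_ne_nil _ n1]
  · rw [h, List.head?_append_of_ne_nil _ n2]

omit [DecidableEq α] in
theorem AI.map {X : Set (FreeGroup α)} (h : AI X) (ψ : MulAut (FreeGroup α)) :
    AI {g | ψ⁻¹ g ∈ X} := by
  intro s
  have := (h (ψ⁻¹ s)).preimage (f := fun g => ψ⁻¹ g)
    (MulEquiv.injective (ψ⁻¹ : MulAut (FreeGroup α))).injOn
  refine this.subset ?_
  intro g hg
  simp only [Set.mem_ofPred_eq, Set.mem_preimage] at *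
  rw [_root_.map_mul] at hg
  exact hg

theorem hs_mul {a : α} : ∀ (Z : List (α × Bool)), (∀ l ∈ Z, l.1 ≠ a) → ∀ (e : Bool)
    (w : FreeGroup α), w ∈ HS (a, e) ↔ w * FreeGroup.mk Z ∈ HS (a, e) := by
  intro Z
  induction Z with
  | nil => intro _ e w; rw [← FreeGroup.one_eq_mk, mul_one]
  | cons l Z ih =>
    intro h e w
    have h1 : l.1 ≠ a := h l (by simp)
    have e3 : FreeGroup.mk (l :: Z) = lt l * FreeGroup.mk Z := by
      rw [lt, FreeGroup.mul_mk]; rfl
    rw [e3, ← mul_assoc, ← ih (fun x hx => h x (by simp [hx])) e (w * lt l)]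
    unfold HS
    simp only [Set.mem_ofPred_eq]
    rcases word_mul_lt w l with h2 | h2
    · rw [h2]
      cases hw : w.toWord with
      | nil =>
        simp only [List.nil_append, List.head?_nil, List.head?_cons, Option.some.injEq]
        constructor
        · intro h; simp at h
        · intro h; exact (h1 (by rw [h])).elim
      | cons x y => simp
    · rw [h2]
      cases hw : (w * lt l).toWord with
      | nil =>
        simp only [List.nil_append, List.head?_nil, List.head?_cons, Option.some.injEq]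
        constructor
        · intro h; exact (h1 (by rw [← iv_iv l, h]; rfl)).elim
        · intro h; simp at h
      | cons x y => simp

/-! ### exponent sums -/

/-- exponent sum of the basis element `a` -/
def ex (a : α) : FreeGroup α →* Multiplicative ℤ :=
  FreeGroup.lift (fun b => if b = a then Multiplicative.ofAdd 1 else 1)

theorem ex_lt (a : α) (l : α × Bool) : ex a (lt l) =
    Multiplicative.ofAdd (if l = (a, true) then 1 else if l = (a, false) then -1 else (0 : ℤ)) := by
  obtain ⟨b, e⟩ := l
  cases e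
  · have : lt (b, false) = (FreeGroup.of b)⁻¹ := rfl
    rw [this, _root_.map_inv]
    unfold ex
    rw [FreeGroup.lift_apply_of]
    by_cases h : b = a
    · simp [h]
    · simp [h]
  · have : lt (b, true) = FreeGroup.of b := rfl
    rw [this]
    unfold ex
    rw [FreeGroup.lift_apply_of]
    by_cases h : b = a
    · simp [h]
    · simp [h]

theorem ex_mk (a : α) : ∀ w : List (α × Bool), ex a (FreeGroup.mk w) =
    Multiplicative.ofAdd ((w.count (a, true) : ℤ) - w.count (a, false)) := by
  intro w
  induction w with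
  | nil => rw [← FreeGroup.one_eq_mk, _root_.map_one]; simp
  | cons l w ih =>
    have e3 : FreeGroup.mk (l :: w) = lt l * FreeGroup.mk w := by
      rw [lt, FreeGroup.mul_mk]; rfl
    rw [e3, _root_.map_mul, ih, ex_lt, ← ofAdd_add]
    congr 1
    rw [List.count_cons, List.count_cons]
    by_cases h1 : l = (a, true)
    · subst h1; simp; omega
    · by_cases h2 : l = (a, false)
      · subst h2; simp; omega
      · simp [h1, h2]

/-- SURFACES WITH ONE BOUNDARY COMPONENT: a fat graph with one vertex, whose boundary word contains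
all letters and is a nontrivial element of the commutator subgroup -/
structure Srf (α : Type) [DecidableEq α] where
  R : Rib α
  Z : List (α × Bool)
  bd : Bd R 0 Z
  all : ∀ l, l ∈ Z
  ne : FreeGroup.mk Z ≠ 1
  ab : ∀ (f : FreeGroup α →* Multiplicative ℤ), f (FreeGroup.mk Z) = 1

variable [Fintype α] (S : Srf α) (ψ : MulAut (FreeGroup α)) (hψ : CB S.R ψ)

omit [Fintype α] in
theorem Srf.no_between (g h : FreeGroup α) : ¬ cy S.R g h (g * FreeGroup.mk S.Z) :=
  H59.no_between S.R S.bd g h

include hψ

theorem Srf.new_bd : Bd (nR S.R ψ) 0 (ψ⁻¹ (FreeGroup.mk S.Z)).toWord := by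
  apply bd_of_succ _ (full_new S.R ψ)
  · intro h
    exact S.ne ((MulEquiv.map_eq_one_iff (ψ⁻¹ : MulAut (FreeGroup α))).1 h)
  · intro u h
    rw [cy_new hψ, _root_.map_one] at h
    have e : ψ (ψ⁻¹ (FreeGroup.mk S.Z)) = FreeGroup.mk S.Z := MulAut.apply_inv_self _ ψ _
    rw [e] at h
    have := S.no_between 1 (ψ u)
    rw [one_mul] at this
    exact this h

omit hψ in
theorem Srf.new_all : ∀ l, l ∈ (ψ⁻¹ (FreeGroup.mk S.Z)).toWord := by
  intro l
  set z := ψ⁻¹ (FreeGroup.mk S.Z) with hz
  have hc : (z.toWord.count (l.1, true) : ℤ) - z.toWord.count (l.1, false) = 0 := by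
    have h1 := S.ab ((ex l.1).comp (ψ⁻¹ : MulAut (FreeGroup α)).toMonoidHom)
    have h2 : ex l.1 z = 1 := h1
    rw [← FreeGroup.mk_toWord (x := z), ex_mk] at h2
    exact Multiplicative.ofAdd.injective h2
  by_contra hl
  have hall : ∀ x ∈ z.toWord, x.1 ≠ l.1 := by
    intro x hx h
    have h1 : 0 < z.toWord.count x := List.count_pos_iff.2 hx
    have h2 : z.toWord.count l = 0 := List.count_eq_zero.2 hl
    obtain ⟨b, e⟩ := x
    obtain ⟨a, e'⟩ := l
    simp only at h hc
    subst h
    cases e <;> cases e' <;> omega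
  have hX : ∀ g, g ∈ {g | ψ⁻¹ g ∈ HS (l.1, true)} ↔
      g * FreeGroup.mk S.Z ∈ {g | ψ⁻¹ g ∈ HS (l.1, true)} := by
    intro g
    simp only [Set.mem_ofPred_eq]
    rw [_root_.map_mul, ← hz, ← FreeGroup.mk_toWord (x := z)]
    exact hs_mul z.toWord hall true (ψ⁻¹ g)
  have h1 := rigid S.R S.bd S.all ((AI.hs (l.1, true)).map ψ) hX (ψ (FreeGroup.of l.1)) 1
  have h2 : ψ⁻¹ (ψ (FreeGroup.of l.1)) = FreeGroup.of l.1 := MulAut.inv_apply_self _ ψ _
  simp only [Set.mem_ofPred_eq, h2, _root_.map_one] at h1
  unfold HS at h1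
  simp only [Set.mem_ofPred_eq, FreeGroup.toWord_one, List.head?_nil,
    FreeGroup.toWord_of, List.head?_cons] at h1
  simp at h1

/-- the surface structure given by a basis of compatible arcs -/
noncomputable def Srf.new : Srf α where
  R := nR S.R ψ
  Z := (ψ⁻¹ (FreeGroup.mk S.Z)).toWord
  bd := S.new_bd ψ hψ
  all := S.new_all ψ
  ne := by
    rw [FreeGroup.mk_toWord]
    intro h
    exact S.ne ((MulEquiv.map_eq_one_iff (ψ⁻¹ : MulAut (FreeGroup α))).1 h)
  ab := by
    intro f
    rw [FreeGroup.mk_toWord]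
    exact S.ab (f.comp (ψ⁻¹ : MulAut (FreeGroup α)).toMonoidHom)

theorem Srf.new_mk : ψ (FreeGroup.mk (S.new ψ hψ).Z) = FreeGroup.mk S.Z := by
  show ψ (FreeGroup.mk (ψ⁻¹ (FreeGroup.mk S.Z)).toWord) = _
  rw [FreeGroup.mk_toWord]
  exact MulAut.apply_inv_self _ ψ _

theorem Srf.new_cy (p q r : FreeGroup α) : cy (S.new ψ hψ).R p q r ↔ cy S.R (ψ p) (ψ q) (ψ r) :=
  cy_new hψ p q r

end Pool.Agent.TOR.H59
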