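import Pool.Agent.Helper59_TOR.Cch
import Pool.Agent.Helper58_TOR.Fr

/-! TOR, algebraic model, part 14: dual arcs. -/

set_option autoImplicit false

namespace Pool.Agent.TOR.H59

open FreeGroup

variable {α : Type} [DecidableEq α]

/-- one step in the tree and a half-space -/
theorem hs_step (l a : α × Bool) (x : FreeGroup α) (h1 : ¬ (x = 1 ∧ a = l))
    (h2 : ¬ (x = lt l ∧ a = iv l)) : x ∈ HS l ↔ x * lt a ∈ HS l := by
  unfold HS
  simp only [Set.mem_ofPred_eq]
  rcases word_mul_lt x a with h | h
  · rw [h]
    cases hx : x.toWord with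
    | nil =>
      have x1 : x = 1 := FreeGroup.toWord_eq_nil_iff.1 hx
      simp only [List.nil_append, List.head?_nil, List.head?_cons, Option.some.injEq]
      constructor
      · intro h'; simp at h'
      · intro h'; exact (h1 ⟨x1, h'⟩).elim
    | cons c y => simp
  · rw [h]
    cases hx : (x * lt a).toWord with
    | nil =>
      have x1 : x * lt a = 1 := FreeGroup.toWord_eq_nil_iff.1 hx
      have x2 : x = lt (iv a) := by rw [lt_iv]; exact eq_inv_of_mul_eq_one_left x1
      simp only [List.nil_append, List.head?_nil, List.head?_cons, Option.some.injEq]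
      constructor
      · intro h'
        exact (h2 ⟨by rw [x2, h'], by rw [← h', iv_iv]⟩).elim
      · intro h'; simp at h'
    | cons c y => simp

theorem hs_toggle (l : α × Bool) : (1 : FreeGroup α) ∉ HS l ∧ lt l ∈ HS l := by
  unfold HS
  constructor
  · simp only [Set.mem_ofPred_eq, FreeGroup.toWord_one]; simp
  · simp only [Set.mem_ofPred_eq]
    rw [lt, FreeGroup.toWord_mk, (FreeGroup.IsReduced.singleton (a := l)).reduce_eq]
    rfl

/-- a path which does not use the edge `{1, l}` stays on one side -/
theorem hs_path (l : α × Bool) : ∀ (W : List (α × Bool)) (g : FreeGroup α),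
    (∀ A a B, W = A ++ a :: B → ¬ (g * FreeGroup.mk A = 1 ∧ a = l) ∧
      ¬ (g * FreeGroup.mk A = lt l ∧ a = iv l)) →
    (g ∈ HS l ↔ g * FreeGroup.mk W ∈ HS l) := by
  intro W
  induction W with
  | nil => intro g _; rw [← FreeGroup.one_eq_mk, mul_one]
  | cons c W ih =>
    intro g h
    have h0 := h [] c W rfl
    rw [← FreeGroup.one_eq_mk, mul_one] at h0
    have e3 : FreeGroup.mk (c :: W) = lt c * FreeGroup.mk W := by
      rw [lt, FreeGroup.mul_mk]; rfl
    rw [hs_step l c g h0.1 h0.2, e3, ← mul_assoc]
    apply ih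
    intro A a B hW
    have := h (c :: A) a B (by rw [hW]; rfl)
    have e4 : FreeGroup.mk (c :: A) = lt c * FreeGroup.mk A := by
      rw [lt, FreeGroup.mul_mk]; rfl
    rw [e4, ← mul_assoc] at this
    exact this

omit [DecidableEq α] in
/-- unique splitting at a letter of a word without repetitions -/
theorem split_unique {Z : List (α × Bool)} (hn : Z.Nodup) {U V U' V' : List (α × Bool)}
    {l : α × Bool} (h1 : Z = U ++ l :: V) (h2 : Z = U' ++ l :: V') : U = U' ∧ V = V' := by
  have key : ∀ (U U' : List (α × Bool)) (V V' : List (α × Bool)), (U ++ l :: V).Nodup →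
      U ++ l :: V = U' ++ l :: V' → U = U' ∧ V = V' := by
    intro U
    induction U with
    | nil =>
      intro U' V V' hnd h
      cases U' with
      | nil => simpa using h
      | cons c U' =>
        simp only [List.nil_append, List.cons_append, List.cons.injEq] at h
        exfalso
        rw [List.nil_append, List.nodup_cons] at hnd
        apply hnd.1
        rw [h.2]
        simp
    | cons c U ih =>
      intro U' V V' hnd h
      cases U' with
      | nil =>
        simp only [List.nil_append, List.cons_append, List.cons.injEq] at h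
        exfalso
        rw [List.cons_append, List.nodup_cons] at hnd
        apply hnd.1
        rw [h.1]
        simp
      | cons c' U' =>
        simp only [List.cons_append, List.cons.injEq] at h
        rw [List.cons_append, List.nodup_cons] at hnd
        obtain ⟨h3, h4⟩ := ih U' V V' hnd.2 h.2
        exact ⟨by rw [h.1, h3], h4⟩
  exact key U U' V V' (h1 ▸ hn) (h1 ▸ h2)

omit [DecidableEq α] in
theorem iv_ne_self (l : α × Bool) : iv l ≠ l := by
  intro h
  have := congrArg Prod.snd h
  simp [iv] at this

theorem ivl_next_aux {β : Type*} [LinearOrder β] {p p' q q' g : β} (hpq : p ≠ q) (hpq' : p' ≠ q')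
    (hp : p ≠ p') (hq : q ≠ q')
    (a1 : ¬ Cyc p q p') (a2 : ¬ Cyc p q' p') (a3 : ¬ Cyc p g p')
    (b1 : ¬ Cyc q p q') (b2 : ¬ Cyc q p' q') (b3 : ¬ Cyc q g q') :
    (Cyc q g p ∨ g = p) ↔ (g = q' ∨ Cyc q' g p') := by
  unfold Cyc at *
  grind

/-- the interval `(q, p]` is `[q a, p a)`, `a` the successor -/
theorem ivl_next (R : Rib α) {a : FreeGroup α} (ha : a ≠ 1)
    (hno : ∀ g h : FreeGroup α, ¬ cy R g h (g * a)) {p q g : FreeGroup α} (hpq : p ≠ q) :
    g ∈ Ivl R q p ↔ g = q * a ∨ cy R (q * a) g (p * a) := by
  have h := ivl_next_aux (p := key R p) (p' := key R (p * a)) (q := key R q)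
    (q' := key R (q * a)) (g := key R g) (key_ne hpq)
    (key_ne (fun h => hpq (mul_right_cancel h)))
    (key_ne (fun h => ha (by simpa using h.symm))) (key_ne (fun h => ha (by simpa using h.symm)))
    (hno _ _) (hno _ _) (hno _ _) (hno _ _) (hno _ _) (hno _ _)
  have e1 : key R g = key R p ↔ g = p := ⟨key_inj R, fun h => h ▸ rfl⟩
  have e2 : key R g = key R (q * a) ↔ g = q * a := ⟨key_inj R, fun h => h ▸ rfl⟩
  rw [e1, e2] at h
  exact h

section dual
variable [Fintype α] (S : Srf α) {l : α × Bool} {U V U' V' : List (α × Bool)}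
  (hl : S.Z = U' ++ l :: V') (hil : S.Z = U ++ iv l :: V)
include hl hil

theorem mkZ_l : FreeGroup.mk S.Z = FreeGroup.mk U' * lt l * FreeGroup.mk V' := by
  rw [hl, lt, FreeGroup.mul_mk, FreeGroup.mul_mk]; simp

theorem mkZ_il : FreeGroup.mk S.Z = FreeGroup.mk U * (lt l)⁻¹ * FreeGroup.mk V := by
  rw [hil, ← lt_iv, lt, FreeGroup.mul_mk, FreeGroup.mul_mk]; simp

/-- the half-space of the edge `{1, l}` is an interval -/
theorem hs_ivl : lt l * (FreeGroup.mk U)⁻¹ ≠ (FreeGroup.mk U')⁻¹ ∧
    HS l = Ivl S.R (FreeGroup.mk U')⁻¹ (lt l * (FreeGroup.mk U)⁻¹) := by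
  have hnd := bd_nodup S.R S.Z S.bd
  have rZ := bd_reduced S.R S.Z 0 S.bd
  have hli : iv l ≠ l := iv_ne_self l
  set p := lt l * (FreeGroup.mk U)⁻¹ with hp
  set q := (FreeGroup.mk U')⁻¹ with hq
  -- membership of q
  have q0 : q ∉ HS l := by
    have h1 := hs_path l U' q (by
      intro A a B hW
      constructor
      · rintro ⟨_, h⟩
        subst h
        have := (split_unique hnd (U := A) (V := B ++ a :: V') (U' := U') (V' := V')
          (by rw [hl, hW]; simp) hl).1
        have := congrArg List.length this
        rw [hW] at this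
        simp at this
      · rintro ⟨h1, h2⟩
        subst h2
        have h3 := (split_unique hnd (U := A) (V := B ++ l :: V') (U' := U) (V' := V)
          (by rw [hl, hW]; simp) hil).1
        subst h3
        -- q * U = l, so U⁻¹ ... : q = l U⁻¹; then 1 = q U' passes; contradiction by words
        have h4 : FreeGroup.mk U' = FreeGroup.mk A * (lt l)⁻¹ := by
          have : q = lt l * (FreeGroup.mk A)⁻¹ := by rw [← h1]; group
          have h5 := congrArg (fun x => x⁻¹) this
          simp only [hq, inv_inv, mul_inv_rev] at h5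
          exact h5
        have h6 : FreeGroup.mk U' = FreeGroup.mk (A ++ [iv l]) := by
          rw [h4, ← lt_iv, lt, FreeGroup.mul_mk]
        have r1 : FreeGroup.IsReduced U' := red_l (hl ▸ rZ)
        have r2 : FreeGroup.IsReduced (A ++ [iv l]) := by
          have : U' = (A ++ [iv l]) ++ B := by rw [hW]; simp
          exact red_l (this ▸ r1)
        have h7 := mk_inj_red r1 r2 h6
        -- then the next letter after `iv l` is `l`
        have h8 : S.Z = A ++ iv l :: l :: V' := by rw [hl, h7]; simp
        have h9 := bd_next S.R S.Z 0 S.bd A (iv l) l V' h8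
        rw [iv_iv] at h9
        omega)
    rw [hq, inv_mul_cancel] at h1
    rw [h1]
    exact (hs_toggle l).1
  have q1 : q * FreeGroup.mk S.Z ∈ HS l := by
    have e : q * FreeGroup.mk S.Z = lt l * FreeGroup.mk V' := by
      rw [mkZ_l S hl hil, hq]; group
    rw [e, ← hs_path l V' (lt l)]
    · exact (hs_toggle l).2
    · intro A a B hW
      constructor
      · rintro ⟨_, h⟩
        subst h
        have := (split_unique hnd (U := U' ++ a :: A) (V := B) (U' := U') (V' := V')
          (by rw [hl, hW]; simp) hl).1
        have := congrArg List.length this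
        simp at this
      · rintro ⟨h1, h2⟩
        subst h2
        have h3 : FreeGroup.mk A = FreeGroup.mk [] := by
          rw [← FreeGroup.one_eq_mk]
          simpa using h1
        have r1 : FreeGroup.IsReduced A := by
          have : S.Z = (U' ++ [l]) ++ (A ++ (iv l :: B)) := by rw [hl, hW]; simp
          exact red_l (red_r (this ▸ rZ))
        have h4 := mk_inj_red r1 FreeGroup.IsReduced.nil h3
        subst h4
        have h8 : S.Z = U' ++ l :: iv l :: B := by rw [hl, hW]; simp
        have h9 := bd_next S.R S.Z 0 S.bd U' l (iv l) B h8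
        omega
  have p0 : p ∈ HS l := by
    have h1 := hs_path l U p (by
      intro A a B hW
      constructor
      · rintro ⟨h1, h⟩
        subst h
        have h3 := (split_unique hnd (U := A) (V := B ++ iv a :: V) (U' := U') (V' := V')
          (by rw [hil, hW]; simp) hl).1
        subst h3
        have h4 : FreeGroup.mk U = FreeGroup.mk (A ++ [a]) := by
          have : p = (FreeGroup.mk A)⁻¹ := eq_inv_of_mul_eq_one_left h1
          have h5 := congrArg (fun x => x⁻¹) this
          simp only [hp, inv_inv, mul_inv_rev] at h5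
          have h6 : FreeGroup.mk U = FreeGroup.mk A * lt a := by rw [← h5]; group
          rw [h6, lt, FreeGroup.mul_mk]
        have r1 : FreeGroup.IsReduced U := red_l (hil ▸ rZ)
        have r2 : FreeGroup.IsReduced (A ++ [a]) := by
          have : U = (A ++ [a]) ++ B := by rw [hW]; simp
          exact red_l (this ▸ r1)
        have h7 := mk_inj_red r1 r2 h4
        have h8 : S.Z = A ++ a :: iv a :: V := by rw [hil, h7]; simp
        have h9 := bd_next S.R S.Z 0 S.bd A a (iv a) V h8
        omega
      · rintro ⟨_, h⟩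
        subst h
        have := (split_unique hnd (U := A) (V := B ++ iv l :: V) (U' := U) (V' := V)
          (by rw [hil, hW]; simp) hil).1
        have := congrArg List.length this
        rw [hW] at this
        simp at this)
    rw [hp, inv_mul_cancel_right] at h1
    rw [h1]
    exact (hs_toggle l).2
  have p1 : p * FreeGroup.mk S.Z ∉ HS l := by
    have e : p * FreeGroup.mk S.Z = FreeGroup.mk V := by
      rw [mkZ_il S hl hil, hp]; group
    rw [e]
    have h1 := hs_path l V 1 (by
      intro A a B hW
      rw [one_mul]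
      constructor
      · rintro ⟨h1, h2⟩
        subst h2
        have r1 : FreeGroup.IsReduced A := by
          have : S.Z = (U ++ [iv a]) ++ (A ++ (a :: B)) := by rw [hil, hW]; simp
          exact red_l (red_r (this ▸ rZ))
        rw [FreeGroup.one_eq_mk] at h1
        have h4 := mk_inj_red r1 FreeGroup.IsReduced.nil h1
        subst h4
        have h8 : S.Z = U ++ iv a :: a :: B := by rw [hil, hW]; simp
        have h9 := bd_next S.R S.Z 0 S.bd U (iv a) a B h8
        rw [iv_iv] at h9
        omega
      · rintro ⟨_, h⟩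
        subst h
        have := (split_unique hnd (U := U ++ iv l :: A) (V := B) (U' := U) (V' := V)
          (by rw [hil, hW]; simp) hil).1
        have := congrArg List.length this
        simp at this)
    rw [one_mul] at h1
    rw [← h1]
    exact (hs_toggle l).1
  have hpq : p ≠ q := fun h => q0 (h ▸ p0)
  have gen : ∀ g, g ≠ p → g ≠ q → (g ∈ HS l ↔ g * FreeGroup.mk S.Z ∈ HS l) := by
    intro g hgp hgq
    apply hs_path
    intro A a B hW
    constructor
    · rintro ⟨h1, h2⟩
      subst h2
      have h3 := (split_unique hnd hW hl).1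
      subst h3
      exact hgq (eq_inv_of_mul_eq_one_left h1)
    · rintro ⟨h1, h2⟩
      subst h2
      have h3 := (split_unique hnd hW hil).1
      subst h3
      apply hgp
      rw [hp, ← h1]; group
  refine ⟨hpq, ?_⟩
  apply ivl_unique S.R S.bd S.all S.ne hpq (AI.hs l)
  · intro g
    constructor
    · rintro ⟨h1, h2⟩
      by_contra hg
      by_cases hgq : g = q
      · subst hgq; exact q0 h1
      · exact h2 ((gen g hg hgq).1 h1)
    · rintro rfl; exact ⟨p0, p1⟩
  · intro g
    constructor
    · rintro ⟨h1, h2⟩
      by_contra hg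
      by_cases hgp : g = p
      · subst hgp; exact h1 p0
      · exact h1 ((gen g hgp hg).2 h2)
    · rintro rfl; exact ⟨q0, q1⟩

/-- the half-space of the edge `{1, l}` in terms of the order: it is the interval
`[l V', V)` -/
theorem hs_key (w : FreeGroup α) : FreeGroup.mk V * w ∈ HS l ↔
    key S.R ((FreeGroup.mk V)⁻¹ * lt l * FreeGroup.mk V') ≤ key S.R w := by
  set t := (FreeGroup.mk V)⁻¹ * lt l * FreeGroup.mk V' with ht
  have hno := no_between S.R S.bd
  obtain ⟨hpq, h0⟩ := hs_ivl S hl hil
  rw [h0, ivl_next S.R S.ne hno hpq]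
  have hpz : lt l * (FreeGroup.mk U)⁻¹ * FreeGroup.mk S.Z = FreeGroup.mk V := by
    rw [mkZ_il S hl hil]; group
  have hqz : (FreeGroup.mk U')⁻¹ * FreeGroup.mk S.Z = lt l * FreeGroup.mk V' := by
    rw [mkZ_l S hl hil]; group
  rw [hpz, hqz]
  have ht1 : t ≠ 1 := by
    intro h
    apply hpq
    have : lt l * FreeGroup.mk V' = FreeGroup.mk V := by
      have h2 : FreeGroup.mk V * t = lt l * FreeGroup.mk V' := by rw [ht]; group
      rw [← h2, h, mul_one]
    rw [← hpz, ← hqz] at this
    exact (mul_right_cancel this).symm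
  have e1 : FreeGroup.mk V * w = lt l * FreeGroup.mk V' ↔ w = t := by
    rw [ht, mul_assoc, eq_inv_mul_iff_mul_eq]
  have e2 : cy S.R (lt l * FreeGroup.mk V') (FreeGroup.mk V * w) (FreeGroup.mk V) ↔
      cy S.R t w 1 := by
    rw [← cy_mul S.R (FreeGroup.mk V) t w 1, mul_one]
    have : FreeGroup.mk V * t = lt l * FreeGroup.mk V' := by rw [ht]; group
    rw [this]
  rw [e1, e2]
  by_cases hw : w = 1
  · subst hw
    constructor
    · rintro (h | h)
      · exact (ht1 h.symm).elim
      · exact (h.ne23 rfl).elim
    · intro h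
      exact absurd (key_one_lt S.R ht1) (not_lt.2 h)
  · have e3 : cy S.R t w 1 ↔ key S.R t < key S.R w := by
      rw [← cy_one S.R ht1 hw]
      exact ⟨fun h => h.rot.rot, fun h => h.rot⟩
    rw [e3, le_iff_lt_or_eq]
    constructor
    · rintro (h | h)
      · exact Or.inr (by rw [h])
      · exact Or.inl h
    · rintro (h | h)
      · exact Or.inr h
      · exact Or.inl (key_inj S.R h).symm

theorem dual_ne_one : (FreeGroup.mk V)⁻¹ * lt l * FreeGroup.mk V' ≠ 1 := by
  intro h
  have h1 := hs_key S hl hil 1
  rw [h, mul_one] at h1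
  have h2 := h1.2 le_rfl
  obtain ⟨hpq, h0⟩ := hs_ivl S hl hil
  have hno := no_between S.R S.bd
  have hpz : lt l * (FreeGroup.mk U)⁻¹ * FreeGroup.mk S.Z = FreeGroup.mk V := by
    rw [mkZ_il S hl hil]; group
  have h3 := (ivl_down S.R S.ne hno (g := lt l * (FreeGroup.mk U)⁻¹) hpq).2 rfl
  rw [hpz, ← h0] at h3
  exact h3.2 h2

end dual

end Pool.Agent.TOR.H59
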