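import Pool.Agent.Helper59_TOR.Rig

/-! TOR, algebraic model, part 3: intervals are almost invariant; automorphisms which fix the
boundary word preserve the cyclic order. -/

set_option autoImplicit false

namespace Pool.Agent.TOR.H59

open FreeGroup

variable {α : Type}

theorem kf_lt_append (R : Rib α) (u : List (α × Bool)) : ∀ (W P : List (α × Bool)) (b : ℕ),
    b ≤ R.N → ¬ W <+: P → (kf R b (W ++ u) < kf R b P ↔ kf R b W < kf R b P) ∧
      (kf R b P < kf R b (W ++ u) ↔ kf R b P < kf R b W)
  | [], P, _, _, h => (h List.nil_prefix).elim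
  | a :: W, [], b, hb, _ => by
      have hne : rel R.N b (R.r a) ≠ rel R.N b 0 := by
        intro h
        have := rel_inj hb (R.le a) (Nat.zero_le _) h
        have := R.pos a
        omega
      simp only [List.cons_append, kf, List.cons_lt_cons_iff, hne, hne.symm, false_and, or_false,
        and_self]
  | a :: W, c :: P, b, hb, h => by
      by_cases e : a = c
      · subst e
        have h' : ¬ W <+: P := fun h' => h (List.cons_prefix_cons.2 ⟨rfl, h'⟩)
        have := kf_lt_append R u W P _ (R.le (iv a)) h'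
        simp only [List.cons_append, kf, List.cons_lt_cons_iff, lt_irrefl, true_and, false_or]
        exact this
      · have hne : rel R.N b (R.r a) ≠ rel R.N b (R.r c) := fun h =>
          e (R.inj (rel_inj hb (R.le a) (R.le c) h))
        simp only [List.cons_append, kf, List.cons_lt_cons_iff, hne, hne.symm, false_and,
          or_false, and_self]

variable [DecidableEq α]

theorem lt_iv_mul (g : FreeGroup α) (l : α × Bool) : g * lt l * lt (iv l) = g := by
  rw [lt_iv, mul_inv_cancel_right]

/-- the word of `g * lt l` -/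
theorem word_mul_lt (g : FreeGroup α) (l : α × Bool) :
    (g * lt l).toWord = g.toWord ++ [l] ∨ g.toWord = (g * lt l).toWord ++ [iv l] := by
  by_cases ho : Out g.toWord l
  · left
    have h := red_append (u := []) FreeGroup.isReduced_toWord FreeGroup.IsReduced.singleton ho
    have e : g * lt l = FreeGroup.mk (g.toWord ++ [l]) := by
      conv_lhs => rw [← FreeGroup.mk_toWord (x := g)]
      rw [lt, FreeGroup.mul_mk]
    rw [e, FreeGroup.toWord_mk, h.reduce_eq]
  · right
    unfold Out at ho
    push Not at ho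
    have h1 : g.toWord = g.toWord.dropLast ++ [iv l] := by
      have h2 : g.toWord ≠ [] := by intro h; simp [h] at ho
      conv_lhs => rw [← List.dropLast_append_getLast h2]
      rw [List.getLast?_eq_some_getLast h2, Option.some.injEq] at ho
      rw [ho]
    have h3 : FreeGroup.IsReduced g.toWord.dropLast :=
      red_l (L2 := [iv l]) (h1 ▸ FreeGroup.isReduced_toWord)
    have e : g * lt l = FreeGroup.mk g.toWord.dropLast := by
      conv_lhs => rw [← FreeGroup.mk_toWord (x := g), h1]
      rw [← FreeGroup.mul_mk, lt, mul_assoc]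
      have : FreeGroup.mk [iv l] * FreeGroup.mk [l] = 1 := by
        have := lt_iv l
        unfold lt at this
        rw [this, inv_mul_cancel]
      rw [this, mul_one]
    rw [e, FreeGroup.toWord_mk, h3.reduce_eq]
    exact h1

theorem AI.of_letters {X : Set (FreeGroup α)}
    (h : ∀ l : α × Bool, {g | ¬ (g ∈ X ↔ g * lt l ∈ X)}.Finite) : AI X := by
  have key1 : ∀ w : List (α × Bool), {g | ¬ (g ∈ X ↔ g * FreeGroup.mk w ∈ X)}.Finite := by
    intro w
    induction w with
    | nil => simp [← FreeGroup.one_eq_mk]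
    | cons l w ih =>
      have h2 : {g | ¬ (g * lt l ∈ X ↔ g * lt l * FreeGroup.mk w ∈ X)}.Finite := by
        have := ih.preimage (f := fun g => g * lt l) (mul_left_injective (lt l)).injOn
        exact this
      refine Set.Finite.subset ((h l).union h2) ?_
      intro g hg
      simp only [Set.mem_ofPred_eq, Set.mem_union] at *
      have e : FreeGroup.mk (l :: w) = lt l * FreeGroup.mk w := by
        rw [lt, FreeGroup.mul_mk]; rfl
      rw [e, ← mul_assoc] at hg
      tauto
  intro s
  have := key1 s.toWord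
  rwa [FreeGroup.mk_toWord] at this

theorem AI.smul {X : Set (FreeGroup α)} (h : AI X) (q : FreeGroup α) :
    AI {g | q * g ∈ X} := by
  intro s
  have := (h s).preimage (f := fun g => q * g) (mul_right_injective q).injOn
  refine this.subset ?_
  intro g hg
  simp only [Set.mem_ofPred_eq, Set.mem_preimage] at *
  rwa [← mul_assoc] at hg

/-- the cyclic interval `(q, p]` -/
def Ivl (R : Rib α) (q p : FreeGroup α) : Set (FreeGroup α) := {g | cy R q g p ∨ g = p}

theorem cy_one (R : Rib α) {g p : FreeGroup α} (hg : g ≠ 1) (hp : p ≠ 1) :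
    cy R 1 g p ↔ key R g < key R p := by
  unfold cy
  rw [cyc_rot]
  exact cyc_min (key_one_lt R hg) (key_one_lt R hp)

theorem AI.ivl_one (R : Rib α) (p : FreeGroup α) : AI (Ivl R 1 p) := by
  apply AI.of_letters
  intro l
  have hpre : {g : FreeGroup α | g.toWord <+: p.toWord}.Finite := by
    have : {w | w <+: p.toWord}.Finite := by
      refine (List.finite_toSet p.toWord.inits).subset ?_
      intro w hw
      exact (List.mem_inits _ _).2 hw
    exact (this.preimage (f := FreeGroup.toWord) FreeGroup.toWord_injective.injOn)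
  have hpre2 : {g : FreeGroup α | (g * lt l).toWord <+: p.toWord}.Finite :=
    hpre.preimage (f := fun g => g * lt l) (mul_left_injective (lt l)).injOn
  refine (hpre.union hpre2).subset ?_
  intro g hg
  by_contra hcon
  simp only [Set.mem_union, Set.mem_ofPred_eq, not_or] at hcon hg
  obtain ⟨h1, h2⟩ := hcon
  apply hg
  have hg1 : g ≠ 1 := by rintro rfl; rw [FreeGroup.toWord_one] at h1; exact h1 List.nil_prefix
  have hg2 : g * lt l ≠ 1 := by
    intro h; rw [h, FreeGroup.toWord_one] at h2; exact h2 List.nil_prefix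
  have hg3 : g ≠ p := by rintro rfl; exact h1 (List.prefix_refl _)
  have hg4 : g * lt l ≠ p := by rintro rfl; exact h2 (List.prefix_refl _)
  unfold Ivl
  simp only [Set.mem_ofPred_eq, hg3, hg4, or_false]
  by_cases hp : p = 1
  · subst hp
    exact ⟨fun h => (h.ne31 rfl).elim, fun h => (h.ne31 rfl).elim⟩
  rw [cy_one R hg1 hp, cy_one R hg2 hp]
  unfold key
  rcases word_mul_lt g l with e | e
  · rw [e]
    exact (kf_lt_append R [l] _ _ 0 (Nat.zero_le _) h1).1.symm
  · rw [e]
    exact (kf_lt_append R [iv l] _ _ 0 (Nat.zero_le _) h2).1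

theorem AI.ivl (R : Rib α) (q p : FreeGroup α) : AI (Ivl R q p) := by
  have h := (AI.ivl_one R (q⁻¹ * p)).smul q⁻¹
  have e : {g | q⁻¹ * g ∈ Ivl R 1 (q⁻¹ * p)} = Ivl R q p := by
    ext g
    unfold Ivl
    simp only [Set.mem_ofPred_eq, mul_right_inj]
    have := cy_mul R q⁻¹ q g p
    rw [inv_mul_cancel] at this
    rw [this]
  rwa [e] at h

section succ
variable (R : Rib α) {a : FreeGroup α} (ha : a ≠ 1)
  (hno : ∀ g h : FreeGroup α, ¬ cy R g h (g * a))
include ha hno

theorem mul_ne_self (g : FreeGroup α) : g * a ≠ g := by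
  intro h; exact ha (by simpa using h)

theorem cy_total {p q r : FreeGroup α} (h1 : p ≠ q) (h2 : q ≠ r) (h3 : r ≠ p) :
    cy R p q r ∨ cy R p r q := by
  unfold cy
  exact cyc_total (fun h => h1 (key_inj R h)) (fun h => h2 (key_inj R h))
    (fun h => h3 (key_inj R h))

theorem cy_succ {g p : FreeGroup α} (h1 : p ≠ g) (h2 : p ≠ g * a) : cy R g (g * a) p := by
  rcases cy_total R ha hno (p := g) (q := g * a) (r := p) (mul_ne_self R ha hno g).symm h2.symm h1
    with h | h
  · exact h
  · exact (hno _ _ h).elim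

theorem ivl_down {p q g : FreeGroup α} (hpq : p ≠ q) :
    (g ∈ Ivl R q p ∧ g * a ∉ Ivl R q p) ↔ g = p := by
  unfold Ivl
  simp only [Set.mem_ofPred_eq, not_or]
  constructor
  · rintro ⟨h1 | h1, h2, h3⟩
    · exfalso
      have hgp : g ≠ p := h1.ne23 ∘ fun h => h ▸ rfl
      have s := cy_succ R ha hno (g := g) (p := p) hgp.symm (Ne.symm h3)
      have h4 : cy R g p q := h1.rot
      exact h2 (Cyc.trans' s h4).rot.rot
    · exact h1
  · rintro rfl
    refine ⟨Or.inr rfl, ?_, mul_ne_self R ha hno g⟩
    intro h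
    exact hno _ _ h.rot.rot

theorem ivl_up {p q g : FreeGroup α} (hpq : p ≠ q) :
    (g ∉ Ivl R q p ∧ g * a ∈ Ivl R q p) ↔ g = q := by
  unfold Ivl
  simp only [Set.mem_ofPred_eq, not_or]
  constructor
  · rintro ⟨⟨h1, h2⟩, h3⟩
    by_contra hgq
    rcases cy_total R ha hno (p := q) (q := g) (r := p) (Ne.symm hgq) h2 hpq with h | h
    · exact h1 h
    · rcases h3 with h3 | h3
      · have h4 : cy R q (g * a) g := Cyc.trans h3 h
        exact hno _ _ h4.rot.rot
      · rw [← h3] at h
        exact hno _ _ h.rot.rot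
  · rintro rfl
    refine ⟨⟨fun h => h.ne12 rfl, hpq.symm⟩, ?_⟩
    by_cases e : g * a = p
    · exact Or.inr e
    · exact Or.inl (cy_succ R ha hno hpq (Ne.symm e))

end succ

/-- uniqueness of the interval -/
theorem ivl_unique [Finite α] (R : Rib α) {Z : List (α × Bool)} (hZ : Bd R 0 Z)
    (hall : ∀ l, l ∈ Z) (ha : FreeGroup.mk Z ≠ 1) {p q : FreeGroup α} (hpq : p ≠ q)
    {X : Set (FreeGroup α)} (hX : AI X)
    (h1 : ∀ g, (g ∈ X ∧ g * FreeGroup.mk Z ∉ X) ↔ g = p)
    (h2 : ∀ g, (g ∉ X ∧ g * FreeGroup.mk Z ∈ X) ↔ g = q) : X = Ivl R q p := by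
  have hno := no_between R hZ
  let Y : Set (FreeGroup α) := {g | g ∈ X ↔ g ∈ Ivl R q p}
  have hY : AI Y := by
    intro s
    refine ((hX s).union (AI.ivl R q p s)).subset ?_
    intro g hg
    simp only [Set.mem_union, Set.mem_ofPred_eq, Y] at *
    tauto
  have hYa : ∀ g, g ∈ Y ↔ g * FreeGroup.mk Z ∈ Y := by
    intro g
    have e1 := h1 g
    have e2 := h2 g
    have e3 := ivl_down R ha hno (g := g) hpq
    have e4 := ivl_up R ha hno (g := g) hpq
    simp only [Set.mem_ofPred_eq, Y]
    by_cases m1 : g ∈ X <;> by_cases m2 : g * FreeGroup.mk Z ∈ X <;>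
      by_cases m3 : g ∈ Ivl R q p <;> by_cases m4 : g * FreeGroup.mk Z ∈ Ivl R q p <;>
      simp only [m1, m2, m3, m4, not_true_eq_false, not_false_eq_true, and_self, and_true,
        true_and, and_false, false_and, true_iff, false_iff, iff_true, iff_false, iff_self] at * <;>
      first
        | exact (hpq (e1.symm.trans e4)).elim
        | exact (hpq (e3.symm.trans e2)).elim
        | exact (e3 e1).elim
        | exact (e1 e3).elim
        | exact (e4 e2).elim
        | exact (e2 e4).elim
  have hp : p ∈ Y := by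
    have e1 := (h1 p).2 rfl
    have e3 := (ivl_down R ha hno (g := p) hpq).2 rfl
    simp only [Set.mem_ofPred_eq, Y]
    tauto
  ext g
  exact (rigid R hZ hall hY hYa g p).2 hp

/-- automorphisms fixing the boundary word preserve the cyclic order -/
theorem cy_aut [Finite α] (R : Rib α) {Z : List (α × Bool)} (hZ : Bd R 0 Z)
    (hall : ∀ l, l ∈ Z) (ha : FreeGroup.mk Z ≠ 1) (φ : MulAut (FreeGroup α))
    (hφ : φ (FreeGroup.mk Z) = FreeGroup.mk Z) (p q r : FreeGroup α) :
    cy R (φ p) (φ q) (φ r) ↔ cy R p q r := by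
  have hno := no_between R hZ
  have hinv : φ⁻¹ (FreeGroup.mk Z) = FreeGroup.mk Z := by
    conv_lhs => rw [← hφ]
    exact MulAut.inv_apply_self _ φ _
  by_cases hpr : r = p
  · subst hpr
    exact ⟨fun h => (h.ne31 rfl).elim, fun h => (h.ne31 rfl).elim⟩
  let X : Set (FreeGroup α) := {g | φ⁻¹ g ∈ Ivl R p r}
  have hX : AI X := by
    intro s
    have := (AI.ivl R p r (φ⁻¹ s)).preimage (f := fun g => φ⁻¹ g)
      (MulEquiv.injective (φ⁻¹ : MulAut (FreeGroup α))).injOn
    refine this.subset ?_
    intro g hg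
    simp only [Set.mem_ofPred_eq, Set.mem_preimage, X] at *
    rw [_root_.map_mul] at hg
    exact hg
  have hne : φ r ≠ φ p := fun h => hpr (MulEquiv.injective φ h)
  have e := ivl_unique R hZ hall ha hne hX (fun g => by
      have := ivl_down R ha hno (g := φ⁻¹ g) hpr
      simp only [Set.mem_ofPred_eq, X]
      rw [_root_.map_mul, hinv, this]
      constructor
      · intro h; rw [← h]; exact (MulAut.apply_inv_self _ φ g).symm
      · rintro rfl; exact MulAut.inv_apply_self _ φ r)
    (fun g => by
      have := ivl_up R ha hno (g := φ⁻¹ g) hpr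
      simp only [Set.mem_ofPred_eq, X]
      rw [_root_.map_mul, hinv, this]
      constructor
      · intro h; rw [← h]; exact (MulAut.apply_inv_self _ φ g).symm
      · rintro rfl; exact MulAut.inv_apply_self _ φ p)
  have h1 : φ q ∈ X ↔ φ q ∈ Ivl R (φ p) (φ r) := by rw [e]
  have h2 : φ q ∈ X ↔ q ∈ Ivl R p r := by
    have e2 : φ⁻¹ (φ q) = q := MulAut.inv_apply_self _ φ q
    simp only [Set.mem_ofPred_eq, X, e2]
  rw [h2] at h1
  unfold Ivl at h1
  simp only [Set.mem_ofPred_eq] at h1
  by_cases hqr : q = r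
  · subst hqr
    exact ⟨fun h => (h.ne23 rfl).elim, fun h => (h.ne23 rfl).elim⟩
  · have hqr' : φ q ≠ φ r := fun h => hqr (MulEquiv.injective φ h)
    simp only [hqr, hqr', or_false] at h1
    exact h1.symm

end Pool.Agent.TOR.H59
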