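import Pool.Agent.Helper59_TOR.Inv

/-! TOR, algebraic model, part 4 (DEFINITIONS): the cyclically ordered set `Om` of the lifts of
the gaps, crossing of chords, arcs, compatibility, handles; finiteness of crossings. -/

set_option autoImplicit false

namespace Pool.Agent.TOR.H59

open FreeGroup

/-! ### crossing of chords in a linear order -/

/-- the chords `{a,b}` and `{c,d}` cross (four different points, interleaved) -/
def Lk {β : Type*} [LT β] (a b c d : β) : Prop :=
  (Cyc a c b ∧ Cyc b d a) ∨ (Cyc a d b ∧ Cyc b c a)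

section Lk
variable {β : Type*} [LinearOrder β] {a b c d : β}

theorem lk_comm : Lk a b c d ↔ Lk c d a b := by
  unfold Lk Cyc; grind

theorem lk_swap : Lk a b c d ↔ Lk b a c d := by
  unfold Lk; tauto

theorem lk_swap' : Lk a b c d ↔ Lk a b d c := by
  unfold Lk; tauto

theorem not_lk_self (a b d : β) : ¬ Lk a b a d := by
  unfold Lk Cyc; grind

theorem not_lk_self' (a b : β) : ¬ Lk a b a b := not_lk_self a b b

/-- crossing means that exactly one of `c,d` lies in the open interval `(a,b)` -/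
theorem lk_iff (h1 : c ≠ a) (h2 : c ≠ b) (h3 : d ≠ a) (h4 : d ≠ b) (h5 : a ≠ b) :
    Lk a b c d ↔ ¬ (Cyc a c b ↔ Cyc a d b) := by
  have := h5
  unfold Lk Cyc; grind

end Lk

/-! ### the lifts of the gaps -/

variable {α : Type}

/-- the lifts of the gaps: `(g, i)` is the lift at `g` of the gap with number `i` -/
abbrev Om (α : Type) := FreeGroup α × ℕ

/-- left translation -/
def mv (g : FreeGroup α) (p : Om α) : Om α := (g * p.1, p.2)

/-- action of the automorphisms -/
def ap (φ : MulAut (FreeGroup α)) (p : Om α) : Om α := (φ p.1, p.2)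

@[simp] theorem mv_fst (g : FreeGroup α) (p : Om α) : (mv g p).1 = g * p.1 := rfl
@[simp] theorem mv_snd (g : FreeGroup α) (p : Om α) : (mv g p).2 = p.2 := rfl
@[simp] theorem ap_fst (φ : MulAut (FreeGroup α)) (p : Om α) : (ap φ p).1 = φ p.1 := rfl
@[simp] theorem ap_snd (φ : MulAut (FreeGroup α)) (p : Om α) : (ap φ p).2 = p.2 := rfl
@[simp] theorem mv_mk (g h : FreeGroup α) (i : ℕ) : mv g (h, i) = (g * h, i) := rfl
@[simp] theorem ap_mk (φ : MulAut (FreeGroup α)) (h : FreeGroup α) (i : ℕ) :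
    ap φ (h, i) = (φ h, i) := rfl
@[simp] theorem one_mv (p : Om α) : mv 1 p = p := by ext <;> simp
theorem mul_mv (g h : FreeGroup α) (p : Om α) : mv (g * h) p = mv g (mv h p) := by
  simp [mv, mul_assoc]
theorem mv_inj {g : FreeGroup α} {p q : Om α} : mv g p = mv g q ↔ p = q := by
  constructor
  · intro h
    have h1 := congrArg Prod.fst h
    have h2 := congrArg Prod.snd h
    simp only [mv_fst, mv_snd, mul_right_inj] at h1 h2
    exact Prod.ext h1 h2
  · rintro rfl; rfl
theorem mv_ne_self {g : FreeGroup α} (hg : g ≠ 1) (p : Om α) : mv g p ≠ p := by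
  intro h
  have h1 := congrArg Prod.fst h
  simp only [mv_fst] at h1
  exact hg (by simpa using h1)
theorem ap_mv (φ : MulAut (FreeGroup α)) (g : FreeGroup α) (p : Om α) :
    ap φ (mv g p) = mv (φ g) (ap φ p) := by
  ext <;> simp

variable [DecidableEq α]

/-- the linear order on the lifts of the gaps (start at the lift of `1`); at one vertex the
gaps with a LARGER number come FIRST -/
def okey (R : Rib α) (p : Om α) : List ℕ ×ₗ ℕᵒᵈ := toLex (key R p.1, OrderDual.toDual p.2)

theorem okey_inj (R : Rib α) {p q : Om α} (h : okey R p = okey R q) : p = q := by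
  have h1 := congrArg (fun x => (ofLex x).1) h
  have h2 := congrArg (fun x => (ofLex x).2) h
  simp only [okey, ofLex_toLex] at h1 h2
  exact Prod.ext (key_inj R h1) (OrderDual.toDual_inj.1 h2)

theorem okey_inj_iff (R : Rib α) {p q : Om α} : okey R p = okey R q ↔ p = q :=
  ⟨okey_inj R, fun h => h ▸ rfl⟩

/-- the cyclic order on the lifts of the gaps -/
def co (R : Rib α) (p q r : Om α) : Prop := Cyc (okey R p) (okey R q) (okey R r)

theorem okey_lt (R : Rib α) {p q : Om α} :
    okey R p < okey R q ↔ key R p.1 < key R q.1 ∨ (p.1 = q.1 ∧ q.2 < p.2) := by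
  unfold okey
  rw [Prod.Lex.toLex_lt_toLex]
  simp only [OrderDual.toDual_lt_toDual]
  constructor
  · rintro (h | ⟨h1, h2⟩)
    · exact Or.inl h
    · exact Or.inr ⟨key_inj R h1, h2⟩
  · rintro (h | ⟨h1, h2⟩)
    · exact Or.inl h
    · exact Or.inr ⟨by rw [h1], h2⟩

/-- the cyclic order of `Om` in terms of the cyclic order of the group -/
theorem co_iff (R : Rib α) {p q r : Om α} : co R p q r ↔
    cy R p.1 q.1 r.1 ∨ (p.1 = q.1 ∧ q.1 ≠ r.1 ∧ q.2 < p.2) ∨ (q.1 = r.1 ∧ r.1 ≠ p.1 ∧ r.2 < q.2) ∨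
      (r.1 = p.1 ∧ p.1 ≠ q.1 ∧ p.2 < r.2) ∨
      (p.1 = q.1 ∧ q.1 = r.1 ∧ ((q.2 < p.2 ∧ r.2 < q.2) ∨ (r.2 < q.2 ∧ p.2 < r.2) ∨
        (p.2 < r.2 ∧ q.2 < p.2))) := by
  unfold co cy Cyc
  simp only [okey_lt]
  by_cases e1 : p.1 = q.1
  · by_cases e2 : q.1 = r.1
    · simp only [e1, e2, lt_irrefl, false_or, true_and, ne_eq, not_true_eq_false, false_and,
        and_self, and_false, or_false]
    · simp only [e1, e2, lt_irrefl, false_or, true_and, ne_eq, not_false_eq_true, false_and,
        and_false, or_false, and_true]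
      have e3 : ¬ r.1 = q.1 := fun h => e2 h.symm
      have h1 : key R q.1 ≠ key R r.1 := fun h => e2 (key_inj R h)
      simp only [e3, false_and, or_false]
      grind
  · by_cases e2 : q.1 = r.1
    · have e3 : ¬ r.1 = p.1 := fun h => e1 (h ▸ e2.symm)
      have e4 : ¬ p.1 = r.1 := fun h => e3 h.symm
      have h1 : key R p.1 ≠ key R r.1 := fun h => e3 (key_inj R h.symm)
      simp only [e2, e3, e4, lt_irrefl, false_or, true_and, ne_eq, not_true_eq_false,
        not_false_eq_true, false_and, and_false, or_false]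
      grind
    · by_cases e3 : r.1 = p.1
      · have h1 : key R p.1 ≠ key R q.1 := fun h => e1 (key_inj R h)
        have e4 : ¬ q.1 = p.1 := fun h => e1 h.symm
        simp only [e1, e3, e4, lt_irrefl, false_or, true_and, ne_eq, not_false_eq_true,
          false_and, and_false, or_false, and_true]
        grind
      · simp only [e1, e2, e3, false_and, or_false]

theorem co_mv (R : Rib α) (g : FreeGroup α) (p q r : Om α) :
    co R (mv g p) (mv g q) (mv g r) ↔ co R p q r := by
  rw [co_iff, co_iff]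
  simp only [mv_fst, mv_snd, cy_mul, mul_right_inj, ne_eq]

/-- crossing of chords -/
def Lo (R : Rib α) (a b c d : Om α) : Prop := Lk (okey R a) (okey R b) (okey R c) (okey R d)

theorem lo_def (R : Rib α) (a b c d : Om α) :
    Lo R a b c d ↔ (co R a c b ∧ co R b d a) ∨ (co R a d b ∧ co R b c a) := Iff.rfl

theorem lo_comm (R : Rib α) {a b c d : Om α} : Lo R a b c d ↔ Lo R c d a b := lk_comm
theorem lo_swap (R : Rib α) {a b c d : Om α} : Lo R a b c d ↔ Lo R b a c d := lk_swap
theorem lo_swap' (R : Rib α) {a b c d : Om α} : Lo R a b c d ↔ Lo R a b d c := lk_swap'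

theorem lo_mv (R : Rib α) (g : FreeGroup α) (a b c d : Om α) :
    Lo R (mv g a) (mv g b) (mv g c) (mv g d) ↔ Lo R a b c d := by
  simp only [lo_def, co_mv]

section aut
variable [Finite α] (R : Rib α) {Z : List (α × Bool)} (hZ : Bd R 0 Z)
    (hall : ∀ l, l ∈ Z) (ha : FreeGroup.mk Z ≠ 1) (φ : MulAut (FreeGroup α))
    (hφ : φ (FreeGroup.mk Z) = FreeGroup.mk Z)
include hZ hall ha hφ

theorem co_ap (p q r : Om α) : co R (ap φ p) (ap φ q) (ap φ r) ↔ co R p q r := by
  rw [co_iff, co_iff]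
  simp only [ap_fst, ap_snd, cy_aut R hZ hall ha φ hφ, EmbeddingLike.apply_eq_iff_eq, ne_eq]

theorem lo_ap (a b c d : Om α) : Lo R (ap φ a) (ap φ b) (ap φ c) (ap φ d) ↔ Lo R a b c d := by
  simp only [lo_def, co_ap R hZ hall ha φ hφ]

end aut

/-! ### finiteness of crossings -/

omit [DecidableEq α] in
theorem AI.congr {X Y : Set (FreeGroup α)} (h : AI X) {D : Set (FreeGroup α)} (hD : D.Finite)
    (hXY : ∀ g, g ∉ D → (g ∈ X ↔ g ∈ Y)) : AI Y := by
  intro s
  have h1 : {g | g * s ∈ D}.Finite := hD.preimage (f := fun g => g * s) (mul_left_injective s).injOn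
  refine (((h s).union hD).union h1).subset ?_
  intro g hg
  by_contra hcon
  simp only [Set.mem_union, Set.mem_ofPred_eq, not_or] at hcon hg
  have e1 := hXY g hcon.1.2
  have e2 := hXY (g * s) hcon.2
  tauto

/-- the open interval `(a,b)`, gap number `i` -/
theorem AI.co (R : Rib α) (a b : Om α) (i : ℕ) : AI {g | H59.co R a (g, i) b} := by
  have hD : ({a.1, b.1} : Set (FreeGroup α)).Finite := Set.toFinite _
  by_cases h : b.1 = a.1 ∧ a.2 < b.2
  · have h0 : AI (Set.univ : Set (FreeGroup α)) := by intro s; simp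
    refine h0.congr hD ?_
    intro g hg
    simp only [Set.mem_insert_iff, Set.mem_singleton_iff, not_or] at hg
    simp only [Set.mem_univ, Set.mem_ofPred_eq, true_iff]
    rw [co_iff]
    exact Or.inr (Or.inr (Or.inr (Or.inl ⟨h.1, fun h' => hg.1 h'.symm, h.2⟩)))
  · refine (AI.ivl R a.1 b.1).congr hD ?_
    intro g hg
    simp only [Set.mem_insert_iff, Set.mem_singleton_iff, not_or] at hg
    unfold Ivl
    simp only [Set.mem_ofPred_eq, hg.2, or_false]
    rw [co_iff]
    have e1 : ¬ a.1 = g := fun h' => hg.1 h'.symm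
    have e2 : ¬ g = b.1 := hg.2
    simp only [e1, e2, false_and, false_or, or_false, ne_eq, not_false_eq_true, true_and, h]

theorem lo_finite (R : Rib α) (a b c d : Om α) (hcd : c.2 = d.2) :
    {g | Lo R a b (mv g c) (mv g d)}.Finite := by
  have h1 := (AI.co R a b c.2 (c.1⁻¹ * d.1)).preimage (f := fun g => g * c.1)
    (mul_left_injective c.1).injOn
  refine h1.subset ?_
  intro g hg
  simp only [Set.mem_ofPred_eq, Set.mem_preimage] at *
  have e1 : mv g c = (g * c.1, c.2) := rfl
  have e2 : mv g d = (g * c.1 * (c.1⁻¹ * d.1), c.2) := by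
    rw [hcd, mul_assoc, mul_inv_cancel_left]; rfl
  rw [e1, e2, lo_def] at hg
  intro h2
  rcases hg with ⟨h3, h4⟩ | ⟨h3, h4⟩
  · exact Cyc.asymm (h2.1 h3) h4.rot.rot
  · exact Cyc.asymm (h2.2 h3) h4.rot.rot

/-! ### arcs -/

/-- the arc `k` at the gap `i` and the arc `m` at the gap `j` are compatible -/
def Cmp (R : Rib α) (i : ℕ) (k : FreeGroup α) (j : ℕ) (m : FreeGroup α) : Prop :=
  ∀ g : FreeGroup α, ¬ Lo R (1, i) (k, i) (g, j) (g * m, j)

theorem Cmp.all {R : Rib α} {i : ℕ} {k : FreeGroup α} {j : ℕ} {m : FreeGroup α}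
    (h : Cmp R i k j m) (g u : FreeGroup α) : ¬ Lo R (g, i) (g * k, i) (u, j) (u * m, j) := by
  intro h1
  apply h (g⁻¹ * u)
  have := (lo_mv R g⁻¹ (g, i) (g * k, i) (u, j) (u * m, j)).2 h1
  simpa [mul_assoc] using this

theorem Cmp.symm {R : Rib α} {i : ℕ} {k : FreeGroup α} {j : ℕ} {m : FreeGroup α}
    (h : Cmp R i k j m) : Cmp R j m i k := by
  intro g h1
  have := h.all g 1
  rw [lo_comm, one_mul] at this
  exact this h1

theorem Cmp.inv_left {R : Rib α} {i : ℕ} {k : FreeGroup α} {j : ℕ} {m : FreeGroup α}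
    (h : Cmp R i k j m) : Cmp R i k⁻¹ j m := by
  intro g h1
  have := h.all k⁻¹ g
  rw [inv_mul_cancel, lo_swap] at this
  exact this h1

theorem Cmp.inv_right {R : Rib α} {i : ℕ} {k : FreeGroup α} {j : ℕ} {m : FreeGroup α}
    (h : Cmp R i k j m) : Cmp R i k j m⁻¹ := h.symm.inv_left.symm

theorem cmp_inv_left {R : Rib α} {i : ℕ} {k : FreeGroup α} {j : ℕ} {m : FreeGroup α} :
    Cmp R i k⁻¹ j m ↔ Cmp R i k j m :=
  ⟨fun h => by have := h.inv_left; rwa [inv_inv] at this, Cmp.inv_left⟩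

theorem cmp_comm {R : Rib α} {i : ℕ} {k : FreeGroup α} {j : ℕ} {m : FreeGroup α} :
    Cmp R i k j m ↔ Cmp R j m i k := ⟨Cmp.symm, Cmp.symm⟩

theorem cmp_inv_right {R : Rib α} {i : ℕ} {k : FreeGroup α} {j : ℕ} {m : FreeGroup α} :
    Cmp R i k j m⁻¹ ↔ Cmp R i k j m := by
  rw [cmp_comm, cmp_inv_left, cmp_comm]

theorem co_same (R : Rib α) (i : ℕ) (p q r : FreeGroup α) :
    co R (p, i) (q, i) (r, i) ↔ cy R p q r := by
  rw [co_iff]
  simp

/-- compatibility at one gap does not depend on the gap -/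
theorem cmp_same {R : Rib α} {i j : ℕ} {k m : FreeGroup α} (h : Cmp R i k i m) : Cmp R j k j m := by
  intro g
  have := h g
  simpa only [lo_def, co_same] using this

/-- `k` is (the positive representative of) an arc -/
def Arc (R : Rib α) (k : FreeGroup α) : Prop :=
  k ≠ 1 ∧ key R k < key R k⁻¹ ∧ Cmp R 0 k 0 k

/-- the pair `k, l` is a handle: two compatible arcs at one gap whose germs are interleaved, in the
order `k, l⁻¹, k⁻¹, l` (as for `x, y` in the standard position) -/
def Hnd (R : Rib α) (k l : FreeGroup α) : Prop :=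
  Arc R k ∧ Arc R l⁻¹ ∧ Cmp R 0 k 0 l ∧ key R k < key R l⁻¹ ∧ key R l⁻¹ < key R k⁻¹ ∧
    key R k⁻¹ < key R l

section aut2
variable [Finite α] (R : Rib α) {Z : List (α × Bool)} (hZ : Bd R 0 Z)
    (hall : ∀ l, l ∈ Z) (ha : FreeGroup.mk Z ≠ 1) (φ : MulAut (FreeGroup α))
    (hφ : φ (FreeGroup.mk Z) = FreeGroup.mk Z)
include hZ hall ha hφ

theorem cmp_ap {i : ℕ} {k : FreeGroup α} {j : ℕ} {m : FreeGroup α} :
    Cmp R i (φ k) j (φ m) ↔ Cmp R i k j m := by
  constructor
  · intro h g h1
    rw [← lo_ap R hZ hall ha φ hφ] at h1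
    apply h (φ g)
    simpa only [ap_mk, _root_.map_one, _root_.map_mul] using h1
  · intro h g h1
    obtain ⟨g, rfl⟩ := (MulEquiv.surjective φ) g
    apply h g
    rw [← lo_ap R hZ hall ha φ hφ]
    simpa only [ap_mk, _root_.map_one, _root_.map_mul] using h1

theorem key_lt_ap {k m : FreeGroup α} : key R (φ k) < key R (φ m) ↔ key R k < key R m := by
  by_cases e1 : k = 1
  · subst e1
    rw [_root_.map_one]
    by_cases e2 : m = 1
    · subst e2; simp
    · have e3 : φ m ≠ 1 := fun h => e2 ((MulEquiv.injective φ) (by rw [h, _root_.map_one]))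
      exact ⟨fun _ => key_one_lt R e2, fun _ => key_one_lt R e3⟩
  · have e3 : φ k ≠ 1 := fun h => e1 ((MulEquiv.injective φ) (by rw [h, _root_.map_one]))
    by_cases e2 : m = 1
    · subst e2
      rw [_root_.map_one]
      exact ⟨fun h => (lt_asymm h (key_one_lt R e3)).elim,
        fun h => (lt_asymm h (key_one_lt R e1)).elim⟩
    · have e4 : φ m ≠ 1 := fun h => e2 ((MulEquiv.injective φ) (by rw [h, _root_.map_one]))
      rw [← cy_one R e3 e4, ← cy_one R e1 e2, ← cy_aut R hZ hall ha φ hφ 1 k m, _root_.map_one]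

theorem arc_ap {k : FreeGroup α} : Arc R (φ k) ↔ Arc R k := by
  unfold Arc
  rw [cmp_ap R hZ hall ha φ hφ, ← _root_.map_inv, key_lt_ap R hZ hall ha φ hφ]
  simp

theorem hnd_ap {k l : FreeGroup α} : Hnd R (φ k) (φ l) ↔ Hnd R k l := by
  unfold Hnd
  simp only [← _root_.map_inv, arc_ap R hZ hall ha φ hφ, cmp_ap R hZ hall ha φ hφ,
    key_lt_ap R hZ hall ha φ hφ]

end aut2

end Pool.Agent.TOR.H59
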