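import Mathlib

/-! TOR, algebraic model of the surface with one boundary component, part 1:
the planar Cayley tree and the left invariant cyclic order on the free group. -/

set_option autoImplicit false

namespace Pool.Agent.TOR.H59

open FreeGroup

/-! ### cyclic order of a linear order -/

/-- the strict cyclic order of a linear order -/
def Cyc {β : Type*} [LT β] (a b c : β) : Prop :=
  (a < b ∧ b < c) ∨ (b < c ∧ c < a) ∨ (c < a ∧ a < b)

section Cyc
variable {β : Type*} [LinearOrder β] {a b c d : β}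

theorem Cyc.rot (h : Cyc a b c) : Cyc b c a := by
  unfold Cyc at *; tauto

theorem cyc_rot : Cyc a b c ↔ Cyc b c a := ⟨Cyc.rot, fun h => h.rot.rot⟩

theorem Cyc.ne12 (h : Cyc a b c) : a ≠ b := by
  rintro rfl
  rcases h with h | h | h
  · exact lt_irrefl _ h.1
  · exact lt_asymm h.1 h.2
  · exact lt_irrefl _ h.2

theorem Cyc.ne23 (h : Cyc a b c) : b ≠ c := h.rot.ne12
theorem Cyc.ne31 (h : Cyc a b c) : c ≠ a := h.rot.rot.ne12

theorem Cyc.asymm (h : Cyc a b c) (h' : Cyc a c b) : False := by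
  rcases h with h | h | h <;> rcases h' with h' | h' | h'
  · exact lt_asymm h.2 h'.2
  · exact lt_asymm h.2 h'.1
  · exact lt_asymm h.1 h'.1
  · exact lt_asymm h.2 h'.1
  · exact lt_asymm h.1 h'.1
  · exact lt_asymm h.2 h'.2
  · exact lt_asymm h.1 h'.1
  · exact lt_asymm h.2 h'.2
  · exact lt_asymm h.2 h'.1

theorem cyc_total (h1 : a ≠ b) (h2 : b ≠ c) (h3 : c ≠ a) : Cyc a b c ∨ Cyc a c b := by
  unfold Cyc
  rcases lt_or_gt_of_ne h1 with h1 | h1 <;> rcases lt_or_gt_of_ne h2 with h2 | h2 <;>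
    rcases lt_or_gt_of_ne h3 with h3 | h3 <;> tauto

theorem not_cyc (h1 : a ≠ b) (h2 : b ≠ c) (h3 : c ≠ a) : ¬ Cyc a b c ↔ Cyc a c b := by
  constructor
  · intro h; rcases cyc_total h1 h2 h3 with h' | h'
    · exact (h h').elim
    · exact h'
  · exact fun h h' => h'.asymm h

/-- transitivity: `a,b,c` and `a,c,d` in cyclic order give `a,b,d`. -/
theorem Cyc.trans (h : Cyc a b c) (h' : Cyc a c d) : Cyc a b d := by
  unfold Cyc at *
  rcases h with ⟨h1, h2⟩ | ⟨h1, h2⟩ | ⟨h1, h2⟩ <;>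
    rcases h' with ⟨h3, h4⟩ | ⟨h3, h4⟩ | ⟨h3, h4⟩
  · exact Or.inl ⟨h1, h2.trans h4⟩
  · exact Or.inr (Or.inr ⟨h4, h1⟩)
  · exact Or.inr (Or.inr ⟨h3, h1⟩)
  · exact (lt_asymm h2 h3).elim
  · exact Or.inr (Or.inl ⟨h1.trans h3, h4⟩)
  · exact (lt_asymm h2 h4).elim
  · exact (lt_asymm h1 h3).elim
  · exact Or.inr (Or.inr ⟨h4, h2⟩)
  · exact Or.inr (Or.inr ⟨h3, h2⟩)

/-- `a,b,c` and `a,c,d` give `b,c,d`. -/
theorem Cyc.trans' (h : Cyc a b c) (h' : Cyc a c d) : Cyc b c d := by
  have h1 : Cyc d a c := h'.rot.rot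
  have h2 : Cyc c d a := h'.rot
  have h3 : Cyc c a b := h.rot.rot
  exact (h2.trans h3).rot.rot

end Cyc

/-! ### ranks -/

/-- planar structure at the vertices of the Cayley tree: ranks of the letters;
rank `0` is the base corner. -/
structure Rib (α : Type) where
  N : ℕ
  r : α × Bool → ℕ
  inj : Function.Injective r
  pos : ∀ l, 1 ≤ r l
  le : ∀ l, r l ≤ N

variable {α : Type}

/-- the inverse letter -/
def iv (l : α × Bool) : α × Bool := (l.1, !l.2)

@[simp] theorem iv_iv (l : α × Bool) : iv (iv l) = l := by simp [iv]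

/-- relative rank of `a` counted from `b` -/
def rel (N b a : ℕ) : ℕ := if b ≤ a then a - b else a + N + 1 - b

theorem rel_zero (N a : ℕ) : rel N 0 a = a := by simp [rel]

theorem rel_inj {N b a a' : ℕ} (hb : b ≤ N) (ha : a ≤ N) (ha' : a' ≤ N)
    (h : rel N b a = rel N b a') : a = a' := by
  unfold rel at h; split_ifs at h <;> omega

theorem rel_le {N b a : ℕ} (hb : b ≤ N) (ha : a ≤ N) : rel N b a ≤ N := by
  unfold rel; split_ifs <;> omega

/-- the key of a word read from the direction `b` -/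
def kf (R : Rib α) : ℕ → List (α × Bool) → List ℕ
  | b, [] => [rel R.N b 0]
  | b, l :: w => rel R.N b (R.r l) :: kf R (R.r (iv l)) w

theorem kf_inj (R : Rib α) : ∀ (w w' : List (α × Bool)) (b : ℕ), b ≤ R.N →
    kf R b w = kf R b w' → w = w'
  | [], [], _, _, _ => rfl
  | [], l :: w, b, hb, h => by
      simp only [kf, List.cons.injEq] at h
      have := rel_inj hb (Nat.zero_le _) (R.le l) h.1
      have := R.pos l
      omega
  | l :: w, [], b, hb, h => by
      simp only [kf, List.cons.injEq] at h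
      have := rel_inj hb (R.le l) (Nat.zero_le _) h.1
      have := R.pos l
      omega
  | l :: w, l' :: w', b, hb, h => by
      simp only [kf, List.cons.injEq] at h
      have h1 := R.inj (rel_inj hb (R.le l) (R.le l') h.1)
      subst h1
      rw [kf_inj R w w' _ (R.le _) h.2]

/-- head rank of a word -/
def hr (R : Rib α) : List (α × Bool) → ℕ
  | [] => 0
  | l :: _ => R.r l

/-- tail of the key -/
def tk (R : Rib α) : List (α × Bool) → List ℕ
  | [] => []
  | l :: w => kf R (R.r (iv l)) w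

theorem kf_eq (R : Rib α) (b : ℕ) (w : List (α × Bool)) :
    kf R b w = rel R.N b (hr R w) :: tk R w := by
  cases w <;> rfl

theorem hr_le (R : Rib α) (w : List (α × Bool)) : hr R w ≤ R.N := by
  cases w with
  | nil => exact Nat.zero_le _
  | cons l w => exact R.le l

theorem cyc_cons_ne {a1 a2 a3 : ℕ} (h12 : a1 ≠ a2) (h23 : a2 ≠ a3) (h31 : a3 ≠ a1)
    (t1 t2 t3 : List ℕ) :
    Cyc (a1 :: t1) (a2 :: t2) (a3 :: t3) ↔ Cyc a1 a2 a3 := by
  unfold Cyc
  simp only [List.cons_lt_cons_iff, h12, h23, h31, false_and, or_false]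

theorem cyc_cons_eq {a1 a3 : ℕ} (h31 : a3 ≠ a1) (t1 t2 t3 : List ℕ) :
    Cyc (a1 :: t1) (a1 :: t2) (a3 :: t3) ↔ t1 < t2 := by
  unfold Cyc
  simp only [List.cons_lt_cons_iff, h31, h31.symm, false_and, or_false, lt_irrefl, true_and,
    false_or]
  constructor
  · rintro (h | h | h)
    · exact h.1
    · exact (lt_asymm h.1 h.2).elim
    · exact h.2
  · intro h
    rcases lt_or_gt_of_ne h31 with h' | h'
    · exact Or.inr (Or.inr ⟨h', h⟩)
    · exact Or.inl ⟨h, h'⟩

theorem cyc_cons_all {a1 : ℕ} (t1 t2 t3 : List ℕ) :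
    Cyc (a1 :: t1) (a1 :: t2) (a1 :: t3) ↔ Cyc t1 t2 t3 := by
  unfold Cyc
  simp only [List.cons_lt_cons_iff, lt_irrefl, true_and, false_or]

theorem cyc_rel_num {N b a1 a2 a3 : ℕ} (hb : b ≤ N) (h1 : a1 ≤ N) (h2 : a2 ≤ N) (h3 : a3 ≤ N) :
    Cyc (rel N b a1) (rel N b a2) (rel N b a3) ↔ Cyc a1 a2 a3 := by
  unfold Cyc rel
  constructor
  · intro h
    split_ifs at h <;> omega
  · intro h
    split_ifs <;> omega

/-- rotation of the heads does not change the cyclic order -/
theorem cyc_rel {N b a1 a2 a3 : ℕ} (hb : b ≤ N) (h1 : a1 ≤ N) (h2 : a2 ≤ N) (h3 : a3 ≤ N)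
    (t1 t2 t3 : List ℕ) :
    Cyc (rel N b a1 :: t1) (rel N b a2 :: t2) (rel N b a3 :: t3) ↔
      Cyc (a1 :: t1) (a2 :: t2) (a3 :: t3) := by
  have ne {a a' : ℕ} (ha : a ≤ N) (ha' : a' ≤ N) (h : a ≠ a') : rel N b a ≠ rel N b a' :=
    fun h' => h (rel_inj hb ha ha' h')
  by_cases e12 : a1 = a2
  · subst e12
    by_cases e31 : a3 = a1
    · subst e31
      rw [cyc_cons_all, cyc_cons_all]
    · rw [cyc_cons_eq e31, cyc_cons_eq (ne h3 h1 e31)]
  · by_cases e23 : a2 = a3
    · subst e23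
      rw [cyc_rot, @cyc_rot _ _ (a1 :: t1), cyc_cons_eq e12, cyc_cons_eq (ne h1 h2 e12)]
    · by_cases e31 : a3 = a1
      · subst e31
        rw [cyc_rot, cyc_rot, @cyc_rot _ _ (a3 :: t1), @cyc_rot _ _ (a2 :: t2),
          cyc_cons_eq e23, cyc_cons_eq (ne h2 h3 e23)]
      · rw [cyc_cons_ne e12 e23 e31, cyc_cons_ne (ne h1 h2 e12) (ne h2 h3 e23) (ne h3 h1 e31),
          cyc_rel_num hb h1 h2 h3]

theorem cyc_kf (R : Rib α) {b : ℕ} (hb : b ≤ R.N) (u v w : List (α × Bool)) :
    Cyc (kf R b u) (kf R b v) (kf R b w) ↔ Cyc (kf R 0 u) (kf R 0 v) (kf R 0 w) := by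
  simp only [kf_eq, rel_zero]
  exact cyc_rel hb (hr_le R u) (hr_le R v) (hr_le R w) _ _ _

variable [DecidableEq α]

/-- the key of an element -/
def key (R : Rib α) (g : FreeGroup α) : List ℕ := kf R 0 g.toWord

theorem key_inj (R : Rib α) {g h : FreeGroup α} (e : key R g = key R h) : g = h :=
  FreeGroup.toWord_injective (kf_inj R _ _ 0 (Nat.zero_le _) e)

/-- the cyclic order on the free group -/
def cy (R : Rib α) (p q r : FreeGroup α) : Prop := Cyc (key R p) (key R q) (key R r)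

/-- the letter as an element -/
def lt (l : α × Bool) : FreeGroup α := FreeGroup.mk [l]

omit [DecidableEq α] in
theorem lt_iv (l : α × Bool) : lt (iv l) = (lt l)⁻¹ := by
  simp [lt, iv, FreeGroup.inv_mk, FreeGroup.invRev]

/-- left multiplication by a letter on words -/
theorem toWord_lt_mul (l : α × Bool) (g : FreeGroup α) :
    (g.toWord.head? ≠ some (iv l) ∧ (lt l * g).toWord = l :: g.toWord) ∨
      ∃ w, g.toWord = iv l :: w ∧ (lt l * g).toWord = w := by
  have h0 : (lt l * g).toWord = FreeGroup.reduce (l :: g.toWord) := by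
    rw [lt, ← FreeGroup.toWord_mk]
    congr 1
    conv_lhs => rw [← FreeGroup.mk_toWord (x := g)]
    rfl
  rw [h0, FreeGroup.reduce.cons, FreeGroup.reduce_toWord]
  cases hw : g.toWord with
  | nil => left; simp
  | cons a w =>
    by_cases h : l.1 = a.1 ∧ l.2 = !a.2
    · right
      refine ⟨w, ?_, by simp [h]⟩
      congr 1
      ext
      · exact h.1.symm
      · simp [iv, h.2]
    · left
      refine ⟨?_, by simp [h]⟩
      rintro h'
      simp only [List.head?_cons, Option.some.injEq] at h'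
      subst h'
      exact h ⟨rfl, by simp [iv]⟩

theorem cyc_min {β : Type*} [LinearOrder β] {a b c : β} (ha : c < a) (hb : c < b) :
    Cyc a b c ↔ a < b := by
  unfold Cyc
  constructor
  · rintro (h | h | h)
    · exact h.1
    · exact (lt_asymm h.1 hb).elim
    · exact h.2
  · intro h; exact Or.inr (Or.inr ⟨ha, h⟩)

/-- a word does not start with the letter `l` -/
def NS (l : α × Bool) (w : List (α × Bool)) : Prop := w.head? ≠ some l

omit [DecidableEq α] in
theorem NS.hr {R : Rib α} {l : α × Bool} {w : List (α × Bool)} (h : NS l w) :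
    H59.hr R w ≠ R.r l := by
  cases w with
  | nil => have := R.pos l; simp only [H59.hr]; omega
  | cons a w =>
    intro h'
    exact h (by rw [List.head?_cons, R.inj h'])

omit [DecidableEq α] in
theorem kf_self_lt (R : Rib α) {l : α × Bool} {w : List (α × Bool)} (h : NS l w)
    (u : List (α × Bool)) : kf R (R.r l) (l :: u) < kf R (R.r l) w := by
  have e : rel R.N (R.r l) (R.r l) = 0 := by simp [rel]
  have h1 : rel R.N (R.r l) (H59.hr R w) ≠ 0 := by
    intro h'
    rw [← e] at h'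
    exact h.hr (rel_inj (R.le l) (hr_le R w) (R.le l) h')
  rw [kf_eq R _ w, kf, e, List.cons_lt_cons_iff]
  exact Or.inl (Nat.pos_of_ne_zero h1)

omit [DecidableEq α] in
/-- two in the block, one outside -/
theorem cyc_block (R : Rib α) {l : α × Bool} {w1 w2 u3 : List (α × Bool)}
    (h1 : NS l w1) (h2 : NS l w2) (h3 : NS (iv l) u3) :
    Cyc (kf R 0 (iv l :: w1)) (kf R 0 (iv l :: w2)) (kf R 0 u3) ↔
      Cyc (kf R 0 w1) (kf R 0 w2) (kf R 0 (l :: u3)) := by
  have hb : R.r l ≤ R.N := R.le l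
  rw [← cyc_kf R hb w1 w2, cyc_min (kf_self_lt R h1 u3) (kf_self_lt R h2 u3)]
  simp only [kf, rel_zero, iv_iv]
  rw [kf_eq R 0 u3, rel_zero, cyc_cons_eq h3.hr]

/-- the words of `p` and of `lt l * p` -/
theorem word_cases (l : α × Bool) (p : FreeGroup α) :
    (NS (iv l) p.toWord ∧ (lt l * p).toWord = l :: p.toWord) ∨
      ∃ w, NS l w ∧ p.toWord = iv l :: w ∧ (lt l * p).toWord = w := by
  rcases toWord_lt_mul l p with h | ⟨w, h1, h2⟩
  · exact Or.inl h
  · refine Or.inr ⟨w, ?_, h1, h2⟩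
    intro h3
    have h4 : FreeGroup.IsReduced p.toWord := FreeGroup.isReduced_toWord
    rw [h1] at h4
    cases w with
    | nil => simp at h3
    | cons a w =>
      simp only [List.head?_cons, Option.some.injEq] at h3
      subst h3
      rw [FreeGroup.isReduced_cons_cons] at h4
      have := h4.1 rfl
      simp [iv] at this

theorem cy_rot {R : Rib α} {p q r : FreeGroup α} : cy R p q r ↔ cy R q r p := cyc_rot

/-- the cyclic order is invariant under left multiplication by a letter -/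
theorem cy_lt_mul (R : Rib α) (l : α × Bool) (p q r : FreeGroup α) :
    cy R (lt l * p) (lt l * q) (lt l * r) ↔ cy R p q r := by
  have A : ∀ {x y z : FreeGroup α} {w1 w2 : List (α × Bool)}, NS l w1 → x.toWord = iv l :: w1 →
      (lt l * x).toWord = w1 → NS l w2 → y.toWord = iv l :: w2 → (lt l * y).toWord = w2 →
      NS (iv l) z.toWord → (lt l * z).toWord = l :: z.toWord →
      (cy R (lt l * x) (lt l * y) (lt l * z) ↔ cy R x y z) := by
    intro x y z w1 w2 a1 a2 a3 b1 b2 b3 c1 c2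
    unfold cy key
    rw [a3, b3, c2, a2, b2]
    exact (cyc_block R a1 b1 c1).symm
  have B : ∀ {x y z : FreeGroup α} {w : List (α × Bool)}, NS l w → z.toWord = iv l :: w →
      (lt l * z).toWord = w → NS (iv l) x.toWord → (lt l * x).toWord = l :: x.toWord →
      NS (iv l) y.toWord → (lt l * y).toWord = l :: y.toWord →
      (cy R (lt l * x) (lt l * y) (lt l * z) ↔ cy R x y z) := by
    intro x y z w a1 a2 a3 b1 b2 c1 c2
    unfold cy key
    rw [a2, a3, b2, c2]
    have := cyc_block R (l := iv l) (w1 := x.toWord) (w2 := y.toWord) (u3 := w) b1 c1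
      (by rw [iv_iv]; exact a1)
    rw [iv_iv] at this
    exact this
  rcases word_cases l p with ⟨p1, p2⟩ | ⟨u, p1, p2, p3⟩ <;>
    rcases word_cases l q with ⟨q1, q2⟩ | ⟨v, q1, q2, q3⟩ <;>
    rcases word_cases l r with ⟨r1, r2⟩ | ⟨w, r1, r2, r3⟩
  · unfold cy key
    rw [p2, q2, r2]
    simp only [kf, cyc_cons_all]
    exact cyc_kf R (R.le _) _ _ _
  · exact B r1 r2 r3 p1 p2 q1 q2
  · rw [cy_rot, cy_rot, @cy_rot _ _ R p, @cy_rot _ _ R q]
    exact B q1 q2 q3 r1 r2 p1 p2
  · rw [cy_rot, @cy_rot _ _ R p]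
    exact A q1 q2 q3 r1 r2 r3 p1 p2
  · rw [cy_rot, @cy_rot _ _ R p]
    exact B p1 p2 p3 q1 q2 r1 r2
  · rw [cy_rot, cy_rot, @cy_rot _ _ R p, @cy_rot _ _ R q]
    exact A r1 r2 r3 p1 p2 p3 q1 q2
  · exact A p1 p2 p3 q1 q2 q3 r1 r2
  · unfold cy key
    rw [p2, q2, r2, p3, q3, r3]
    simp only [kf, cyc_cons_all, iv_iv]
    exact (cyc_kf R (R.le _) _ _ _).symm

/-- the cyclic order is left invariant -/
theorem cy_mul (R : Rib α) (g p q r : FreeGroup α) :
    cy R (g * p) (g * q) (g * r) ↔ cy R p q r := by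
  have key1 : ∀ (w : List (α × Bool)) (p q r : FreeGroup α),
      cy R (FreeGroup.mk w * p) (FreeGroup.mk w * q) (FreeGroup.mk w * r) ↔ cy R p q r := by
    intro w
    induction w with
    | nil => intro p q r; simp [← FreeGroup.one_eq_mk]
    | cons l w ih =>
      intro p q r
      have e : FreeGroup.mk (l :: w) = lt l * FreeGroup.mk w := rfl
      rw [e, mul_assoc, mul_assoc, mul_assoc, cy_lt_mul, ih]
  have := key1 g.toWord p q r
  rwa [FreeGroup.mk_toWord] at this

end Pool.Agent.TOR.H59
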