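import Pool.Agent.Helper59_TOR.Unc

/-! TOR, algebraic model, part 12: the boundary arc of a handle. -/

set_option autoImplicit false

namespace Pool.Agent.TOR.H59

open FreeGroup

section ord
variable {β : Type*} [LinearOrder β] {p0 p1 p2 p3 p4 u v : β}

theorem pent_a (a1 : Cyc p1 p2 p0) (a2 : Cyc p2 p3 p1) (n03 : p0 ≠ p3)
    (h1 : ¬ Lk p0 p1 p2 p3) : Cyc p0 p1 p2 ∧ Cyc p0 p2 p3 ∧ Cyc p0 p1 p3 := by
  unfold Lk Cyc at *
  grind

theorem pent_b (a1 : Cyc p1 p2 p0) (a2 : Cyc p2 p3 p1) (a3 : Cyc p3 p4 p2) (n03 : p0 ≠ p3)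
    (n04 : p4 ≠ p0) (n14 : p4 ≠ p1)
    (h1 : ¬ Lk p0 p1 p2 p3) (h2 : ¬ Lk p0 p1 p3 p4) (h3 : ¬ Lk p1 p2 p3 p4) :
    Cyc p0 p3 p4 ∧ Cyc p0 p1 p4 ∧ Cyc p0 p2 p4 := by
  unfold Lk Cyc at *
  grind

/-- a chord compatible with the sides does not cross the closing side -/
theorem pent_c (b1 : Cyc p0 p1 p2) (b2 : Cyc p0 p2 p3) (b3 : Cyc p0 p3 p4)
    (h1 : ¬ Lk p0 p1 u v) (h2 : ¬ Lk p1 p2 u v) (h3 : ¬ Lk p2 p3 u v) (h4 : ¬ Lk p3 p4 u v)
    (e1 : u = p1 → ¬ Cyc p2 v p0) (e2 : u = p2 → ¬ Cyc p3 v p1) (e3 : u = p3 → ¬ Cyc p4 v p2)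
    (f1 : v = p1 → ¬ Cyc p2 u p0) (f2 : v = p2 → ¬ Cyc p3 u p1) (f3 : v = p3 → ¬ Cyc p4 u p2) :
    ¬ Lk p0 p4 u v := by
  unfold Lk Cyc at *
  grind

/-- germs at `p0` between `p1` and `p4` -/
theorem pent_d (b1 : Cyc p0 p1 p2) (b2 : Cyc p0 p2 p3) (b3 : Cyc p0 p3 p4)
    (h2 : ¬ Lk p1 p2 p0 v) (h3 : ¬ Lk p2 p3 p0 v) (h4 : ¬ Lk p3 p4 p0 v)
    (f2 : v ≠ p2) (f3 : v ≠ p3) : ¬ Cyc p1 v p4 := by
  unfold Lk Cyc at *
  grind

/-- germs at `p4` between `p0` and `p3` -/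
theorem pent_e (b1 : Cyc p0 p1 p2) (b2 : Cyc p0 p2 p3) (b3 : Cyc p0 p3 p4)
    (h2 : ¬ Lk p0 p1 p4 v) (h3 : ¬ Lk p1 p2 p4 v) (h4 : ¬ Lk p2 p3 p4 v)
    (f2 : v ≠ p1) (f3 : v ≠ p2) : ¬ Cyc p0 v p3 := by
  unfold Lk Cyc at *
  grind

end ord

variable {α : Type} [DecidableEq α]

/-- commutator -/
def cm (k l : FreeGroup α) : FreeGroup α := k * l * k⁻¹ * l⁻¹

omit [DecidableEq α] in
theorem cm_inv (k l : FreeGroup α) : (cm k l)⁻¹ = l * k * l⁻¹ * k⁻¹ := by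
  unfold cm; group

/-- the germ `m` lies in one of the three inner sectors of the handle -/
def Sec (R : Rib α) (k l m : FreeGroup α) : Prop :=
  (key R k < key R m ∧ key R m < key R l⁻¹) ∨ (key R l⁻¹ < key R m ∧ key R m < key R k⁻¹) ∨
    (key R k⁻¹ < key R m ∧ key R m < key R l)

section pent
variable {R : Rib α} {k l : FreeGroup α} (h : Hnd R k l)
include h

theorem Hnd.k1 : k ≠ 1 := h.1.1
theorem Hnd.l1 : l ≠ 1 := fun e => h.2.1.1 (by rw [e, inv_one])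
theorem Hnd.kk : Cmp R 0 k 0 k := h.1.2.2
theorem Hnd.ll : Cmp R 0 l 0 l := by
  have := h.2.1.2.2
  rwa [cmp_inv_left, cmp_inv_right] at this
theorem Hnd.kl : Cmp R 0 k 0 l := h.2.2.1

theorem Hnd.sec_k : ¬ Sec R k l k ∧ ¬ Sec R k l k⁻¹ ∧ ¬ Sec R k l l ∧ ¬ Sec R k l l⁻¹ := by
  obtain ⟨_, _, _, h1, h2, h3⟩ := h
  unfold Sec
  refine ⟨?_, ?_, ?_, ?_⟩
  · rintro (⟨a, b⟩ | ⟨a, b⟩ | ⟨a, b⟩)
    · exact lt_irrefl _ a
    · exact lt_asymm a h1
    · exact lt_asymm a (h1.trans h2)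
  · rintro (⟨a, b⟩ | ⟨a, b⟩ | ⟨a, b⟩)
    · exact lt_asymm b h2
    · exact lt_irrefl _ b
    · exact lt_irrefl _ a
  · rintro (⟨a, b⟩ | ⟨a, b⟩ | ⟨a, b⟩)
    · exact lt_asymm b (h2.trans h3)
    · exact lt_asymm b h3
    · exact lt_irrefl _ b
  · rintro (⟨a, b⟩ | ⟨a, b⟩ | ⟨a, b⟩)
    · exact lt_irrefl _ b
    · exact lt_irrefl _ a
    · exact lt_asymm a h2

/-- the pentagon -/
theorem Hnd.pent : cy R 1 l (l * k) ∧ cy R 1 (l * k) (l * k * l⁻¹) ∧
    cy R 1 (l * k * l⁻¹) (l * k * l⁻¹ * k⁻¹) := by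
  have hk := h.k1
  have hl := h.l1
  have hk' : k⁻¹ ≠ 1 := by simpa using hk
  have hl' : l⁻¹ ≠ 1 := by simpa using hl
  have g1 := h.2.2.2.1
  have g2 := h.2.2.2.2.1
  have g3 := h.2.2.2.2.2
  have a1 : cy R l (l * k) 1 := by
    rw [← cy_mul R l⁻¹, inv_mul_cancel, inv_mul_cancel_left, mul_one]
    exact (cy_one R hk hl').2 g1
  have a2 : cy R (l * k) (l * k * l⁻¹) l := by
    rw [← cy_mul R (l * k)⁻¹, inv_mul_cancel, inv_mul_cancel_left]
    have : (l * k)⁻¹ * l = k⁻¹ := by group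
    rw [this]
    exact (cy_one R hl' hk').2 g2
  have a3 : cy R (l * k * l⁻¹) (l * k * l⁻¹ * k⁻¹) (l * k) := by
    rw [← cy_mul R (l * k * l⁻¹)⁻¹, inv_mul_cancel, inv_mul_cancel_left]
    have : (l * k * l⁻¹)⁻¹ * (l * k) = l := by group
    rw [this]
    exact (cy_one R hk' hl).2 g3
  have h1 : ¬ Lk (key R 1) (key R l) (key R (l * k)) (key R (l * k * l⁻¹)) := by
    have := h.ll.inv_right.all 1 (l * k)
    rwa [one_mul, lo_same] at this
  have h2 : ¬ Lk (key R 1) (key R l) (key R (l * k * l⁻¹)) (key R (l * k * l⁻¹ * k⁻¹)) := by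
    have := h.kl.symm.inv_right.all 1 (l * k * l⁻¹)
    rwa [one_mul, lo_same] at this
  have h3 : ¬ Lk (key R l) (key R (l * k)) (key R (l * k * l⁻¹))
      (key R (l * k * l⁻¹ * k⁻¹)) := by
    have := h.kk.inv_right.all l (l * k * l⁻¹)
    rwa [lo_same] at this
  have n03 : key R 1 ≠ key R (l * k * l⁻¹) := by
    apply key_ne
    intro e
    apply hk
    have : k = l⁻¹ * (l * k * l⁻¹) * l := by group
    rw [this, ← e]; group
  obtain ⟨b1, b2, b3⟩ := pent_a a1 a2 n03 h1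
  have n04 : key R (l * k * l⁻¹ * k⁻¹) ≠ key R 1 := by
    apply key_ne
    intro e
    have e2 : l * k * l⁻¹ = k := by
      have : l * k * l⁻¹ = (l * k * l⁻¹ * k⁻¹) * k := by group
      rw [this, e, one_mul]
    have b3' : cy R 1 l (l * k * l⁻¹) := b3
    rw [e2, cy_one R hl hk] at b3'
    exact lt_asymm b3' (g1.trans (g2.trans g3))
  have n14 : key R (l * k * l⁻¹ * k⁻¹) ≠ key R l := by
    apply key_ne
    intro e
    apply hl
    have : l = (k⁻¹ * l⁻¹ * (l * k * l⁻¹ * k⁻¹) * k)⁻¹ := by group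
    rw [this, e]
    group
  exact ⟨b1, b2, (pent_b a1 a2 a3 n03 n04 n14 h1 h2 h3).1⟩

theorem Hnd.key_l_lt : key R l < key R (cm k l)⁻¹ ∧ key R (cm k l) < key R k := by
  have hk := h.k1
  have hl := h.l1
  obtain ⟨b1, b2, b3⟩ := h.pent
  have b4 : cy R 1 l (l * k * l⁻¹ * k⁻¹) := Cyc.trans b1 (Cyc.trans b2 b3)
  have c1 : l * k * l⁻¹ * k⁻¹ ≠ 1 := by
    intro e; rw [e] at b3; exact b3.ne31 rfl
  have c2 : cm k l ≠ 1 := by
    intro e; apply c1; rw [← cm_inv, e, inv_one]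
  constructor
  · rw [cm_inv]
    exact (cy_one R hl c1).1 b4
  · have b5 := (cy_mul R (cm k l) 1 (l * k * l⁻¹) (l * k * l⁻¹ * k⁻¹)).2 b3
    have e1 : cm k l * (l * k * l⁻¹) = k := by unfold cm; group
    have e2 : cm k l * (l * k * l⁻¹ * k⁻¹) = 1 := by unfold cm; group
    rw [e1, e2, mul_one] at b5
    exact (cy_one R c2 hk).1 b5.rot.rot

theorem Hnd.cm_ne : cm k l ≠ 1 := by
  intro e
  have := h.key_l_lt.1
  rw [e, inv_one] at this
  exact lt_asymm this (key_one_lt R h.l1)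

theorem Hnd.l_ne_cm : ∀ m, m = cm k l ∨ m = (cm k l)⁻¹ → ¬ Sec R k l m := by
  have h1 := h.key_l_lt
  obtain ⟨_, _, _, g1, g2, g3⟩ := h
  rintro m (rfl | rfl) hs <;> unfold Sec at hs
  · rcases hs with ⟨a, b⟩ | ⟨a, b⟩ | ⟨a, b⟩
    · exact lt_asymm a h1.2
    · exact lt_asymm a (h1.2.trans g1)
    · exact lt_asymm a (h1.2.trans (g1.trans g2))
  · rcases hs with ⟨a, b⟩ | ⟨a, b⟩ | ⟨a, b⟩
    · exact lt_asymm b ((g2.trans g3).trans h1.1)
    · exact lt_asymm b (g3.trans h1.1)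
    · exact lt_asymm b h1.1

/-- arcs without germs in the inner sectors are compatible with the boundary arc of the handle -/
theorem Hnd.cmp_cm {m : FreeGroup α} (ck : Cmp R 0 k 0 m) (cl : Cmp R 0 l 0 m)
    (s : ¬ Sec R k l m) (s' : ¬ Sec R k l m⁻¹) : Cmp R 0 (cm k l) 0 m := by
  rw [← cmp_inv_left, cm_inv]
  intro u
  rw [lo_same]
  obtain ⟨b1, b2, b3⟩ := h.pent
  have g1 := h.2.2.2.1
  have g2 := h.2.2.2.2.1
  have g3 := h.2.2.2.2.2
  have h1 : ¬ Lk (key R 1) (key R l) (key R u) (key R (u * m)) := by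
    have := cl.all 1 u
    rwa [one_mul, lo_same] at this
  have h2 : ¬ Lk (key R l) (key R (l * k)) (key R u) (key R (u * m)) := by
    have := ck.all l u
    rwa [lo_same] at this
  have h3 : ¬ Lk (key R (l * k)) (key R (l * k * l⁻¹)) (key R u) (key R (u * m)) := by
    have := cl.inv_left.all (l * k) u
    rwa [lo_same] at this
  have h4 : ¬ Lk (key R (l * k * l⁻¹)) (key R (l * k * l⁻¹ * k⁻¹)) (key R u)
      (key R (u * m)) := by
    have := ck.inv_left.all (l * k * l⁻¹) u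
    rwa [lo_same] at this
  -- the sectors
  have se1 : ∀ x, ¬ Sec R k l x → ¬ cy R (l * k) (l * x) 1 := by
    intro x hx hc
    rw [← cy_mul R l⁻¹, mul_one, inv_mul_cancel_left, inv_mul_cancel_left] at hc
    apply hx
    rcases hc with hc | hc | hc
    · exact Or.inl hc
    · exact (lt_asymm hc.2 g1).elim
    · exact (lt_asymm hc.1 g1).elim
  have se2 : ∀ x, ¬ Sec R k l x → ¬ cy R (l * k * l⁻¹) (l * k * x) l := by
    intro x hx hc
    rw [← cy_mul R (l * k)⁻¹, inv_mul_cancel_left, inv_mul_cancel_left] at hc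
    have : (l * k)⁻¹ * l = k⁻¹ := by group
    rw [this] at hc
    apply hx
    rcases hc with hc | hc | hc
    · exact Or.inr (Or.inl hc)
    · exact (lt_asymm hc.2 g2).elim
    · exact (lt_asymm hc.1 g2).elim
  have se3 : ∀ x, ¬ Sec R k l x → ¬ cy R (l * k * l⁻¹ * k⁻¹) (l * k * l⁻¹ * x) (l * k) := by
    intro x hx hc
    rw [← cy_mul R (l * k * l⁻¹)⁻¹, inv_mul_cancel_left, inv_mul_cancel_left] at hc
    have : (l * k * l⁻¹)⁻¹ * (l * k) = l := by group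
    rw [this] at hc
    apply hx
    rcases hc with hc | hc | hc
    · exact Or.inr (Or.inr hc)
    · exact (lt_asymm hc.2 g3).elim
    · exact (lt_asymm hc.1 g3).elim
  refine pent_c b1 b2 b3 h1 h2 h3 h4 ?_ ?_ ?_ ?_ ?_ ?_
  · intro e
    rw [key_inj R e]
    exact se1 m s
  · intro e
    rw [key_inj R e]
    exact se2 m s
  · intro e
    rw [key_inj R e]
    exact se3 m s
  · intro e
    have e' : u = l * m⁻¹ := by rw [← key_inj R e, mul_inv_cancel_right]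
    rw [e']
    exact se1 m⁻¹ s'
  · intro e
    have e' : u = l * k * m⁻¹ := by rw [← key_inj R e, mul_inv_cancel_right]
    rw [e']
    exact se2 m⁻¹ s'
  · intro e
    have e' : u = l * k * l⁻¹ * m⁻¹ := by rw [← key_inj R e, mul_inv_cancel_right]
    rw [e']
    exact se3 m⁻¹ s'

theorem Hnd.cmp_cm_k : Cmp R 0 (cm k l) 0 k :=
  h.cmp_cm h.kk h.kl.symm h.sec_k.1 h.sec_k.2.1

theorem Hnd.cmp_cm_l : Cmp R 0 (cm k l) 0 l :=
  h.cmp_cm h.kl h.ll h.sec_k.2.2.1 h.sec_k.2.2.2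

theorem Hnd.cmp_cm_self : Cmp R 0 (cm k l) 0 (cm k l) :=
  h.cmp_cm h.cmp_cm_k.symm h.cmp_cm_l.symm (h.l_ne_cm _ (Or.inl rfl))
    (h.l_ne_cm _ (Or.inr rfl))

/-- no germs between the handle and its boundary arc -/
theorem Hnd.germ_out {m : FreeGroup α} (ck : Cmp R 0 k 0 m) (cl : Cmp R 0 l 0 m)
    (s : ¬ Sec R k l m) (s' : ¬ Sec R k l m⁻¹) :
    ¬ (key R l < key R m ∧ key R m < key R (cm k l)⁻¹) ∧
      ¬ (key R (cm k l) < key R m ∧ key R m < key R k) := by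
  have g1 := h.2.2.2.1
  have g2 := h.2.2.2.2.1
  have g3 := h.2.2.2.2.2
  obtain ⟨b1, b2, b3⟩ := h.pent
  have hk := h.k1
  have hl := h.l1
  have hc := h.cm_ne
  have hk' : k⁻¹ ≠ 1 := by simpa using hk
  have hl' : l⁻¹ ≠ 1 := by simpa using hl
  by_cases hm : m = 1
  · subst hm
    exact ⟨fun h' => lt_asymm h'.1 (key_one_lt R hl),
      fun h' => lt_asymm h'.1 (key_one_lt R hc)⟩
  constructor
  · rintro ⟨x1, x2⟩
    rw [cm_inv] at x2
    have hcc : l * k * l⁻¹ * k⁻¹ ≠ 1 := by rw [← cm_inv]; simpa using hc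
    have h2 : ¬ Lk (key R l) (key R (l * k)) (key R 1) (key R m) := by
      have := ck.all l 1
      rwa [one_mul, lo_same] at this
    have h3 : ¬ Lk (key R (l * k)) (key R (l * k * l⁻¹)) (key R 1) (key R m) := by
      have := cl.inv_left.all (l * k) 1
      rwa [one_mul, lo_same] at this
    have h4 : ¬ Lk (key R (l * k * l⁻¹)) (key R (l * k * l⁻¹ * k⁻¹)) (key R 1) (key R m) := by
      have := ck.inv_left.all (l * k * l⁻¹) 1
      rwa [one_mul, lo_same] at this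
    refine pent_d b1 b2 b3 h2 h3 h4 ?_ ?_ (Or.inl ⟨x1, x2⟩)
    · intro e
      have e' : m = l * k := key_inj R e
      apply s'
      -- m⁻¹ = P2⁻¹ P0 lies in (l⁻¹, k⁻¹)
      have c1 : cy R (l * k * l⁻¹) 1 l := (Cyc.trans b1 b2).rot.rot
      rw [← cy_mul R (l * k)⁻¹, inv_mul_cancel_left, mul_one] at c1
      have e2 : (l * k)⁻¹ * l = k⁻¹ := by group
      rw [e2, ← e'] at c1
      rcases c1 with c1 | c1 | c1
      · exact Or.inr (Or.inl c1)
      · exact (lt_asymm c1.2 g2).elim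
      · exact (lt_asymm c1.1 g2).elim
    · intro e
      have e' : m = l * k * l⁻¹ := key_inj R e
      apply s'
      have c1 : cy R (l * k * l⁻¹ * k⁻¹) 1 (l * k) := (Cyc.trans b2 b3).rot.rot
      rw [← cy_mul R (l * k * l⁻¹)⁻¹, inv_mul_cancel_left, mul_one] at c1
      have e2 : (l * k * l⁻¹)⁻¹ * (l * k) = l := by group
      rw [e2, ← e'] at c1
      rcases c1 with c1 | c1 | c1
      · exact Or.inr (Or.inr c1)
      · exact (lt_asymm c1.2 g3).elim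
      · exact (lt_asymm c1.1 g3).elim
  · rintro ⟨x1, x2⟩
    -- translate to the vertex P4
    set p4 := l * k * l⁻¹ * k⁻¹ with hp4
    have h2 : ¬ Lk (key R 1) (key R l) (key R p4) (key R (p4 * m)) := by
      have := cl.all 1 p4
      rwa [one_mul, lo_same] at this
    have h3 : ¬ Lk (key R l) (key R (l * k)) (key R p4) (key R (p4 * m)) := by
      have := ck.all l p4
      rwa [lo_same] at this
    have h4 : ¬ Lk (key R (l * k)) (key R (l * k * l⁻¹)) (key R p4) (key R (p4 * m)) := by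
      have := cl.inv_left.all (l * k) p4
      rwa [lo_same] at this
    have hpc : p4 * cm k l = 1 := by rw [hp4]; unfold cm; group
    have hpk : p4 * k = l * k * l⁻¹ := by rw [hp4]; group
    have y : cy R 1 (p4 * m) (l * k * l⁻¹) := by
      rw [← hpc, ← hpk, cy_mul]
      exact Or.inl ⟨x1, x2⟩
    refine pent_e b1 b2 b3 h2 h3 h4 ?_ ?_ y
    · intro e
      have e' : p4 * m = l := key_inj R e
      apply s'
      -- m⁻¹ = l⁻¹ p4 lies in (k, l⁻¹)
      have c1 : cy R (l * k) p4 1 := by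
        have c2 : cy R 1 (l * k) p4 := Cyc.trans b2 b3
        exact c2.rot
      rw [← cy_mul R l⁻¹, mul_one] at c1
      have e2 : l⁻¹ * (l * k) = k := by group
      have e3 : l⁻¹ * p4 = m⁻¹ := by rw [← e']; group
      rw [e2, e3] at c1
      rcases c1 with c1 | c1 | c1
      · exact Or.inl c1
      · exact (lt_asymm c1.2 g1).elim
      · exact (lt_asymm c1.1 g1).elim
    · intro e
      have e' : p4 * m = l * k := key_inj R e
      apply s'
      -- m⁻¹ = (l k)⁻¹ p4 lies in (l⁻¹, k⁻¹)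
      have c1 : cy R (l * k * l⁻¹) p4 l := by
        have c2 : cy R 1 l (l * k * l⁻¹) := Cyc.trans b1 b2
        have c3 : cy R l (l * k * l⁻¹) p4 := Cyc.trans' c2 b3
        exact c3.rot
      rw [← cy_mul R (l * k)⁻¹, inv_mul_cancel_left] at c1
      have e2 : (l * k)⁻¹ * l = k⁻¹ := by group
      have e3 : (l * k)⁻¹ * p4 = m⁻¹ := by rw [← e']; group
      rw [e2, e3] at c1
      rcases c1 with c1 | c1 | c1
      · exact Or.inr (Or.inl c1)
      · exact (lt_asymm c1.2 g2).elim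
      · exact (lt_asymm c1.1 g2).elim

end pent

/-! ### arcs at different gaps, pushed to one gap -/

theorem cmp_one {R : Rib α} {i j : ℕ} {k m : FreeGroup α} (h : Cmp R i k j m) :
    Cmp R 0 k 0 m := by
  intro g hg
  apply h g
  rw [lo_same] at hg
  have aux : ∀ {p q r : FreeGroup α} {a b c : ℕ}, Cyc (key R p) (key R q) (key R r) →
      co R (p, a) (q, b) (r, c) := fun h' => (co_iff R).2 (Or.inl h')
  rcases hg with ⟨h1, h2⟩ | ⟨h1, h2⟩
  · exact Or.inl ⟨aux h1, aux h2⟩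
  · exact Or.inr ⟨aux h1, aux h2⟩

/-- germs at the gap `i` come before the germs at the gap `j`, for `i < j` -/
theorem germ_lt {R : Rib α} {i j : ℕ} {k m : FreeGroup α} (hij : i < j) (hk : k ≠ 1)
    (hm : m ≠ 1) (h : Cmp R i k j m) : key R k < key R m := by
  by_contra hcon
  have h0 := h 1
  rw [one_mul] at h0
  apply h0
  -- order: (1,j) (1,i) (m,j) (k,i)
  have hle : key R m ≤ key R k := not_lt.1 hcon
  have o1 : okey R (1, j) < okey R (1, i) := (okey_lt R).2 (Or.inr ⟨rfl, hij⟩)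
  have o2 : okey R (1, i) < okey R (m, j) := (okey_lt R).2 (Or.inl (key_one_lt R hm))
  have o3 : okey R (m, j) < okey R (k, i) := by
    rcases lt_or_eq_of_le hle with h' | h'
    · exact (okey_lt R).2 (Or.inl h')
    · exact (okey_lt R).2 (Or.inr ⟨key_inj R h', hij⟩)
  unfold Lo Lk Cyc
  right
  exact ⟨Or.inl ⟨o2, o3⟩, Or.inr (Or.inl ⟨o1, o2.trans o3⟩)⟩

end Pool.Agent.TOR.H59
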