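import Pool.Agent.Helper59_TOR.Sur

/-! TOR, algebraic model, part 8: bases of compatible arcs; the cyclic order is the order of the
planar Cayley tree of the new basis. -/

set_option autoImplicit false

namespace Pool.Agent.TOR.H59

open FreeGroup

variable {α : Type} [DecidableEq α]

theorem lo_same (R : Rib α) (i : ℕ) (a b c d : FreeGroup α) :
    Lo R (a, i) (b, i) (c, i) (d, i) ↔ Lk (key R a) (key R b) (key R c) (key R d) := by
  rw [lo_def]
  simp only [co_same]
  exact Iff.rfl

theorem key_ne {R : Rib α} {g h : FreeGroup α} (e : g ≠ h) : key R g ≠ key R h :=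
  fun h' => e (key_inj R h')

/-- same side of a chord -/
theorem same_side {R : Rib α} {i : ℕ} {a b c d : FreeGroup α} (h : ¬ Lo R (a, i) (b, i) (c, i) (d, i))
    (h1 : c ≠ a) (h2 : c ≠ b) (h3 : d ≠ a) (h4 : d ≠ b) (h5 : a ≠ b) :
    cy R a c b ↔ cy R a d b := by
  rw [lo_same, lk_iff (key_ne h1) (key_ne h2) (key_ne h3) (key_ne h4) (key_ne h5), not_not] at h
  exact h

/-- the images of the basis under `ψ` are pairwise compatible arcs -/
def CB (R : Rib α) (ψ : MulAut (FreeGroup α)) : Prop :=
  ∀ a b : α, Cmp R 0 (ψ (FreeGroup.of a)) 0 (ψ (FreeGroup.of b))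

omit [DecidableEq α] in
theorem lt_cases (ψ : MulAut (FreeGroup α)) (l : α × Bool) :
    ψ (lt l) = ψ (FreeGroup.of l.1) ∨ ψ (lt l) = (ψ (FreeGroup.of l.1))⁻¹ := by
  obtain ⟨a, b⟩ := l
  cases b
  · right
    rw [← _root_.map_inv]
    congr 1
  · left; rfl

theorem CB.letters {R : Rib α} {ψ : MulAut (FreeGroup α)} (h : CB R ψ) (l l' : α × Bool) :
    Cmp R 0 (ψ (lt l)) 0 (ψ (lt l')) := by
  rcases lt_cases ψ l with e | e <;> rcases lt_cases ψ l' with e' | e' <;> rw [e, e']
  · exact h _ _
  · exact (h _ _).inv_right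
  · exact (h _ _).inv_left
  · exact (h _ _).inv_left.inv_right

theorem lt_ne_one (l : α × Bool) : lt l ≠ 1 := by
  intro h
  have h1 := congrArg FreeGroup.toWord h
  rw [lt, FreeGroup.toWord_mk, FreeGroup.toWord_one,
    (FreeGroup.IsReduced.singleton (a := l)).reduce_eq] at h1
  simp at h1

/-- a path of the new tree which avoids the ends of an edge stays on one side of the edge -/
theorem side_path {R : Rib α} {ψ : MulAut (FreeGroup α)} (hψ : CB R ψ) (g : FreeGroup α)
    (a : α × Bool) : ∀ (W : List (α × Bool)) (h0 : FreeGroup α),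
    (∀ V U, W = V ++ U → h0 * ψ (FreeGroup.mk V) ≠ g ∧
      h0 * ψ (FreeGroup.mk V) ≠ g * ψ (lt a)) →
    (cy R g h0 (g * ψ (lt a)) ↔ cy R g (h0 * ψ (FreeGroup.mk W)) (g * ψ (lt a))) := by
  intro W
  induction W with
  | nil =>
    intro h0 _
    rw [← FreeGroup.one_eq_mk, _root_.map_one, mul_one]
  | cons c W ih =>
    intro h0 hav
    have e0 := hav [] (c :: W) rfl
    have e1 := hav [c] W rfl
    rw [← FreeGroup.one_eq_mk, _root_.map_one, mul_one] at e0
    have hne : g ≠ g * ψ (lt a) := by
      intro h
      have h1 : ψ (lt a) = 1 := by simpa using h.symm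
      exact lt_ne_one a ((MulEquiv.map_eq_one_iff ψ).1 h1)
    have h2 := same_side ((hψ.letters a c).all g h0) e0.1 e0.2 e1.1 e1.2 hne
    have e3 : FreeGroup.mk (c :: W) = lt c * FreeGroup.mk W := by
      rw [lt, FreeGroup.mul_mk]; rfl
    rw [h2, e3, _root_.map_mul, ← mul_assoc]
    apply ih
    intro V U hVU
    have := hav (c :: V) U (by rw [hVU]; rfl)
    have e4 : FreeGroup.mk (c :: V) = lt c * FreeGroup.mk V := by
      rw [lt, FreeGroup.mul_mk]; rfl
    rw [e4, _root_.map_mul, ← mul_assoc] at this
    exact this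

theorem mk_inj_red {U V : List (α × Bool)} (hU : FreeGroup.IsReduced U)
    (hV : FreeGroup.IsReduced V) (h : FreeGroup.mk U = FreeGroup.mk V) : U = V := by
  have := congrArg FreeGroup.toWord h
  rwa [FreeGroup.toWord_mk, FreeGroup.toWord_mk, hU.reduce_eq, hV.reduce_eq] at this

theorem psi_inj_red {ψ : MulAut (FreeGroup α)} {U V : List (α × Bool)}
    (hU : FreeGroup.IsReduced U) (hV : FreeGroup.IsReduced V)
    (h : ψ (FreeGroup.mk U) = ψ (FreeGroup.mk V)) : U = V :=
  mk_inj_red hU hV ((MulEquiv.injective ψ) h)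

/-- first step: all words starting with `l'` are on the same side of the chord `{1, l}` -/
theorem head_side {R : Rib α} {ψ : MulAut (FreeGroup α)} (hψ : CB R ψ) {l l' : α × Bool}
    (hl : l ≠ l') {u : List (α × Bool)} (hu : FreeGroup.IsReduced (l' :: u)) :
    key R (ψ (lt l)) < key R (ψ (lt l')) ↔
      key R (ψ (lt l)) < key R (ψ (FreeGroup.mk (l' :: u))) := by
  have e3 : FreeGroup.mk (l' :: u) = lt l' * FreeGroup.mk u := by
    rw [lt, FreeGroup.mul_mk]; rfl
  have h1 := side_path hψ 1 l u (ψ (lt l')) (by
    intro V U hVU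
    have r1 : FreeGroup.IsReduced (l' :: V) := by
      have : l' :: u = (l' :: V) ++ U := by rw [hVU]; rfl
      exact red_l (this ▸ hu)
    have e4 : ψ (lt l') * ψ (FreeGroup.mk V) = ψ (FreeGroup.mk (l' :: V)) := by
      rw [← _root_.map_mul, lt, FreeGroup.mul_mk]; rfl
    rw [e4]
    constructor
    · intro h
      rw [← _root_.map_one ψ, FreeGroup.one_eq_mk] at h
      have := psi_inj_red r1 FreeGroup.IsReduced.nil h
      simp at this
    · rw [one_mul]
      intro h
      have := psi_inj_red r1 FreeGroup.IsReduced.singleton h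
      simp only [List.cons.injEq] at this
      exact hl this.1.symm)
  rw [one_mul, ← _root_.map_mul, ← e3] at h1
  have n1 : ψ (lt l') ≠ 1 := fun h => lt_ne_one l' ((MulEquiv.map_eq_one_iff ψ).1 h)
  have n2 : ψ (lt l) ≠ 1 := fun h => lt_ne_one l ((MulEquiv.map_eq_one_iff ψ).1 h)
  have n3 : ψ (FreeGroup.mk (l' :: u)) ≠ 1 := by
    intro h
    rw [← _root_.map_one ψ, FreeGroup.one_eq_mk] at h
    have := psi_inj_red hu FreeGroup.IsReduced.nil h
    simp at this
  rw [cy_one R n1 n2, cy_one R n3 n2] at h1
  have m1 : key R (ψ (lt l')) ≠ key R (ψ (lt l)) := by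
    apply key_ne
    intro h
    have := psi_inj_red FreeGroup.IsReduced.singleton FreeGroup.IsReduced.singleton h
    simp only [List.cons.injEq, and_true] at this
    exact hl this.symm
  have m2 : key R (ψ (FreeGroup.mk (l' :: u))) ≠ key R (ψ (lt l)) := by
    apply key_ne
    intro h
    have := psi_inj_red hu FreeGroup.IsReduced.singleton h
    simp only [List.cons.injEq] at this
    exact hl this.1.symm
  constructor
  · intro h
    exact lt_of_le_of_ne (not_lt.1 (fun h' => lt_asymm h (h1.2 h'))) m2.symm
  · intro h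
    exact lt_of_le_of_ne (not_lt.1 (fun h' => lt_asymm h (h1.1 h'))) m1.symm

/-- comparison of two words with different first letters -/
theorem head_cmp_aux {R : Rib α} {ψ : MulAut (FreeGroup α)} (hψ : CB R ψ) {l l' : α × Bool}
    (hl : l ≠ l') {u u' : List (α × Bool)} (hu : FreeGroup.IsReduced (l :: u))
    (hu' : FreeGroup.IsReduced (l' :: u'))
    (h : key R (ψ (lt l)) < key R (ψ (lt l'))) :
    key R (ψ (FreeGroup.mk (l :: u))) < key R (ψ (FreeGroup.mk (l' :: u'))) := by
  induction u using List.reverseRecOn with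
  | nil => exact (head_side hψ hl hu').1 h
  | append_singleton u a ih =>
    have e1 : l :: (u ++ [a]) = (l :: u) ++ [a] := rfl
    have r1 : FreeGroup.IsReduced (l :: u) := red_l (e1 ▸ hu)
    have h1 := ih r1
    set g := ψ (FreeGroup.mk (l :: u)) with hg
    have e2 : ψ (FreeGroup.mk (l :: (u ++ [a]))) = g * ψ (lt a) := by
      rw [hg, ← _root_.map_mul, lt, FreeGroup.mul_mk]; rfl
    have h2 := side_path hψ g a (l' :: u') 1 (by
      intro V U hVU
      rw [one_mul, ← e2]
      have hV : FreeGroup.IsReduced V := red_l (hVU ▸ hu')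
      have hh : ∀ x, V ≠ l :: x := by
        intro x hx
        rw [hx] at hVU
        simp only [List.cons_append, List.cons.injEq] at hVU
        exact hl hVU.1.symm
      exact ⟨fun h => hh _ (psi_inj_red hV r1 h), fun h => hh _ (psi_inj_red hV hu h)⟩)
    rw [one_mul, ← e2] at h2
    have n1 : g ≠ 1 := by
      intro h
      rw [hg, ← _root_.map_one ψ, FreeGroup.one_eq_mk] at h
      have := psi_inj_red r1 FreeGroup.IsReduced.nil h
      simp at this
    have n2 : ψ (FreeGroup.mk (l :: (u ++ [a]))) ≠ 1 := by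
      intro h
      rw [← _root_.map_one ψ, FreeGroup.one_eq_mk] at h
      have := psi_inj_red hu FreeGroup.IsReduced.nil h
      simp at this
    have n3 : ψ (FreeGroup.mk (l' :: u')) ≠ 1 := by
      intro h
      rw [← _root_.map_one ψ, FreeGroup.one_eq_mk] at h
      have := psi_inj_red hu' FreeGroup.IsReduced.nil h
      simp at this
    have n4 : ψ (FreeGroup.mk (l' :: u')) ≠ ψ (FreeGroup.mk (l :: (u ++ [a]))) := by
      intro h
      have := psi_inj_red hu' hu h
      simp only [List.cons.injEq] at this
      exact hl this.1.symm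
    have k1 := key_one_lt R n1
    have k2 := key_one_lt R n2
    have k3 := key_one_lt R n3
    have k4 := key_ne (R := R) n4
    unfold cy at h2
    generalize key R 1 = o at *
    generalize key R g = x at *
    generalize key R (ψ (FreeGroup.mk (l :: (u ++ [a])))) = y at *
    generalize key R (ψ (FreeGroup.mk (l' :: u'))) = z at *
    by_contra hcon
    have hzy : z < y := lt_of_le_of_ne (not_lt.1 hcon) k4
    unfold Cyc at h2
    have : (x < o ∧ o < y ∨ o < y ∧ y < x ∨ y < x ∧ x < o) := h2.2 (Or.inl ⟨h1, hzy⟩)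
    rcases this with h | h | h
    · exact lt_asymm h.1 k1
    · exact lt_asymm h.2 (h1.trans hzy)
    · exact lt_asymm h.2 k1

theorem head_cmp {R : Rib α} {ψ : MulAut (FreeGroup α)} (hψ : CB R ψ) {l l' : α × Bool}
    (hl : l ≠ l') {u u' : List (α × Bool)} (hu : FreeGroup.IsReduced (l :: u))
    (hu' : FreeGroup.IsReduced (l' :: u')) :
    key R (ψ (lt l)) < key R (ψ (lt l')) ↔
    key R (ψ (FreeGroup.mk (l :: u))) < key R (ψ (FreeGroup.mk (l' :: u'))) := by
  constructor
  · exact head_cmp_aux hψ hl hu hu'
  · intro h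
    by_contra hcon
    have m1 : key R (ψ (lt l)) ≠ key R (ψ (lt l')) := by
      apply key_ne
      intro h
      have := psi_inj_red FreeGroup.IsReduced.singleton FreeGroup.IsReduced.singleton h
      simp only [List.cons.injEq, and_true] at this
      exact hl this
    have h1 : key R (ψ (lt l')) < key R (ψ (lt l)) := lt_of_le_of_ne (not_lt.1 hcon) m1.symm
    exact lt_asymm h (head_cmp_aux hψ hl.symm hu' hu h1)

/-! ### the new fat graph -/

variable [Fintype α]

/-- the ranks of the new letters -/
noncomputable def nr (R : Rib α) (ψ : MulAut (FreeGroup α)) (l : α × Bool) : ℕ :=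
  (Finset.univ.filter (fun l' : α × Bool => key R (ψ (lt l')) ≤ key R (ψ (lt l)))).card

theorem nr_lt {R : Rib α} {ψ : MulAut (FreeGroup α)} {l l' : α × Bool} :
    nr R ψ l < nr R ψ l' ↔ key R (ψ (lt l)) < key R (ψ (lt l')) := by
  have mono : ∀ {l l' : α × Bool}, key R (ψ (lt l)) ≤ key R (ψ (lt l')) →
      nr R ψ l ≤ nr R ψ l' := by
    intro l l' h
    unfold nr
    apply Finset.card_le_card
    intro x hx
    simp only [Finset.mem_filter, Finset.mem_univ, true_and] at *
    exact hx.trans h
  constructor
  · intro h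
    by_contra hcon
    exact absurd h (not_lt.2 (mono (not_lt.1 hcon)))
  · intro h
    unfold nr
    apply Finset.card_lt_card
    refine ⟨?_, ?_⟩
    · intro x hx
      simp only [Finset.mem_filter, Finset.mem_univ, true_and] at *
      exact hx.trans h.le
    · intro hcon
      have := hcon (show l' ∈ _ by simp)
      simp only [Finset.mem_filter, Finset.mem_univ, true_and] at this
      exact absurd h (not_lt.2 this)

theorem nr_inj (R : Rib α) (ψ : MulAut (FreeGroup α)) : Function.Injective (nr R ψ) := by
  intro l l' h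
  have h1 : key R (ψ (lt l)) = key R (ψ (lt l')) := by
    apply le_antisymm
    · rw [← not_lt, ← nr_lt, h]; exact lt_irrefl _
    · rw [← not_lt, ← nr_lt, h]; exact lt_irrefl _
  have h2 := psi_inj_red FreeGroup.IsReduced.singleton FreeGroup.IsReduced.singleton
    (key_inj R h1)
  simpa using h2

/-- the fat graph of the new basis -/
noncomputable def nR (R : Rib α) (ψ : MulAut (FreeGroup α)) : Rib α where
  N := Fintype.card (α × Bool)
  r := nr R ψ
  inj := nr_inj R ψ
  pos := by
    intro l
    unfold nr
    apply Finset.card_pos.2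
    exact ⟨l, by simp⟩
  le := by
    intro l
    unfold nr
    exact Finset.card_le_univ _

/-- every rank is attained -/
def Full (R : Rib α) : Prop := ∀ i, 1 ≤ i → i ≤ R.N → ∃ l, R.r l = i

theorem full_new (R : Rib α) (ψ : MulAut (FreeGroup α)) : Full (nR R ψ) := by
  intro i h1 h2
  have h3 : Finset.univ.image (nR R ψ).r = Finset.Icc 1 (nR R ψ).N := by
    apply Finset.eq_of_subset_of_card_le
    · intro x hx
      simp only [Finset.mem_image, Finset.mem_univ, true_and] at hx
      obtain ⟨l, rfl⟩ := hx
      exact Finset.mem_Icc.2 ⟨(nR R ψ).pos l, (nR R ψ).le l⟩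
    · rw [Finset.card_image_of_injective _ (nR R ψ).inj, Nat.card_Icc]
      show Fintype.card (α × Bool) + 1 - 1 ≤ Fintype.card (α × Bool)
      omega
  have h4 : i ∈ Finset.univ.image (nR R ψ).r := by
    rw [h3]; exact Finset.mem_Icc.2 ⟨h1, h2⟩
  simp only [Finset.mem_image, Finset.mem_univ, true_and] at h4
  exact h4

omit [Fintype α] in
theorem mk_toWord_cons {p : FreeGroup α} {l : α × Bool} {w : List (α × Bool)}
    (h : p.toWord = l :: w) : p = FreeGroup.mk (l :: w) ∧ FreeGroup.IsReduced (l :: w) := by
  refine ⟨?_, ?_⟩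
  · rw [← h, FreeGroup.mk_toWord]
  · rw [← h]; exact FreeGroup.isReduced_toWord

theorem cmp_head {R : Rib α} {ψ : MulAut (FreeGroup α)} (hψ : CB R ψ) {p q : FreeGroup α}
    (h : p.toWord.head? ≠ q.toWord.head?) :
    hr (nR R ψ) p.toWord < hr (nR R ψ) q.toWord ↔ key R (ψ p) < key R (ψ q) := by
  cases hp : p.toWord with
  | nil =>
    have p1 : p = 1 := FreeGroup.toWord_eq_nil_iff.1 hp
    cases hq : q.toWord with
    | nil => rw [hp, hq] at h; exact (h rfl).elim
    | cons l' u' =>
      have q1 : q ≠ 1 := by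
        intro h'; rw [h', FreeGroup.toWord_one] at hq; simp at hq
      have q2 : ψ q ≠ 1 := fun h => q1 ((MulEquiv.map_eq_one_iff ψ).1 h)
      rw [p1, _root_.map_one]
      exact ⟨fun _ => key_one_lt R q2, fun _ => (nR R ψ).pos l'⟩
  | cons l u =>
    obtain ⟨hp1, hp2⟩ := mk_toWord_cons hp
    cases hq : q.toWord with
    | nil =>
      have q1 : q = 1 := FreeGroup.toWord_eq_nil_iff.1 hq
      have p1 : p ≠ 1 := by
        intro h'; rw [h', FreeGroup.toWord_one] at hp; simp at hp
      have p2 : ψ p ≠ 1 := fun h => p1 ((MulEquiv.map_eq_one_iff ψ).1 h)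
      rw [q1, _root_.map_one]
      exact ⟨fun h => (Nat.not_lt_zero _ h).elim, fun h => (lt_asymm h (key_one_lt R p2)).elim⟩
    | cons l' u' =>
      obtain ⟨hq1, hq2⟩ := mk_toWord_cons hq
      have hl : l ≠ l' := by
        intro h'; rw [hp, hq, h'] at h; exact h rfl
      rw [hp1, hq1, ← head_cmp hψ hl hp2 hq2]
      exact nr_lt

omit [Fintype α] in
theorem toWord_length_lt_mul (l : α × Bool) (g : FreeGroup α) :
    (lt l * g).toWord.length ≤ g.toWord.length + 1 := by
  rcases word_cases l g with ⟨_, h⟩ | ⟨w, _, h1, h2⟩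
  · rw [h]; simp
  · rw [h1, h2]; simp; omega

theorem cy_new_aux {R : Rib α} {ψ : MulAut (FreeGroup α)} (hψ : CB R ψ) :
    ∀ (n : ℕ) (p q r : FreeGroup α), p.toWord.length + q.toWord.length + r.toWord.length = n →
      (cy (nR R ψ) p q r ↔ cy R (ψ p) (ψ q) (ψ r)) := by
  intro n
  induction n using Nat.strong_induction_on with
  | _ n ih =>
    have share : ∀ p q r : FreeGroup α,
        p.toWord.length + q.toWord.length + r.toWord.length = n →
        p.toWord.head? = q.toWord.head? →
        (cy (nR R ψ) p q r ↔ cy R (ψ p) (ψ q) (ψ r)) := by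
      intro p q r hn hpq
      cases hp : p.toWord with
      | nil =>
        have hq : q.toWord = [] := by
          rw [hp] at hpq
          simpa using hpq.symm
        have p1 : p = 1 := FreeGroup.toWord_eq_nil_iff.1 hp
        have q1 : q = 1 := FreeGroup.toWord_eq_nil_iff.1 hq
        rw [p1, q1]
        exact ⟨fun h => (h.ne12 rfl).elim, fun h => (h.ne12 rfl).elim⟩
      | cons l u =>
        obtain ⟨u', hq⟩ : ∃ u', q.toWord = l :: u' := by
          rw [hp] at hpq
          cases hq : q.toWord with
          | nil => rw [hq] at hpq; simp at hpq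
          | cons l' u' =>
            rw [hq] at hpq
            simp only [List.head?_cons, Option.some.injEq] at hpq
            exact ⟨u', by rw [hpq]⟩
        have ep : (lt (iv l) * p).toWord = u := by
          rcases word_cases (iv l) p with ⟨h1, _⟩ | ⟨w, _, h1, h2⟩
          · rw [iv_iv] at h1
            exact (h1 (by rw [hp]; rfl)).elim
          · rw [h2]; rw [iv_iv, hp] at h1; simpa using h1.symm
        have eq : (lt (iv l) * q).toWord = u' := by
          rcases word_cases (iv l) q with ⟨h1, _⟩ | ⟨w, _, h1, h2⟩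
          · rw [iv_iv] at h1
            exact (h1 (by rw [hq]; rfl)).elim
          · rw [h2]; rw [iv_iv, hq] at h1; simpa using h1.symm
        have er := toWord_length_lt_mul (iv l) r
        rw [hp, hq] at hn
        simp only [List.length_cons] at hn
        have := ih _ (by rw [ep, eq]; omega) (lt (iv l) * p) (lt (iv l) * q) (lt (iv l) * r) rfl
        rw [cy_mul, _root_.map_mul, _root_.map_mul, _root_.map_mul, cy_mul] at this
        exact this
    intro p q r hn
    by_cases e1 : p.toWord.head? = q.toWord.head?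
    · exact share p q r hn e1
    by_cases e2 : q.toWord.head? = r.toWord.head?
    · rw [cy_rot, @cy_rot _ _ R]
      exact share q r p (by omega) e2
    by_cases e3 : r.toWord.head? = p.toWord.head?
    · rw [cy_rot, cy_rot, @cy_rot _ _ R, @cy_rot _ _ R]
      exact share r p q (by omega) e3
    have c1 := cmp_head hψ e1
    have c2 := cmp_head hψ e2
    have c3 := cmp_head hψ e3
    have ne {p q : FreeGroup α} (h : p.toWord.head? ≠ q.toWord.head?) :
        hr (nR R ψ) p.toWord ≠ hr (nR R ψ) q.toWord := by
      intro h'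
      apply h
      cases hp : p.toWord with
      | nil =>
        cases hq : q.toWord with
        | nil => rfl
        | cons l' u' =>
          rw [hp, hq] at h'
          have := (nR R ψ).pos l'
          simp only [hr] at h'
          omega
      | cons l u =>
        cases hq : q.toWord with
        | nil =>
          rw [hp, hq] at h'
          have := (nR R ψ).pos l
          simp only [hr] at h'
          omega
        | cons l' u' =>
          rw [hp, hq] at h'
          simp only [hr] at h'
          rw [(nR R ψ).inj h']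
          rfl
    have l1 : cy (nR R ψ) p q r ↔ Cyc (hr (nR R ψ) p.toWord) (hr (nR R ψ) q.toWord)
        (hr (nR R ψ) r.toWord) := by
      unfold cy key
      rw [kf_eq, kf_eq, kf_eq, rel_zero, rel_zero, rel_zero, cyc_cons_ne (ne e1) (ne e2) (ne e3)]
    rw [l1]
    unfold cy Cyc
    rw [c1, c2, c3]

/-- the cyclic order is the order of the planar Cayley tree of the new basis -/
theorem cy_new {R : Rib α} {ψ : MulAut (FreeGroup α)} (hψ : CB R ψ) (p q r : FreeGroup α) :
    cy (nR R ψ) p q r ↔ cy R (ψ p) (ψ q) (ψ r) := cy_new_aux hψ _ p q r rfl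

end Pool.Agent.TOR.H59
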