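import Pool.Agent.Helper59_TOR.Ord

/-! TOR, algebraic model, part 2: successor, rigidity. -/

set_option autoImplicit false

namespace Pool.Agent.TOR.H59

open FreeGroup

variable {α : Type}

/-- `Z` is the boundary word of the base circle, started in the corner after the direction `b` -/
def Bd (R : Rib α) : ℕ → List (α × Bool) → Prop
  | b, [] => b = R.N
  | b, l :: w => R.r l = b + 1 ∧ Bd R (R.r (iv l)) w

/-- all entries of the key are positive -/
def Adm (R : Rib α) : ℕ → List (α × Bool) → Prop
  | b, [] => 1 ≤ b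
  | b, l :: w => R.r l ≠ b ∧ Adm R (R.r (iv l)) w

theorem kf_le (R : Rib α) : ∀ (Z w : List (α × Bool)) (b : ℕ), b ≤ R.N → Bd R b Z → Adm R b w →
    kf R b Z ≤ kf R b w
  | [], [], b, hb, h, hw => le_refl _
  | [], l :: w, b, hb, h, hw => by
      have h1 : b = R.N := h
      have h2 := R.le l
      have h3 := hw.1
      have h4 := R.pos l
      subst h1
      apply le_of_lt
      simp only [kf, List.cons_lt_cons_iff]
      left
      unfold rel
      split_ifs <;> omega
  | l :: Z, [], b, hb, h, hw => by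
      have h1 : R.r l = b + 1 := h.1
      have h2 := R.le l
      have h3 : 1 ≤ b := hw
      apply le_of_lt
      simp only [kf, List.cons_lt_cons_iff]
      left
      unfold rel
      split_ifs <;> omega
  | l :: Z, l' :: w, b, hb, h, hw => by
      have h1 : R.r l = b + 1 := h.1
      by_cases e : R.r l' = b + 1
      · have e' : l' = l := R.inj (e.trans h1.symm)
        subst e'
        exact List.cons_le_cons _ (kf_le R Z w _ (R.le _) h.2 hw.2)
      · apply le_of_lt
        have h2 := R.le l
        have h3 := R.le l'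
        have h4 := hw.1
        simp only [kf, List.cons_lt_cons_iff]
        left
        unfold rel
        split_ifs <;> omega

theorem red_l {L1 L2 : List (α × Bool)} (h : FreeGroup.IsReduced (L1 ++ L2)) :
    FreeGroup.IsReduced L1 := (List.isChain_append.mp h).1

theorem red_r {L1 L2 : List (α × Bool)} (h : FreeGroup.IsReduced (L1 ++ L2)) :
    FreeGroup.IsReduced L2 := (List.isChain_append.mp h).2.1

theorem adm_of_reduced (R : Rib α) : ∀ (w : List (α × Bool)) (l : α × Bool),
    FreeGroup.IsReduced (l :: w) → Adm R (R.r (iv l)) w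
  | [], l, _ => R.pos _
  | a :: w, l, h => by
      rw [FreeGroup.isReduced_cons_cons] at h
      refine ⟨?_, adm_of_reduced R w a h.2⟩
      intro e
      have e := R.inj e
      subst e
      have := h.1 rfl
      simp [iv] at this

theorem adm_root (R : Rib α) {w : List (α × Bool)} (h : FreeGroup.IsReduced w) (hw : w ≠ []) :
    Adm R 0 w := by
  cases w with
  | nil => exact (hw rfl).elim
  | cons l w => exact ⟨by have := R.pos l; omega, adm_of_reduced R w l h⟩

theorem bd_reduced (R : Rib α) : ∀ (Z : List (α × Bool)) (b : ℕ), Bd R b Z →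
    FreeGroup.IsReduced Z
  | [], _, _ => FreeGroup.IsReduced.nil
  | [l], _, _ => FreeGroup.IsReduced.singleton
  | l :: l' :: Z, b, h => by
      rw [FreeGroup.isReduced_cons_cons]
      refine ⟨?_, bd_reduced R (l' :: Z) _ h.2⟩
      intro e
      by_contra e'
      have : l' = iv l := by
        ext
        · exact e.symm
        · simp only [iv]
          cases h1 : l.2 <;> cases h2 : l'.2 <;> simp_all
      have h3 := h.2.1
      rw [this] at h3
      omega

variable [DecidableEq α]

theorem toWord_mk_bd (R : Rib α) {Z : List (α × Bool)} (h : Bd R 0 Z) :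
    (FreeGroup.mk Z).toWord = Z := by
  rw [FreeGroup.toWord_mk, (bd_reduced R Z 0 h).reduce_eq]

theorem key_one_lt (R : Rib α) {h : FreeGroup α} (hh : h ≠ 1) : key R 1 < key R h := by
  have h1 : h.toWord ≠ [] := by rwa [Ne, FreeGroup.toWord_eq_nil_iff]
  unfold key
  rw [FreeGroup.toWord_one]
  cases hw : h.toWord with
  | nil => exact (h1 hw).elim
  | cons l w =>
    simp only [kf, rel_zero, List.cons_lt_cons_iff]
    left
    exact R.pos l

/-- the successor of `g` is `g * mk Z` -/
theorem no_between (R : Rib α) {Z : List (α × Bool)} (hZ : Bd R 0 Z) (g h : FreeGroup α) :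
    ¬ cy R g h (g * FreeGroup.mk Z) := by
  have h0 : ∀ h : FreeGroup α, ¬ cy R 1 h (FreeGroup.mk Z) := by
    intro h hc
    by_cases e : h = 1
    · subst e; exact hc.ne12 rfl
    · have h1 : h.toWord ≠ [] := by rwa [Ne, FreeGroup.toWord_eq_nil_iff]
      have h2 := kf_le R Z h.toWord 0 (Nat.zero_le _) hZ
        (adm_root R FreeGroup.isReduced_toWord h1)
      have h3 : key R (FreeGroup.mk Z) ≤ key R h := by
        unfold key; rw [toWord_mk_bd R hZ]; exact h2
      have h4 : key R 1 < key R h := key_one_lt R e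
      rcases hc with hc | hc | hc
      · exact absurd hc.2 (not_lt.mpr h3)
      · exact lt_asymm (hc.1.trans hc.2) h4 |>.elim
      · by_cases e2 : FreeGroup.mk Z = 1
        · rw [e2] at hc; exact lt_irrefl _ hc.1
        · exact lt_asymm hc.1 (key_one_lt R e2)
  intro hc
  have h1 := (cy_mul R g⁻¹ g h (g * FreeGroup.mk Z)).2 hc
  rw [inv_mul_cancel, inv_mul_cancel_left] at h1
  exact h0 _ h1

/-! ### rigidity -/

/-- almost invariant subsets -/
def AI (X : Set (FreeGroup α)) : Prop := ∀ s : FreeGroup α, {g | ¬ (g ∈ X ↔ g * s ∈ X)}.Finite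

/-- the letter `l` points away from the root at the end of the word `W` -/
def Out (W : List (α × Bool)) (l : α × Bool) : Prop := W.getLast? ≠ some (iv l)

omit [DecidableEq α] in
theorem red_append {W : List (α × Bool)} {l : α × Bool} {u : List (α × Bool)}
    (hW : FreeGroup.IsReduced W) (hu : FreeGroup.IsReduced (l :: u)) (ho : Out W l) :
    FreeGroup.IsReduced (W ++ l :: u) := by
  unfold FreeGroup.IsReduced at *
  rw [List.isChain_append]
  refine ⟨hW, hu, ?_⟩
  intro x hx y hy
  simp only [List.head?_cons, Option.mem_def, Option.some.injEq] at hy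
  subst hy
  intro e
  by_contra e'
  apply ho
  rw [hx]
  congr 1
  ext
  · exact e
  · simp only [iv]
    cases h1 : l.2 <;> cases h2 : x.2 <;> simp_all

omit [DecidableEq α] in
/-- splitting the boundary word at a letter: predecessor -/
theorem bd_pred (R : Rib α) : ∀ (Z : List (α × Bool)) (b : ℕ) (l : α × Bool), Bd R b Z → l ∈ Z →
    (∃ V, Z = l :: V ∧ R.r l = b + 1) ∨
      ∃ U m V, Z = U ++ m :: l :: V ∧ R.r l = R.r (iv m) + 1
  | [], _, _, _, h => by simp at h
  | a :: Z, b, l, hb, h => by
      by_cases e : l = a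
      · subst e; exact Or.inl ⟨Z, rfl, hb.1⟩
      · have h' : l ∈ Z := by simpa [e] using h
        rcases bd_pred R Z _ l hb.2 h' with ⟨V, h1, h2⟩ | ⟨U, m, V, h1, h2⟩
        · exact Or.inr ⟨[], a, V, by simp [h1], h2⟩
        · exact Or.inr ⟨a :: U, m, V, by simp [h1], h2⟩

omit [DecidableEq α] in
/-- splitting the boundary word at a letter: successor -/
theorem bd_succ (R : Rib α) : ∀ (Z : List (α × Bool)) (b : ℕ) (m : α × Bool), Bd R b Z → m ∈ Z →
    (∃ U, Z = U ++ [m] ∧ R.r (iv m) = R.N) ∨
      ∃ U l V, Z = U ++ m :: l :: V ∧ R.r l = R.r (iv m) + 1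
  | [], _, _, _, h => by simp at h
  | a :: Z, b, m, hb, h => by
      by_cases e : m = a
      · subst e
        cases Z with
        | nil => exact Or.inl ⟨[], rfl, hb.2⟩
        | cons l V => exact Or.inr ⟨[], l, V, rfl, hb.2.1⟩
      · have h' : m ∈ Z := by simpa [e] using h
        rcases bd_succ R Z _ m hb.2 h' with ⟨U, h1, h2⟩ | ⟨U, l, V, h1, h2⟩
        · exact Or.inl ⟨a :: U, by simp [h1], h2⟩
        · exact Or.inr ⟨a :: U, l, V, by simp [h1], h2⟩

section Rigid
variable (R : Rib α) {Z : List (α × Bool)} (hZ : Bd R 0 Z) (hall : ∀ l, l ∈ Z)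
  {X : Set (FreeGroup α)} (hX : ∀ g, g ∈ X ↔ g * FreeGroup.mk Z ∈ X)
  {W : List (α × Bool)} (hW : FreeGroup.IsReduced W)
  (hB : ∀ (l : α × Bool) (u : List (α × Bool)), FreeGroup.IsReduced (W ++ l :: u) →
    (FreeGroup.mk (W ++ l :: u) ∈ X ↔ FreeGroup.mk (W ++ [l]) ∈ X))

include hZ hX hW hB

/-- one turn around the vertex -/
theorem turn {U V : List (α × Bool)} {m l : α × Bool} (e : Z = U ++ m :: l :: V)
    (h1 : Out W (iv m)) (h2 : Out W l) :
    FreeGroup.mk (W ++ [iv m]) ∈ X ↔ FreeGroup.mk (W ++ [l]) ∈ X := by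
  have rZ := bd_reduced R Z 0 hZ
  have e' : Z = (U ++ [m]) ++ l :: V := by rw [e]; simp
  have r1 : FreeGroup.IsReduced (l :: V) := red_r (e' ▸ rZ)
  have r2 : FreeGroup.IsReduced (U ++ [m]) := red_l (e' ▸ rZ)
  have r3 : FreeGroup.IsReduced (iv m :: FreeGroup.invRev U) := by
    have h3 : FreeGroup.IsReduced (FreeGroup.invRev (U ++ [m])) := by
      rw [FreeGroup.isReduced_iff_reduce_eq, FreeGroup.reduce_invRev, r2.reduce_eq]
    have e3 : FreeGroup.invRev (U ++ [m]) = iv m :: FreeGroup.invRev U := by
      simp [FreeGroup.invRev, iv]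
    rwa [e3] at h3
  have b1 := hB _ _ (red_append hW r3 h1)
  have b2 := hB _ _ (red_append hW r1 h2)
  rw [← b1, ← b2]
  have e4 : FreeGroup.mk (W ++ iv m :: FreeGroup.invRev U) * FreeGroup.mk Z =
      FreeGroup.mk (W ++ l :: V) := by
    have e5 : FreeGroup.mk (W ++ iv m :: FreeGroup.invRev U) =
        FreeGroup.mk W * (FreeGroup.mk (U ++ [m]))⁻¹ := by
      rw [FreeGroup.inv_mk, FreeGroup.mul_mk]
      simp [FreeGroup.invRev, iv]
    have e6 : FreeGroup.mk Z = FreeGroup.mk (U ++ [m]) * FreeGroup.mk (l :: V) := by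
      rw [FreeGroup.mul_mk, e]; simp
    have e7 : FreeGroup.mk (W ++ l :: V) = FreeGroup.mk W * FreeGroup.mk (l :: V) := by
      rw [FreeGroup.mul_mk]
    rw [e5, e6, e7, mul_assoc, inv_mul_cancel_left]
  rw [hX, e4]

/-- directions below the way back -/
theorem up {b : ℕ} (hb : ∀ l, R.r l < b → Out W l) (hall : ∀ l, l ∈ Z) :
    ∀ (i : ℕ) (l : α × Bool), R.r l = i → i < b →
      (FreeGroup.mk (W ++ [l]) ∈ X ↔ FreeGroup.mk W ∈ X) := by
  intro i
  induction i using Nat.strong_induction_on with
  | _ i ih =>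
    intro l hl hi
    rcases bd_pred R Z 0 l hZ (hall l) with ⟨V, h1, h2⟩ | ⟨U, m, V, h1, h2⟩
    · have ho : Out W l := hb l (by omega)
      have r1 : FreeGroup.IsReduced (l :: V) := h1 ▸ bd_reduced R Z 0 hZ
      have b1 := hB _ _ (red_append hW r1 ho)
      rw [← b1, hX (FreeGroup.mk W), FreeGroup.mul_mk, h1]
    · have t := turn R hZ hX hW hB h1 (hb _ (by omega)) (hb _ (by omega))
      rw [← t]
      exact ih _ (by omega) _ rfl (by omega)

/-- directions above the way back -/
theorem down {b : ℕ} (hb : ∀ l, b < R.r l → Out W l) (hall : ∀ l, l ∈ Z) :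
    ∀ (i : ℕ) (l : α × Bool), R.N - R.r l = i → b < R.r l →
      (FreeGroup.mk (W ++ [l]) ∈ X ↔ FreeGroup.mk W ∈ X) := by
  intro i
  induction i using Nat.strong_induction_on with
  | _ i ih =>
    intro l hl hi
    rcases bd_succ R Z 0 (iv l) hZ (hall _) with ⟨U, h1, h2⟩ | ⟨U, l', V, h1, h2⟩
    · have ho : Out W l := hb l (by omega)
      have r1 : FreeGroup.IsReduced (l :: FreeGroup.invRev U) := by
        have h3 : FreeGroup.IsReduced (FreeGroup.invRev Z) := by
          rw [FreeGroup.isReduced_iff_reduce_eq, FreeGroup.reduce_invRev,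
            (bd_reduced R Z 0 hZ).reduce_eq]
        have e3 : FreeGroup.invRev Z = l :: FreeGroup.invRev U := by
          simp [h1, FreeGroup.invRev, iv]
        rwa [e3] at h3
      have b1 := hB _ _ (red_append hW r1 ho)
      rw [← b1, hX]
      have e5 : FreeGroup.mk (W ++ l :: FreeGroup.invRev U) * FreeGroup.mk Z =
          FreeGroup.mk W := by
        have e6 : FreeGroup.mk (W ++ l :: FreeGroup.invRev U) =
            FreeGroup.mk W * (FreeGroup.mk Z)⁻¹ := by
          rw [FreeGroup.inv_mk, FreeGroup.mul_mk]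
          simp [h1, FreeGroup.invRev, iv]
        rw [e6, inv_mul_cancel_right]
      rw [e5]
    · rw [iv_iv] at h2
      have hN := R.le l'
      have t := turn R hZ hX hW hB h1 (by rw [iv_iv]; exact hb _ (by omega)) (hb _ (by omega))
      rw [iv_iv] at t
      rw [t]
      exact ih _ (by omega) _ rfl (by omega)

theorem around (hall : ∀ l, l ∈ Z) (l : α × Bool) (ho : Out W l) :
    FreeGroup.mk (W ++ [l]) ∈ X ↔ FreeGroup.mk W ∈ X := by
  rcases hg : W.getLast? with _ | a
  · exact up R hZ hX hW hB (b := R.N + 1) (fun l _ => by unfold Out; rw [hg]; simp) hall _ l rfl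
      (by have := R.le l; omega)
  · have hne : ∀ l', R.r l' ≠ R.r (iv a) → Out W l' := by
      intro l' h h'
      rw [hg, Option.some.injEq] at h'
      apply h
      rw [h', iv_iv]
    have h1 : R.r l ≠ R.r (iv a) := by
      intro h
      have := R.inj h
      apply ho
      rw [hg, this, iv_iv]
    rcases lt_or_gt_of_ne h1 with h2 | h2
    · exact up R hZ hX hW hB (b := R.r (iv a)) (fun l' h' => hne l' h'.ne) hall _ l rfl h2
    · exact down R hZ hX hW hB (b := R.r (iv a)) (fun l' h' => hne l' h'.ne') hall _ l rfl h2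

end Rigid

/-- RIGIDITY: an almost invariant set which is invariant under the boundary word is trivial -/
theorem rigid [Finite α] (R : Rib α) {Z : List (α × Bool)} (hZ : Bd R 0 Z) (hall : ∀ l, l ∈ Z)
    {X : Set (FreeGroup α)} (hA : AI X) (hX : ∀ g, g ∈ X ↔ g * FreeGroup.mk Z ∈ X)
    (g h : FreeGroup α) : g ∈ X ↔ h ∈ X := by
  -- no bad edges
  have main : ∀ (W : List (α × Bool)) (l : α × Bool), FreeGroup.IsReduced W → Out W l →
      (FreeGroup.mk (W ++ [l]) ∈ X ↔ FreeGroup.mk W ∈ X) := by
    by_contra hcon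
    push Not at hcon
    obtain ⟨W0, l0, hW0, ho0, hb0⟩ := hcon
    let S : Set (List (α × Bool)) := {W | FreeGroup.IsReduced W ∧ ∃ l, Out W l ∧
      ¬ (FreeGroup.mk (W ++ [l]) ∈ X ↔ FreeGroup.mk W ∈ X)}
    have hSf : S.Finite := by
      have hf : (⋃ l : α × Bool, {g | ¬ (g ∈ X ↔ g * lt l ∈ X)}).Finite :=
        Set.finite_iUnion (fun l => hA (lt l))
      refine Set.Finite.subset (hf.image FreeGroup.toWord) ?_
      rintro W ⟨hW, l, ho, hl⟩
      refine ⟨FreeGroup.mk W, ?_, ?_⟩
      · rw [Set.mem_iUnion]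
        refine ⟨l, ?_⟩
        intro hh
        apply hl
        have : FreeGroup.mk (W ++ [l]) = FreeGroup.mk W * lt l := by
          rw [lt, FreeGroup.mul_mk]
        rw [this]
        exact hh.symm
      · rw [FreeGroup.toWord_mk, hW.reduce_eq]
    have hSne : S.Nonempty := ⟨W0, hW0, l0, ho0, by tauto⟩
    obtain ⟨W, hWS, hmax⟩ := hSf.exists_maximalFor List.length S hSne
    obtain ⟨hW, l, ho, hl⟩ := hWS
    apply hl
    refine around R hZ hX hW ?_ hall l ho
    intro l' u
    induction u using List.reverseRecOn with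
    | nil => intro _; exact Iff.rfl
    | append_singleton u a ih =>
      intro hr
      have hr' : FreeGroup.IsReduced (W ++ l' :: u) :=
        red_l (L2 := [a]) (by simpa using hr)
      rw [← ih hr']
      by_contra hne
      have hin : (W ++ l' :: u) ∈ S := by
        refine ⟨hr', a, ?_, ?_⟩
        · intro h'
          unfold FreeGroup.IsReduced at hr
          have e : W ++ l' :: (u ++ [a]) = (W ++ l' :: u) ++ [a] := by simp
          rw [e, List.isChain_append] at hr
          have := hr.2.2 _ h' a (by simp)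
          have := this rfl
          simp [iv] at this
        · simpa using hne
      have h1 : W.length ≤ (W ++ l' :: u).length := by simp
      have h2 := hmax hin h1
      simp at h2
  have h1 : ∀ W : List (α × Bool), FreeGroup.IsReduced W →
      (FreeGroup.mk W ∈ X ↔ (1 : FreeGroup α) ∈ X) := by
    intro W
    induction W using List.reverseRecOn with
    | nil => intro _; rw [FreeGroup.one_eq_mk]
    | append_singleton W a ih =>
      intro hr
      have hr' : FreeGroup.IsReduced W := red_l hr
      rw [main W a hr' ?_, ih hr']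
      intro h'
      unfold FreeGroup.IsReduced at hr
      rw [List.isChain_append] at hr
      have := hr.2.2 _ h' a (by simp)
      have := this rfl
      simp [iv] at this
  have h2 := h1 g.toWord FreeGroup.isReduced_toWord
  have h3 := h1 h.toWord FreeGroup.isReduced_toWord
  rw [FreeGroup.mk_toWord] at h2 h3
  rw [h2, h3]

end Pool.Agent.TOR.H59
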