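import Pool.Agent.Helper59_TOR.Std

/-! TOR, algebraic model, part 6: surgery of an arc at the prescribed end of a reference arc. -/

set_option autoImplicit false

namespace Pool.Agent.TOR.H59

open FreeGroup

/-! ### the surgery lemmas in a linear order (proved by grind) -/

section ord
variable {β : Type*} [LinearOrder β]

/-- the chord `(u,v)` is not nearer to `r` than `(p,q)` -/
def Mn (r s p q u v : β) : Prop :=
  Cyc r u s → Cyc s v r → ¬ Cyc r u p ∧ (u = p → ¬ Cyc q v r)

theorem sg_one {r s p q u v : β} (h1 : Cyc r p s) (h2 : Cyc s q r) (h3 : ¬ Lk p q u v)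
    (m1 : Mn r s p q u v) (m2 : Mn r s p q v u) : ¬ Lk r p u v ∧ ¬ Lk r q u v := by
  unfold Lk Mn Cyc at *
  grind

theorem sg_tau {r s p q u v : β} (h1 : Cyc r p s) (h2 : Cyc s q r) (h3 : ¬ Lk p q u v)
    (h4 : ¬ Lk r s u v) : ¬ Lk r p u v ∧ ¬ Lk r q u v := by
  unfold Lk Cyc at *
  grind

theorem sg_self {r s p q r' s' p' q' : β}
    (h1 : Cyc r p s) (h2 : Cyc s q r) (h1' : Cyc r' p' s') (h2' : Cyc s' q' r')
    (hq : q ≠ q')
    (n1 : ¬ Lk r s r' s') (n2 : ¬ Lk p q p' q')
    (m1 : Mn r s p q p' q') (m2 : Mn r s p q q' p')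
    (m1' : Mn r' s' p' q' p q) (m2' : Mn r' s' p' q' q p) : ¬ Lk r p r' p' := by
  unfold Lk Mn Cyc at *
  grind

theorem sg_self' {r s p q r' s' p' q' : β}
    (h1 : Cyc r p s) (h2 : Cyc s q r) (h1' : Cyc r' p' s') (h2' : Cyc s' q' r')
    (hp : p ≠ p')
    (n1 : ¬ Lk r s r' s') (n2 : ¬ Lk p q p' q')
    (m1 : Mn r s p q p' q') (m2 : Mn r s p q q' p')
    (m1' : Mn r' s' p' q' p q) (m2' : Mn r' s' p' q' q p) : ¬ Lk r q r' q' := by
  unfold Lk Mn Cyc at *
  grind

/-- crossings with the chords `(u,v)` compatible with the reference arc do not increase -/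
theorem sg_cross {r s p q u v : β} (h1 : Cyc r p s) (h2 : Cyc s q r) (h3 : ¬ Lk r s u v) :
    (Lk u v r p → Lk u v p q) ∧ (Lk u v r q → Lk u v p q) := by
  unfold Lk Cyc at *
  grind

end ord

/-! ### surgery in the group -/

variable {α : Type} [DecidableEq α]

/-- `(g, g k)` is a chord of the family `L` (closed under inverses) which crosses the reference
chord `(1, e)` (all at the gap `i`), nearest to the end `1` -/
structure Sg (R : Rib α) (i : ℕ) (e : FreeGroup α) (L : Set (FreeGroup α)) (g k : FreeGroup α) :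
    Prop where
  mem : k ∈ L
  h1 : co R (1, i) (g, i) (e, i)
  h2 : co R (e, i) (g * k, i) (1, i)
  mn : ∀ g' k', k' ∈ L → co R (1, i) (g', i) (e, i) → co R (e, i) (g' * k', i) (1, i) →
    ¬ co R (1, i) (g', i) (g, i) ∧ (g' = g → ¬ co R (g * k, i) (g' * k', i) (1, i))

theorem key_lt_of_co {R : Rib α} {i : ℕ} {a b : FreeGroup α} (h : co R (1, i) (a, i) (b, i)) :
    key R a < key R b := by
  rw [co_same] at h
  have ha : a ≠ 1 := by rintro rfl; exact h.ne12 rfl
  have hb : b ≠ 1 := by rintro rfl; exact h.ne31 rfl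
  exact (cy_one R ha hb).1 h

theorem exists_sg (R : Rib α) (i : ℕ) (e : FreeGroup α) (L : Set (FreeGroup α)) (hL : L.Finite)
    (hinv : ∀ k ∈ L, k⁻¹ ∈ L)
    (hex : ∃ g k, k ∈ L ∧ Lo R (1, i) (e, i) (g, i) (g * k, i)) :
    ∃ g k, Sg R i e L g k := by
  let X : Set (FreeGroup α × FreeGroup α) := {x | x.2 ∈ L ∧ co R (1, i) (x.1, i) (e, i) ∧
    co R (e, i) (x.1 * x.2, i) (1, i)}
  have hXf : X.Finite := by
    have h1 : (⋃ k ∈ L, (fun g => (g, k)) ''
        {g | Lo R (1, i) (e, i) (mv g (1, i)) (mv g (k, i))}).Finite := by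
      refine Set.Finite.biUnion hL (fun k _ => ?_)
      exact (lo_finite R (1, i) (e, i) (1, i) (k, i) rfl).image _
    refine h1.subset ?_
    rintro ⟨g, k⟩ ⟨h2, h3, h4⟩
    simp only [Set.mem_iUnion, Set.mem_image, Set.mem_ofPred_eq, Prod.mk.injEq]
    refine ⟨k, h2, g, ?_, rfl, rfl⟩
    simp only [mv_mk, mul_one]
    exact Or.inl ⟨h3, h4⟩
  have hXn : X.Nonempty := by
    obtain ⟨g, k, hk, h⟩ := hex
    rcases h with ⟨h1, h2⟩ | ⟨h1, h2⟩
    · exact ⟨(g, k), hk, h1, h2⟩
    · refine ⟨(g * k, k⁻¹), hinv k hk, h1, ?_⟩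
      show co R (e, i) (g * k * k⁻¹, i) (1, i)
      rw [mul_inv_cancel_right]
      exact h2
  let f : FreeGroup α × FreeGroup α → List ℕ ×ₗ (List ℕ)ᵒᵈ :=
    fun x => toLex (key R x.1, OrderDual.toDual (key R (x.1 * x.2)))
  obtain ⟨x, hx, hmin⟩ := hXf.exists_minimalFor f X hXn
  refine ⟨x.1, x.2, hx.1, hx.2.1, hx.2.2, ?_⟩
  intro g' k' hk' h1 h2
  have hx' : (g', k') ∈ X := ⟨hk', h1, h2⟩
  constructor
  · intro h3
    have h4 : f (g', k') < f x := by
      rw [Prod.Lex.toLex_lt_toLex]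
      exact Or.inl (key_lt_of_co h3)
    exact absurd (hmin hx' h4.le) (not_le.mpr h4)
  · rintro rfl h3
    have h5 : key R (x.1 * x.2) < key R (x.1 * k') := key_lt_of_co (i := i) h3.rot.rot
    have h4 : f (x.1, k') < f x := by
      rw [Prod.Lex.toLex_lt_toLex]
      exact Or.inr ⟨rfl, h5⟩
    exact absurd (hmin hx' h4.le) (not_le.mpr h4)

section surg
variable {R : Rib α} {i : ℕ} {e : FreeGroup α} {L : Set (FreeGroup α)} {g k : FreeGroup α}
  (hs : Sg R i e L g k) (hinv : ∀ k ∈ L, k⁻¹ ∈ L)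
include hs hinv

theorem Sg.mn_chord {m : FreeGroup α} (hm : m ∈ L) (h : FreeGroup α) :
    Mn (okey R (1, i)) (okey R (e, i)) (okey R (g, i)) (okey R (g * k, i))
      (okey R (h, i)) (okey R (h * m, i)) := by
  intro h1 h2
  obtain ⟨h3, h4⟩ := hs.mn h m hm h1 h2
  refine ⟨h3, fun h5 => h4 ?_⟩
  exact congrArg Prod.fst (okey_inj R h5)

theorem Sg.mn_chord' {m : FreeGroup α} (hm : m ∈ L) (h : FreeGroup α) :
    Mn (okey R (1, i)) (okey R (e, i)) (okey R (g, i)) (okey R (g * k, i))
      (okey R (h * m, i)) (okey R (h, i)) := by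
  have := hs.mn_chord hinv (hinv m hm) (h * m)
  rwa [mul_inv_cancel_right] at this

/-- compatibility of the two new arcs with the members of the family compatible with `k` -/
theorem Sg.cmp_mem {m : FreeGroup α} (hm : m ∈ L) (hc : Cmp R i k i m) :
    Cmp R i g i m ∧ Cmp R i (g * k) i m := by
  have key1 : ∀ h : FreeGroup α, ¬ Lo R (1, i) (g, i) (h, i) (h * m, i) ∧
      ¬ Lo R (1, i) (g * k, i) (h, i) (h * m, i) := by
    intro h
    exact sg_one hs.h1 hs.h2 (hc.all g h) (hs.mn_chord hinv hm h) (hs.mn_chord' hinv hm h)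
  exact ⟨fun h => (key1 h).1, fun h => (key1 h).2⟩

omit hinv in
/-- compatibility of the two new arcs with the arcs compatible with `k` and with the reference
arc -/
theorem Sg.cmp_tau {j : ℕ} {m : FreeGroup α} (hc : Cmp R i k j m) (he : Cmp R i e j m) :
    Cmp R i g j m ∧ Cmp R i (g * k) j m := by
  have key1 : ∀ h : FreeGroup α, ¬ Lo R (1, i) (g, i) (h, j) (h * m, j) ∧
      ¬ Lo R (1, i) (g * k, i) (h, j) (h * m, j) := by
    intro h
    exact sg_tau hs.h1 hs.h2 (hc.all g h) (he h)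
  exact ⟨fun h => (key1 h).1, fun h => (key1 h).2⟩

/-- self-compatibility of the two new arcs -/
theorem Sg.cmp_self (hkk : Cmp R i k i k) (hee : Cmp R i e i e) :
    Cmp R i g i g ∧ Cmp R i (g * k) i (g * k) := by
  have key1 : ∀ h : FreeGroup α, ¬ Lo R (1, i) (g, i) (h, i) (h * g, i) ∧
      ¬ Lo R (1, i) (g * k, i) (h, i) (h * (g * k), i) := by
    intro h
    by_cases h1 : h = 1
    · subst h1
      rw [one_mul, one_mul]
      exact ⟨not_lk_self' _ _, not_lk_self' _ _⟩
    have tr : ∀ {a b c : Om α}, co R a b c → co R (mv h a) (mv h b) (mv h c) :=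
      fun h' => (co_mv R h _ _ _).2 h'
    have a1 := tr hs.h1
    have a2 := tr hs.h2
    simp only [mv_mk, mul_one] at a1 a2
    have b1 : ∀ g' : FreeGroup α, ¬ g' = h * g' := fun g' h' => h1 (by simpa using h'.symm)
    have ne : ∀ g' : FreeGroup α, okey R (g', i) ≠ okey R (h * g', i) := fun g' h' =>
      b1 g' (congrArg Prod.fst (okey_inj R h'))
    have n1 := hee h
    have n2 := hkk.all g (h * g)
    rw [mul_assoc] at n2
    have m1 := hs.mn_chord hinv hs.mem (h * g)
    have m2 := hs.mn_chord' hinv hs.mem (h * g)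
    rw [mul_assoc] at m1 m2
    -- translate the minimality
    have trM : ∀ {u v : FreeGroup α}, Mn (okey R (1, i)) (okey R (e, i)) (okey R (g, i))
        (okey R (g * k, i)) (okey R (h⁻¹ * u, i)) (okey R (h⁻¹ * v, i)) →
        Mn (okey R (h, i)) (okey R (h * e, i)) (okey R (h * g, i))
        (okey R (h * (g * k), i)) (okey R (u, i)) (okey R (v, i)) := by
      intro u v hM c1 c2
      have tr' : ∀ {a b c : Om α}, co R a b c → co R (mv h⁻¹ a) (mv h⁻¹ b) (mv h⁻¹ c) :=
        fun h' => (co_mv R h⁻¹ _ _ _).2 h'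
      have c3 := tr' c1
      have c4 := tr' c2
      simp only [mv_mk, inv_mul_cancel, inv_mul_cancel_left] at c3 c4
      obtain ⟨d1, d2⟩ := hM c3 c4
      constructor
      · intro c5
        have c6 := tr' c5
        simp only [mv_mk, inv_mul_cancel, inv_mul_cancel_left] at c6
        exact d1 c6
      · intro c5 c6
        have c7 := congrArg Prod.fst (okey_inj R c5)
        simp only at c7
        have c8 := tr' c6
        simp only [mv_mk, inv_mul_cancel, inv_mul_cancel_left] at c8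
        exact d2 (by rw [c7, inv_mul_cancel_left]) c8
    have m3 := hs.mn_chord hinv hs.mem (h⁻¹ * g)
    have m4 := hs.mn_chord' hinv hs.mem (h⁻¹ * g)
    rw [mul_assoc] at m3 m4
    have m5 := trM m3
    have m6 := trM m4
    exact ⟨sg_self hs.h1 hs.h2 a1 a2 (ne _) n1 n2 m1 m2 m5 m6,
      sg_self' hs.h1 hs.h2 a1 a2 (ne _) n1 n2 m1 m2 m5 m6⟩
  exact ⟨fun h => (key1 h).1, fun h => (key1 h).2⟩

end surg

/-- number of crossings of the arc `m` at the gap `j` with the arc `k` at the gap `i` -/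
noncomputable def cr (R : Rib α) (j : ℕ) (m : FreeGroup α) (i : ℕ) (k : FreeGroup α) : ℕ :=
  {h | Lo R (1, j) (m, j) (h, i) (h * k, i)}.ncard

theorem cr_finite (R : Rib α) (j : ℕ) (m : FreeGroup α) (i : ℕ) (k : FreeGroup α) :
    {h | Lo R (1, j) (m, j) (h, i) (h * k, i)}.Finite := by
  have := lo_finite R (1, j) (m, j) (1, i) (k, i) rfl
  simpa only [mv_mk, mul_one] using this

theorem cr_inv (R : Rib α) (j : ℕ) (m : FreeGroup α) (i : ℕ) (k : FreeGroup α) :
    cr R j m i k⁻¹ = cr R j m i k := by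
  unfold cr
  refine Set.ncard_congr (fun h _ => h * k⁻¹) ?_ ?_ ?_
  · intro h hh
    simp only [Set.mem_ofPred_eq] at *
    rw [lo_swap', inv_mul_cancel_right]
    exact hh
  · intro a b _ _ h
    exact mul_right_cancel h
  · intro b hb
    refine ⟨b * k, ?_, by simp⟩
    simp only [Set.mem_ofPred_eq] at *
    rw [lo_swap', mul_inv_cancel_right]
    exact hb

theorem cr_eq_zero {R : Rib α} {j : ℕ} {m : FreeGroup α} {i : ℕ} {k : FreeGroup α} :
    cr R j m i k = 0 ↔ Cmp R j m i k := by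
  unfold cr
  rw [Set.ncard_eq_zero (cr_finite R j m i k), Set.eq_empty_iff_forall_notMem]
  exact Iff.rfl

section surg2
variable {R : Rib α} {i : ℕ} {e : FreeGroup α} {L : Set (FreeGroup α)} {g k : FreeGroup α}
  (hs : Sg R i e L g k)
include hs

/-- crossings with an arc compatible with the reference arc -/
theorem Sg.cr_le {j : ℕ} {m : FreeGroup α} (he : Cmp R i e j m) :
    cr R j m i g ≤ cr R j m i k ∧ cr R j m i (g * k) ≤ cr R j m i k := by
  have main : ∀ h : FreeGroup α,
      (Lo R (1, j) (m, j) (h, i) (h * g, i) → Lo R (1, j) (m, j) (h * g, i) (h * g * k, i)) ∧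
      (Lo R (1, j) (m, j) (h, i) (h * (g * k), i) →
        Lo R (1, j) (m, j) (h * g, i) (h * g * k, i)) := by
    intro h
    have a1 := (co_mv R h _ _ _).2 hs.h1
    have a2 := (co_mv R h _ _ _).2 hs.h2
    simp only [mv_mk, mul_one] at a1 a2
    have n : ¬ Lo R (h, i) (h * e, i) (1, j) (m, j) := by
      have := he.all h 1
      rwa [one_mul] at this
    have := sg_cross a1 a2 n
    rw [mul_assoc]
    exact this
  unfold cr
  constructor
  · refine Set.ncard_le_ncard_of_injOn (fun h => h * g) ?_ ?_ (cr_finite R j m i k)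
    · intro h hh
      exact (main h).1 hh
    · intro a _ b _ h
      exact mul_right_cancel h
  · refine Set.ncard_le_ncard_of_injOn (fun h => h * g) ?_ ?_ (cr_finite R j m i k)
    · intro h hh
      exact (main h).2 hh
    · intro a _ b _ h
      exact mul_right_cancel h

/-- crossings with the reference arc decrease -/
theorem Sg.cr_lt (hee : Cmp R i e i e) :
    cr R i e i g < cr R i e i k ∧ cr R i e i (g * k) < cr R i e i k := by
  have main : ∀ h : FreeGroup α,
      (Lo R (1, i) (e, i) (h, i) (h * g, i) → Lo R (1, i) (e, i) (h * g, i) (h * g * k, i)) ∧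
      (Lo R (1, i) (e, i) (h, i) (h * (g * k), i) →
        Lo R (1, i) (e, i) (h * g, i) (h * g * k, i)) := by
    intro h
    have a1 := (co_mv R h _ _ _).2 hs.h1
    have a2 := (co_mv R h _ _ _).2 hs.h2
    simp only [mv_mk, mul_one] at a1 a2
    have n : ¬ Lo R (h, i) (h * e, i) (1, i) (e, i) := by
      have := hee.all h 1
      rwa [one_mul] at this
    have := sg_cross a1 a2 n
    rw [mul_assoc]
    exact this
  have hin : Lo R (1, i) (e, i) (g, i) (g * k, i) := Or.inl ⟨hs.h1, hs.h2⟩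
  unfold cr
  constructor
  · have h1 : (fun h => h * g) '' {h | Lo R (1, i) (e, i) (h, i) (h * g, i)} ⊂
        {h | Lo R (1, i) (e, i) (h, i) (h * k, i)} := by
      refine ⟨?_, fun hcon => ?_⟩
      · rintro _ ⟨h, hh, rfl⟩
        exact (main h).1 hh
      · obtain ⟨h, hh, h2⟩ := hcon (show g ∈ _ from hin)
        have h3 : h = 1 := by simpa using h2
        subst h3
        simp only [Set.mem_ofPred_eq] at hh
        exact not_lk_self _ _ _ hh
    have h2 := Set.ncard_lt_ncard h1 (cr_finite R i e i k)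
    rwa [Set.ncard_image_of_injective _ (mul_left_injective g)] at h2
  · have h1 : (fun h => h * g) '' {h | Lo R (1, i) (e, i) (h, i) (h * (g * k), i)} ⊂
        {h | Lo R (1, i) (e, i) (h, i) (h * k, i)} := by
      refine ⟨?_, fun hcon => ?_⟩
      · rintro _ ⟨h, hh, rfl⟩
        exact (main h).2 hh
      · obtain ⟨h, hh, h2⟩ := hcon (show g ∈ _ from hin)
        have h3 : h = 1 := by simpa using h2
        subst h3
        simp only [Set.mem_ofPred_eq] at hh
        exact not_lk_self _ _ _ hh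
    have h2 := Set.ncard_lt_ncard h1 (cr_finite R i e i k)
    rwa [Set.ncard_image_of_injective _ (mul_left_injective g)] at h2

end surg2

end Pool.Agent.TOR.H59
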