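import Pool.Agent.Helper59_TOR.Bdn

/-! TOR, algebraic model, part 10: an arc which is compatible with all edges of the planar tree is
a block of consecutive letters of the boundary word. -/

set_option autoImplicit false

namespace Pool.Agent.TOR.H59

open FreeGroup

variable {α : Type}

theorem full_of_all (R : Rib α) {Z : List (α × Bool)} (hZ : Bd R 0 Z) (hall : ∀ l, l ∈ Z)
    (hne : Z ≠ []) : Full R := by
  have hN : ∃ l, R.r l = R.N := by
    obtain ⟨m, hm⟩ := List.exists_mem_of_ne_nil Z hne
    -- the last letter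
    have : ∀ (Z : List (α × Bool)) (b : ℕ), Z ≠ [] → Bd R b Z → ∃ l, R.r l = R.N := by
      intro Z
      induction Z with
      | nil => intro b h _; exact (h rfl).elim
      | cons l Z ih =>
        intro b _ h
        cases Z with
        | nil => exact ⟨iv l, h.2⟩
        | cons l' Z' => exact ih _ (by simp) h.2
    exact this Z 0 hne hZ
  have down : ∀ i, 1 ≤ i → (∃ l, R.r l = i + 1) → ∃ l, R.r l = i := by
    rintro i hi ⟨l, hl⟩
    rcases bd_pred R Z 0 l hZ (hall l) with ⟨V, _, h2⟩ | ⟨U, m, V, _, h2⟩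
    · omega
    · exact ⟨iv m, by omega⟩
  have main : ∀ d i, 1 ≤ i → i + d = R.N → ∃ l, R.r l = i := by
    intro d
    induction d with
    | zero => intro i _ h; obtain ⟨l, hl⟩ := hN; exact ⟨l, by omega⟩
    | succ d ih => intro i h1 h2; exact down i h1 (ih (i + 1) (by omega) (by omega))
  intro i h1 h2
  exact main (R.N - i) i h1 (by omega)

/-- `w` is a chain: each letter follows the inverse of the previous one in the order of germs -/
def Chn (R : Rib α) : List (α × Bool) → Prop
  | [] => True
  | [_] => True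
  | a :: b :: w => R.r b = R.r (iv a) + 1 ∧ Chn R (b :: w)

/-- a chain is a block of the boundary word -/
theorem block_of_chn (R : Rib α) {Z : List (α × Bool)} (hZ : Bd R 0 Z) :
    ∀ (w : List (α × Bool)) (a : α × Bool) (U V : List (α × Bool)), Z = U ++ a :: V →
      Chn R (a :: w) → ∃ V', Z = U ++ a :: w ++ V' := by
  -- consecutive letters
  have step : ∀ (Z : List (α × Bool)) (b : ℕ), Bd R b Z → ∀ (U : List (α × Bool)) (a : α × Bool)
      (V : List (α × Bool)), Z = U ++ a :: V →
      (V = [] ∧ R.r (iv a) = R.N) ∨ ∃ c V', V = c :: V' ∧ R.r c = R.r (iv a) + 1 := by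
    intro Z
    induction Z with
    | nil => intro b _ U a V h; simp at h
    | cons z Z ih =>
      intro b hb U a V h
      cases U with
      | nil =>
        simp only [List.nil_append, List.cons.injEq] at h
        obtain ⟨h1, h2⟩ := h
        subst h1 h2
        cases Z with
        | nil => exact Or.inl ⟨rfl, hb.2⟩
        | cons c V' => exact Or.inr ⟨c, V', rfl, hb.2.1⟩
      | cons u U =>
        simp only [List.cons_append, List.cons.injEq] at h
        exact ih _ hb.2 U a V h.2
  intro w
  induction w with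
  | nil => intro a U V h _; exact ⟨V, by rw [h]; simp⟩
  | cons b w ih =>
    intro a U V h hc
    rcases step Z 0 hZ U a V h with ⟨_, h2⟩ | ⟨c, V', h1, h2⟩
    · have := R.le b
      have := hc.1
      omega
    · have hcb : c = b := R.inj (h2.trans hc.1.symm)
      subst hcb
      obtain ⟨V'', h3⟩ := ih c (U ++ [a]) V' (by rw [h, h1]; simp) hc.2
      exact ⟨V'', by rw [h3]; simp⟩

variable [DecidableEq α]

theorem inv_mk_snoc (U : List (α × Bool)) (a : α × Bool) :
    (FreeGroup.mk (U ++ [a]))⁻¹ = FreeGroup.mk (iv a :: FreeGroup.invRev U) := by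
  rw [FreeGroup.inv_mk]
  congr 1
  simp [FreeGroup.invRev, iv]

theorem red_inv {U : List (α × Bool)} (h : FreeGroup.IsReduced U) :
    FreeGroup.IsReduced (FreeGroup.invRev U) := by
  rw [FreeGroup.isReduced_iff_reduce_eq, FreeGroup.reduce_invRev, h.reduce_eq]

theorem key_mk {R : Rib α} {U : List (α × Bool)} (h : FreeGroup.IsReduced U) :
    key R (FreeGroup.mk U) = kf R 0 U := by
  unfold key
  rw [FreeGroup.toWord_mk, h.reduce_eq]

theorem red_ne {U : List (α × Bool)} {a b : α × Bool} {V : List (α × Bool)}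
    (hr : FreeGroup.IsReduced (U ++ a :: b :: V)) : b ≠ iv a := by
  have h1 : FreeGroup.IsReduced (a :: b :: V) := red_r hr
  rw [FreeGroup.isReduced_cons_cons] at h1
  rintro rfl
  have := h1.1 rfl
  simp [iv] at this

section vertex
variable (R : Rib α) {U V : List (α × Bool)} {a b : α × Bool}
    (hr : FreeGroup.IsReduced (U ++ a :: b :: V))
include hr

theorem red_back : FreeGroup.IsReduced (iv a :: FreeGroup.invRev U) := by
  have e : U ++ a :: b :: V = (U ++ [a]) ++ (b :: V) := by simp
  have h1 : FreeGroup.IsReduced (U ++ [a]) := red_l (e ▸ hr)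
  have h2 := red_inv h1
  have e3 : FreeGroup.invRev (U ++ [a]) = iv a :: FreeGroup.invRev U := by
    simp [FreeGroup.invRev, iv]
  rwa [e3] at h2

theorem red_forw : FreeGroup.IsReduced (b :: V) := by
  have e : U ++ a :: b :: V = (U ++ [a]) ++ (b :: V) := by simp
  exact red_r (e ▸ hr)

theorem back_forw : (FreeGroup.mk (U ++ [a]))⁻¹ * FreeGroup.mk (U ++ a :: b :: V) =
    FreeGroup.mk (b :: V) := by
  have e : FreeGroup.mk (U ++ a :: b :: V) =
      FreeGroup.mk (U ++ [a]) * FreeGroup.mk (b :: V) := by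
    rw [FreeGroup.mul_mk]; simp
  rw [e, inv_mul_cancel_left]

/-- the position of an inner vertex of the path -/
theorem sw_vertex : cy R 1 (FreeGroup.mk (U ++ [a])) (FreeGroup.mk (U ++ a :: b :: V)) ↔
      R.r b < R.r (iv a) := by
  rw [← cy_mul R (FreeGroup.mk (U ++ [a]))⁻¹, mul_one, inv_mul_cancel, back_forw hr, cy_rot,
    inv_mk_snoc]
  have n1 : FreeGroup.mk (b :: V) ≠ 1 := by
    intro h
    rw [FreeGroup.one_eq_mk] at h
    have := mk_inj_red (red_forw hr) FreeGroup.IsReduced.nil h
    simp at this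
  have n2 : FreeGroup.mk (iv a :: FreeGroup.invRev U) ≠ 1 := by
    intro h
    rw [FreeGroup.one_eq_mk] at h
    have := mk_inj_red (red_back hr) FreeGroup.IsReduced.nil h
    simp at this
  rw [cy_one R n1 n2, key_mk (red_forw hr), key_mk (red_back hr)]
  simp only [kf, rel_zero, List.cons_lt_cons_iff]
  constructor
  · rintro (h | h)
    · exact h
    · exact (red_ne hr (R.inj h.1)).elim
  · exact Or.inl

/-- the position of a germ at an inner vertex -/
theorem sw_germ {c : α × Bool} (hca : c ≠ iv a) (hcb : c ≠ b) :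
    cy R 1 (FreeGroup.mk (U ++ [a]) * lt c) (FreeGroup.mk (U ++ a :: b :: V)) ↔
      Cyc (R.r (iv a)) (R.r c) (R.r b) := by
  rw [← cy_mul R (FreeGroup.mk (U ++ [a]))⁻¹, mul_one, inv_mul_cancel_left, back_forw hr,
    inv_mk_snoc]
  unfold cy
  rw [key_mk (red_back hr), key_mk (red_forw hr), lt, key_mk FreeGroup.IsReduced.singleton]
  simp only [kf, rel_zero]
  rw [cyc_cons_ne (fun h => hca (R.inj h).symm) (fun h => hcb (R.inj h))
    (fun h => red_ne hr (R.inj h))]

/-- the inner vertex and its neighbours are different from the ends of the path -/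
theorem sw_ne : FreeGroup.mk (U ++ [a]) ≠ 1 ∧
    FreeGroup.mk (U ++ [a]) ≠ FreeGroup.mk (U ++ a :: b :: V) := by
  have e : U ++ a :: b :: V = (U ++ [a]) ++ (b :: V) := by simp
  have r1 : FreeGroup.IsReduced (U ++ [a]) := red_l (e ▸ hr)
  constructor
  · intro h
    rw [FreeGroup.one_eq_mk] at h
    have := mk_inj_red r1 FreeGroup.IsReduced.nil h
    simp at this
  · intro h
    have := mk_inj_red r1 hr h
    have := congrArg List.length this
    simp at this

theorem sw_ne' {c : α × Bool} (hca : c ≠ iv a) (hcb : c ≠ b) :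
    FreeGroup.mk (U ++ [a]) * lt c ≠ 1 ∧
    FreeGroup.mk (U ++ [a]) * lt c ≠ FreeGroup.mk (U ++ a :: b :: V) := by
  constructor
  · intro h
    have h1 : lt c = (FreeGroup.mk (U ++ [a]))⁻¹ := eq_inv_of_mul_eq_one_right h
    rw [inv_mk_snoc, lt] at h1
    have := mk_inj_red FreeGroup.IsReduced.singleton (red_back hr) h1
    simp only [List.cons.injEq] at this
    exact hca this.1
  · intro h
    have h1 : lt c = FreeGroup.mk (b :: V) := by
      rw [← back_forw hr, ← h, inv_mul_cancel_left]
    rw [lt] at h1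
    have := mk_inj_red FreeGroup.IsReduced.singleton (red_forw hr) h1
    simp only [List.cons.injEq] at this
    exact hcb this.1

theorem mk_ne_one_of_split : (1 : FreeGroup α) ≠ FreeGroup.mk (U ++ a :: b :: V) := by
  intro h
  rw [FreeGroup.one_eq_mk] at h
  have := mk_inj_red FreeGroup.IsReduced.nil hr h
  simp at this

/-- at an inner vertex nothing can be cut off -/
theorem sw_adj (hF : Full R) (i : ℕ)
    (h : ∀ (g : FreeGroup α) (l : α × Bool),
      ¬ Lo R (1, i) (FreeGroup.mk (U ++ a :: b :: V), i) (g, i) (g * lt l, i)) :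
    (R.r b < R.r (iv a) → R.r (iv a) = R.r b + 1) ∧
      (¬ R.r b < R.r (iv a) → R.r b = R.r (iv a) + 1) := by
  have hab := red_ne hr
  have key1 : ∀ c : α × Bool, c ≠ iv a → c ≠ b →
      (R.r b < R.r (iv a) ↔ Cyc (R.r (iv a)) (R.r c) (R.r b)) := by
    intro c h1 h2
    have n1 := sw_ne hr
    have n2 := sw_ne' hr h1 h2
    have := same_side (h (FreeGroup.mk (U ++ [a])) c) n1.1 n1.2 n2.1 n2.2 (mk_ne_one_of_split hr)
    rw [sw_vertex R hr, sw_germ R hr h1 h2] at this
    exact this
  have hne : R.r b ≠ R.r (iv a) := fun h => hab (R.inj h)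
  have p1 := R.le (iv a)
  have p2 := R.le b
  constructor
  · intro h1
    by_contra hcon
    obtain ⟨c, hc⟩ := hF (R.r b + 1) (by omega) (by omega)
    have c1 : c ≠ iv a := by rintro rfl; omega
    have c2 : c ≠ b := by rintro rfl; omega
    have := (key1 c c1 c2).1 h1
    unfold Cyc at this
    omega
  · intro h1
    by_contra hcon
    obtain ⟨c, hc⟩ := hF (R.r (iv a) + 1) (by omega) (by omega)
    have c1 : c ≠ iv a := by rintro rfl; omega
    have c2 : c ≠ b := by rintro rfl; omega
    have := key1 c c1 c2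
    unfold Cyc at this
    omega

end vertex

theorem chn_of (R : Rib α) : ∀ (w : List (α × Bool)),
    (∀ U a b V, w = U ++ a :: b :: V → R.r b = R.r (iv a) + 1) → Chn R w
  | [], _ => trivial
  | [_], _ => trivial
  | a :: b :: w, h => ⟨h [] a b w rfl, chn_of R (b :: w) (fun U a' b' V e =>
      h (a :: U) a' b' V (by rw [e]; rfl))⟩

/-- SUBWORD LEMMA, chain form -/
theorem sw_chn (R : Rib α) (hF : Full R) (i : ℕ) {w : List (α × Bool)}
    (hw : FreeGroup.IsReduced w)
    (h : ∀ (g : FreeGroup α) (l : α × Bool),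
      ¬ Lo R (1, i) (FreeGroup.mk w, i) (g, i) (g * lt l, i)) :
    Chn R w ∨ Chn R (FreeGroup.invRev w) := by
  -- all inner vertices are on the same side
  have cons : ∀ (U : List (α × Bool)) (a b : α × Bool) (V : List (α × Bool)),
      w = U ++ a :: b :: V → ∀ a0 b0 V0, w = a0 :: b0 :: V0 →
      (R.r b < R.r (iv a) ↔ R.r b0 < R.r (iv a0)) := by
    intro U
    induction U using List.reverseRecOn with
    | nil =>
      intro a b V h1 a0 b0 V0 h2
      rw [h1] at h2
      simp only [List.nil_append, List.cons.injEq] at h2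
      rw [h2.1, h2.2.1]
    | append_singleton U a' ih =>
      intro a b V h1 a0 b0 V0 h2
      have h3 : w = U ++ a' :: a :: (b :: V) := by rw [h1]; simp
      rw [← ih a' a (b :: V) h3 a0 b0 V0 h2]
      have r1 : FreeGroup.IsReduced ((U ++ [a']) ++ a :: b :: V) := h1 ▸ hw
      have r2 : FreeGroup.IsReduced (U ++ a' :: a :: (b :: V)) := h3 ▸ hw
      have n1 := sw_ne r1
      have n2 := sw_ne r2
      have e1 : FreeGroup.mk ((U ++ [a']) ++ [a]) = FreeGroup.mk (U ++ [a']) * lt a := by
        rw [lt, FreeGroup.mul_mk]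
      have h4 := h (FreeGroup.mk (U ++ [a'])) a
      rw [← e1] at h4
      have v1 := sw_vertex R r1
      have v2 := sw_vertex R r2
      rw [← h1] at v1 n1
      rw [← h3] at v2 n2
      have := same_side h4 n2.1 n2.2 n1.1 n1.2 (by rw [h3]; exact mk_ne_one_of_split r2)
      rw [v1, v2] at this
      exact this.symm
  have adj : ∀ (U : List (α × Bool)) (a b : α × Bool) (V : List (α × Bool)),
      w = U ++ a :: b :: V → (R.r b < R.r (iv a) → R.r (iv a) = R.r b + 1) ∧
      (¬ R.r b < R.r (iv a) → R.r b = R.r (iv a) + 1) := by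
    intro U a b V h1
    exact sw_adj R (h1 ▸ hw) hF i (h1 ▸ h)
  match hw0 : w with
  | [] => exact Or.inl trivial
  | [_] => exact Or.inl trivial
  | a0 :: b0 :: V0 =>
    by_cases hs : R.r b0 < R.r (iv a0)
    · right
      apply chn_of
      intro U a b V hU
      have h5 : w = FreeGroup.invRev V ++ iv b :: iv a :: FreeGroup.invRev U := by
        have h6 : FreeGroup.invRev (FreeGroup.invRev w) = w := FreeGroup.invRev_invRev
        rw [← h6, hw0, hU]
        simp [FreeGroup.invRev, iv]
      rw [hw0] at h5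
      have h7 := (cons _ _ _ _ h5 a0 b0 V0 rfl).2 hs
      have h8 := (adj _ _ _ _ h5).1 h7
      rwa [iv_iv] at h8
    · left
      apply chn_of
      intro U a b V hU
      have h7 := (not_congr (cons _ _ _ _ hU a0 b0 V0 rfl)).2 hs
      exact (adj _ _ _ _ hU).2 h7

/-- SUBWORD LEMMA: an arc compatible with all edges of the planar tree is a block of consecutive
letters of the boundary word, or the inverse of such a block -/
theorem sw (S : Srf α) (i : ℕ) {k : FreeGroup α} (hk : k ≠ 1)
    (h : ∀ (g : FreeGroup α) (l : α × Bool), ¬ Lo S.R (1, i) (k, i) (g, i) (g * lt l, i)) :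
    ∃ U V, S.Z = U ++ k.toWord ++ V ∨ S.Z = U ++ k⁻¹.toWord ++ V := by
  have hne : S.Z ≠ [] := by
    intro h'
    apply S.ne
    rw [h', FreeGroup.one_eq_mk]
  have hF := full_of_all S.R S.bd S.all hne
  rw [← FreeGroup.mk_toWord (x := k)] at h
  have main : ∀ w : List (α × Bool), w ≠ [] → Chn S.R w → ∃ U V, S.Z = U ++ w ++ V := by
    intro w hw hc
    obtain ⟨a, w, rfl⟩ := List.exists_cons_of_ne_nil hw
    obtain ⟨U, V, hUV⟩ := List.append_of_mem (S.all a)
    obtain ⟨V', hV'⟩ := block_of_chn S.R S.bd w a U V hUV hc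
    exact ⟨U, V', hV'⟩
  have hkw : k.toWord ≠ [] := by rwa [Ne, FreeGroup.toWord_eq_nil_iff]
  rcases sw_chn S.R hF i FreeGroup.isReduced_toWord h with h1 | h1
  · obtain ⟨U, V, h2⟩ := main _ hkw h1
    exact ⟨U, V, Or.inl h2⟩
  · rw [← FreeGroup.toWord_inv] at h1
    have hkw' : k⁻¹.toWord ≠ [] := by
      rw [Ne, FreeGroup.toWord_eq_nil_iff]; simpa using hk
    obtain ⟨U, V, h2⟩ := main _ hkw' h1
    exact ⟨U, V, Or.inr h2⟩

end Pool.Agent.TOR.H59
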