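import Pool.Agent.Helper59_TOR.Sw
import Pool.Agent.Helper29_TOR.If2

/-! TOR, algebraic model, part 11: slides and uncrossing: every finite family of compatible arcs is
compatible with a basis of compatible arcs. -/

set_option autoImplicit false

namespace Pool.Agent.TOR.H59

open FreeGroup

variable {α : Type} [DecidableEq α]

/-! ### slides -/

/-- replace the generator `a` by `x` -/
def sh (a : α) (x : FreeGroup α) : FreeGroup α →* FreeGroup α :=
  FreeGroup.lift (fun b => if b = a then x else FreeGroup.of b)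

theorem sh_of_self (a : α) (x : FreeGroup α) : sh a x (FreeGroup.of a) = x := by
  unfold sh; rw [FreeGroup.lift_apply_of]; simp

theorem sh_of_ne {a b : α} (h : b ≠ a) (x : FreeGroup α) :
    sh a x (FreeGroup.of b) = FreeGroup.of b := by
  unfold sh; rw [FreeGroup.lift_apply_of]; simp [h]

/-- words without the letter `a` are fixed -/
theorem sh_mk {a : α} (x : FreeGroup α) : ∀ {W : List (α × Bool)}, (∀ l ∈ W, l.1 ≠ a) →
    sh a x (FreeGroup.mk W) = FreeGroup.mk W := by
  intro W
  induction W with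
  | nil => intro _; rw [← FreeGroup.one_eq_mk, _root_.map_one]
  | cons l W ih =>
    intro h
    have e3 : FreeGroup.mk (l :: W) = lt l * FreeGroup.mk W := by
      rw [lt, FreeGroup.mul_mk]; rfl
    have h1 : sh a x (lt l) = lt l := by
      have hl : l.1 ≠ a := h l (by simp)
      obtain ⟨b, e⟩ := l
      cases e
      · have : lt (b, false) = (FreeGroup.of b)⁻¹ := rfl
        rw [this, _root_.map_inv, sh_of_ne hl]
      · exact sh_of_ne hl x
    rw [e3, _root_.map_mul, h1, ih (fun l' h' => h l' (by simp [h']))]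

/-- the slide `a ↦ S a^e T` is an automorphism -/
theorem exists_slide (a : α) (e : Bool) {U V : List (α × Bool)} (hU : ∀ l ∈ U, l.1 ≠ a)
    (hV : ∀ l ∈ V, l.1 ≠ a) : ∃ θ : MulAut (FreeGroup α),
      θ (FreeGroup.of a) = FreeGroup.mk (U ++ (a, e) :: V) ∧
      ∀ b, b ≠ a → θ (FreeGroup.of b) = FreeGroup.of b := by
  have em : FreeGroup.mk (U ++ (a, e) :: V) = FreeGroup.mk U * lt (a, e) * FreeGroup.mk V := by
    rw [lt, FreeGroup.mul_mk, FreeGroup.mul_mk]; simp
  have ext' : ∀ f : FreeGroup α →* FreeGroup α, (∀ b, f (FreeGroup.of b) = FreeGroup.of b) →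
      f = MonoidHom.id _ := by
    intro f h
    ext b
    simpa using h b
  cases e
  · -- x = u a⁻¹ v,  a = v x⁻¹ u
    let f := sh a (FreeGroup.mk (U ++ (a, false) :: V))
    let g := sh a (FreeGroup.mk V * (FreeGroup.of a)⁻¹ * FreeGroup.mk U)
    have hfU : f (FreeGroup.mk U) = FreeGroup.mk U := sh_mk _ hU
    have hfV : f (FreeGroup.mk V) = FreeGroup.mk V := sh_mk _ hV
    have hgU : g (FreeGroup.mk U) = FreeGroup.mk U := sh_mk _ hU
    have hgV : g (FreeGroup.mk V) = FreeGroup.mk V := sh_mk _ hV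
    have hfa : f (FreeGroup.of a) = FreeGroup.mk (U ++ (a, false) :: V) := sh_of_self _ _
    have hga : g (FreeGroup.of a) = FreeGroup.mk V * (FreeGroup.of a)⁻¹ * FreeGroup.mk U :=
      sh_of_self _ _
    have hla : lt (a, false) = (FreeGroup.of a)⁻¹ := rfl
    have h1 : g.comp f = MonoidHom.id _ := by
      apply ext'
      intro b
      by_cases hb : b = a
      · rw [hb, MonoidHom.comp_apply, hfa, em, _root_.map_mul, _root_.map_mul, hgU, hgV, hla,
          _root_.map_inv, hga]
        group
      · rw [MonoidHom.comp_apply]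
        show g (f (FreeGroup.of b)) = _
        rw [show f (FreeGroup.of b) = FreeGroup.of b from sh_of_ne hb _]
        exact sh_of_ne hb _
    have h2 : f.comp g = MonoidHom.id _ := by
      apply ext'
      intro b
      by_cases hb : b = a
      · rw [hb, MonoidHom.comp_apply, hga, _root_.map_mul, _root_.map_mul, hfU, hfV,
          _root_.map_inv, hfa, em, hla]
        group
      · rw [MonoidHom.comp_apply]
        show f (g (FreeGroup.of b)) = _
        rw [show g (FreeGroup.of b) = FreeGroup.of b from sh_of_ne hb _]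
        exact sh_of_ne hb _
    exact ⟨MonoidHom.toMulEquiv f g h1 h2, hfa, fun b hb => sh_of_ne hb _⟩
  · let f := sh a (FreeGroup.mk (U ++ (a, true) :: V))
    let g := sh a ((FreeGroup.mk U)⁻¹ * FreeGroup.of a * (FreeGroup.mk V)⁻¹)
    have hfU : f (FreeGroup.mk U) = FreeGroup.mk U := sh_mk _ hU
    have hfV : f (FreeGroup.mk V) = FreeGroup.mk V := sh_mk _ hV
    have hgU : g (FreeGroup.mk U) = FreeGroup.mk U := sh_mk _ hU
    have hgV : g (FreeGroup.mk V) = FreeGroup.mk V := sh_mk _ hV
    have hfa : f (FreeGroup.of a) = FreeGroup.mk (U ++ (a, true) :: V) := sh_of_self _ _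
    have hga : g (FreeGroup.of a) = (FreeGroup.mk U)⁻¹ * FreeGroup.of a * (FreeGroup.mk V)⁻¹ :=
      sh_of_self _ _
    have hla : lt (a, true) = FreeGroup.of a := rfl
    have h1 : g.comp f = MonoidHom.id _ := by
      apply ext'
      intro b
      by_cases hb : b = a
      · rw [hb, MonoidHom.comp_apply, hfa, em, _root_.map_mul, _root_.map_mul, hgU, hgV, hla,
          hga]
        group
      · rw [MonoidHom.comp_apply]
        show g (f (FreeGroup.of b)) = _
        rw [show f (FreeGroup.of b) = FreeGroup.of b from sh_of_ne hb _]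
        exact sh_of_ne hb _
    have h2 : f.comp g = MonoidHom.id _ := by
      apply ext'
      intro b
      by_cases hb : b = a
      · rw [hb, MonoidHom.comp_apply, hga, _root_.map_mul, _root_.map_mul, _root_.map_inv,
          _root_.map_inv, hfU, hfV, hfa, em, hla]
        group
      · rw [MonoidHom.comp_apply]
        show f (g (FreeGroup.of b)) = _
        rw [show g (FreeGroup.of b) = FreeGroup.of b from sh_of_ne hb _]
        exact sh_of_ne hb _
    exact ⟨MonoidHom.toMulEquiv f g h1 h2, hfa, fun b hb => sh_of_ne hb _⟩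

/-! ### words with exponent sum `±1` in a block -/

theorem bd_nodup (R : Rib α) : ∀ (Z : List (α × Bool)), Bd R 0 Z → Z.Nodup := by
  -- positions are determined by the predecessor
  have main : ∀ (n : ℕ) (Z : List (α × Bool)), Bd R 0 Z → ∀ (U V W : List (α × Bool))
      (l : α × Bool), U.length = n → Z ≠ U ++ l :: V ++ l :: W := by
    intro n
    induction n using Nat.strong_induction_on with
    | _ n ih =>
      intro Z hZ U V W l hn he
      -- predecessor of the second occurrence
      have key2 : ∀ (Z : List (α × Bool)) (b : ℕ), Bd R b Z → ∀ (U : List (α × Bool))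
          (m l : α × Bool) (W : List (α × Bool)), Z = U ++ m :: l :: W →
          R.r l = R.r (iv m) + 1 := by
        intro Z
        induction Z with
        | nil => intro b _ U m l W h; simp at h
        | cons z Z ih =>
          intro b hb U m l W h
          cases U with
          | nil =>
            simp only [List.nil_append, List.cons.injEq] at h
            obtain ⟨h1, h2⟩ := h
            subst h1 h2
            exact hb.2.1
          | cons u U =>
            simp only [List.cons_append, List.cons.injEq] at h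
            exact ih _ hb.2 U m l W h.2
      have hV : ∃ V' m, l :: V = V' ++ [m] := by
        rcases List.eq_nil_or_concat (l :: V) with h | ⟨V', m, h⟩
        · simp at h
        · exact ⟨V', m, by simpa using h⟩
      obtain ⟨V', m, hVm⟩ := hV
      have h2 : R.r l = R.r (iv m) + 1 := by
        apply key2 Z 0 hZ (U ++ V') m l W
        rw [he, hVm]; simp
      rcases List.eq_nil_or_concat U with hU | ⟨U', m', hU⟩
      · subst hU
        rw [he] at hZ
        have := hZ.1
        have := R.pos (iv m)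
        omega
      · have h3 : R.r l = R.r (iv m') + 1 := by
          apply key2 Z 0 hZ U' m' l (V ++ l :: W)
          rw [he, hU]; simp
        have h4 : m' = m := by
          have : R.r (iv m') = R.r (iv m) := by omega
          have := congrArg iv (R.inj this)
          rwa [iv_iv, iv_iv] at this
        subst h4
        -- the letter m' occurs twice
        cases V' with
        | nil =>
          simp only [List.nil_append, List.cons.injEq] at hVm
          obtain ⟨h5, h6⟩ := hVm
          apply ih U'.length (by rw [← hn, hU]; simp) Z hZ U' [] (l :: W) m' rfl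
          rw [he, hU, h6, h5]; simp
        | cons v V'' =>
          simp only [List.cons_append, List.cons.injEq] at hVm
          obtain ⟨h5, h6⟩ := hVm
          apply ih U'.length (by rw [← hn, hU]; simp) Z hZ U' (l :: V'') (l :: W) m' rfl
          rw [he, hU, h6]; simp
  intro Z hZ
  rw [List.nodup_iff_count_le_one]
  intro l
  by_contra hcon
  have h1 : l ∈ Z := by
    rw [← List.count_pos_iff]; omega
  obtain ⟨U, V, hUV⟩ := List.append_of_mem h1
  have h2 : 1 < U.count l + (V.count l + 1) := by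
    have : Z.count l = U.count l + (V.count l + 1) := by rw [hUV]; simp
    omega
  by_cases h3 : l ∈ V
  · obtain ⟨V1, V2, hV⟩ := List.append_of_mem h3
    exact main U.length Z hZ U V1 V2 l rfl (by rw [hUV, hV]; simp)
  · have h4 : l ∈ U := by
      rw [← List.count_pos_iff]
      have := List.count_eq_zero.2 h3
      omega
    obtain ⟨U1, U2, hU⟩ := List.append_of_mem h4
    exact main U1.length Z hZ U1 U2 V l rfl (by rw [hUV, hU])

/-- splitting a word with exponent sum `±1` -/
theorem split_of_ex {w : List (α × Bool)} {a : α} (hn : w.Nodup)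
    (h : ex a (FreeGroup.mk w) ≠ 1) :
    ∃ U V e, w = U ++ (a, e) :: V ∧ (∀ l ∈ U, l.1 ≠ a) ∧ (∀ l ∈ V, l.1 ≠ a) := by
  rw [ex_mk] at h
  have h0 : (w.count (a, true) : ℤ) - w.count (a, false) ≠ 0 := by
    intro h'; rw [h'] at h; exact h rfl
  have c1 := List.nodup_iff_count_le_one.1 hn (a, true)
  have c2 := List.nodup_iff_count_le_one.1 hn (a, false)
  have main : ∀ e : Bool, w.count (a, e) = 1 → w.count (a, !e) = 0 →
      ∃ U V e, w = U ++ (a, e) :: V ∧ (∀ l ∈ U, l.1 ≠ a) ∧ (∀ l ∈ V, l.1 ≠ a) := by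
    intro e h1 h2
    obtain ⟨U, V, hUV⟩ := List.append_of_mem (List.count_pos_iff.1 (by omega : 0 < w.count (a, e)))
    have h3 : w.count (a, e) = U.count (a, e) + (V.count (a, e) + 1) := by rw [hUV]; simp
    have h4 : w.count (a, !e) = U.count (a, !e) + V.count (a, !e) := by
      rw [hUV, List.count_append, List.count_cons]
      simp
    have aux : ∀ L : List (α × Bool), L.count (a, e) = 0 → L.count (a, !e) = 0 →
        ∀ l ∈ L, l.1 ≠ a := by
      intro L k1 k2 l hl hla
      obtain ⟨b, e'⟩ := l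
      simp only at hla
      subst hla
      have h5 : 0 < L.count (b, e') := List.count_pos_iff.2 hl
      cases e <;> cases e' <;> simp_all
    exact ⟨U, V, e, hUV, aux U (by omega) (by omega), aux V (by omega) (by omega)⟩
  by_cases h1 : w.count (a, true) = 1
  · exact main true h1 (by simp only [Bool.not_true]; omega)
  · exact main false (by omega) (by simp only [Bool.not_false]; omega)

/-! ### replacing a member of the basis -/

variable [Fintype α]

/-- transport of crossings to the tree of the new basis -/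
theorem lo_new {R : Rib α} {ψ : MulAut (FreeGroup α)} (hψ : CB R ψ) (i : ℕ)
    (a b c d : FreeGroup α) :
    Lo (nR R ψ) (a, i) (b, i) (c, i) (d, i) ↔ Lo R (ψ a, i) (ψ b, i) (ψ c, i) (ψ d, i) := by
  rw [lo_def, lo_def]
  simp only [co_same, cy_new hψ]

/-- an arc `x` compatible with the basis, in which the basis element `a` has exponent sum `≠ 0`,
can replace `ψ a` -/
theorem replace_cb (S : Srf α) {ψ : MulAut (FreeGroup α)} (hψ : CB S.R ψ) {a : α}
    {x : FreeGroup α} (hx : Cmp S.R 0 x 0 x) (hxb : ∀ b, Cmp S.R 0 x 0 (ψ (FreeGroup.of b)))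
    (hex : ex a (ψ⁻¹ x) ≠ 1) :
    ∃ ψ' : MulAut (FreeGroup α), CB S.R ψ' ∧ ψ' (FreeGroup.of a) = x ∧
      ∀ b, b ≠ a → ψ' (FreeGroup.of b) = ψ (FreeGroup.of b) := by
  set y := ψ⁻¹ x with hy
  have hψy : ψ y = x := MulAut.apply_inv_self _ ψ _
  have hy1 : y ≠ 1 := by
    intro h
    rw [h, _root_.map_one] at hex
    exact hex rfl
  have hcmp : ∀ (g : FreeGroup α) (l : α × Bool),
      ¬ Lo (S.new ψ hψ).R (1, 0) (y, 0) (g, 0) (g * lt l, 0) := by
    intro g l h
    have h1 : Lo S.R (ψ 1, 0) (ψ y, 0) (ψ g, 0) (ψ (g * lt l), 0) := (lo_new hψ 0 _ _ _ _).1 h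
    rw [_root_.map_one, hψy, _root_.map_mul] at h1
    rcases lt_cases ψ l with h2 | h2
    · rw [h2] at h1; exact hxb l.1 _ h1
    · rw [h2] at h1; exact (hxb l.1).inv_right _ h1
  have hnd := bd_nodup _ _ (S.new ψ hψ).bd
  obtain ⟨U, V, hUV⟩ := sw (S.new ψ hψ) 0 hy1 hcmp
  -- the word of `y` is without repetitions
  have hyn : y.toWord.Nodup := by
    rcases hUV with h | h
    · rw [h] at hnd
      exact (List.nodup_append.1 (List.nodup_append.1 hnd).1).2.1
    · rw [h] at hnd
      have h1 : (y⁻¹).toWord.Nodup := (List.nodup_append.1 (List.nodup_append.1 hnd).1).2.1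
      rw [FreeGroup.toWord_inv] at h1
      unfold FreeGroup.invRev at h1
      rw [List.nodup_reverse] at h1
      exact List.Nodup.of_map _ h1
  have hex' : ex a (FreeGroup.mk y.toWord) ≠ 1 := by rwa [FreeGroup.mk_toWord]
  obtain ⟨U', V', e, h1, h2, h3⟩ := split_of_ex hyn hex'
  obtain ⟨θ, hθ1, hθ2⟩ := exists_slide a e h2 h3
  have hθa : θ (FreeGroup.of a) = y := by rw [hθ1, ← h1, FreeGroup.mk_toWord]
  have e1 : (ψ * θ) (FreeGroup.of a) = x := by rw [MulAut.mul_apply, hθa, hψy]
  have e2 : ∀ b, b ≠ a → (ψ * θ) (FreeGroup.of b) = ψ (FreeGroup.of b) := by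
    intro b hb; rw [MulAut.mul_apply, hθ2 b hb]
  refine ⟨ψ * θ, ?_, e1, e2⟩
  intro b c
  by_cases hb : b = a <;> by_cases hc : c = a
  · rw [hb, hc, e1]; exact hx
  · rw [hb, e1, e2 c hc]; exact hxb c
  · rw [hc, e1, e2 b hb]; exact (hxb b).symm
  · rw [e2 b hb, e2 c hc]; exact hψ b c

/-- exponent sums in an arc compatible with the basis are `0`, `1`, `-1` -/
theorem ex_arc (S : Srf α) {ψ : MulAut (FreeGroup α)} (hψ : CB S.R ψ) (a : α)
    {x : FreeGroup α} (hx1 : x ≠ 1) (hxb : ∀ b, Cmp S.R 0 x 0 (ψ (FreeGroup.of b))) :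
    |Multiplicative.toAdd (ex a (ψ⁻¹ x))| ≤ 1 := by
  set y := ψ⁻¹ x with hy
  have hψy : ψ y = x := MulAut.apply_inv_self _ ψ _
  have hy1 : y ≠ 1 := by
    intro h
    apply hx1
    rw [← hψy, h, _root_.map_one]
  have hcmp : ∀ (g : FreeGroup α) (l : α × Bool),
      ¬ Lo (S.new ψ hψ).R (1, 0) (y, 0) (g, 0) (g * lt l, 0) := by
    intro g l h
    have h1 : Lo S.R (ψ 1, 0) (ψ y, 0) (ψ g, 0) (ψ (g * lt l), 0) := (lo_new hψ 0 _ _ _ _).1 h
    rw [_root_.map_one, hψy, _root_.map_mul] at h1
    rcases lt_cases ψ l with h2 | h2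
    · rw [h2] at h1; exact hxb l.1 _ h1
    · rw [h2] at h1; exact (hxb l.1).inv_right _ h1
  have hnd := bd_nodup _ _ (S.new ψ hψ).bd
  obtain ⟨U, V, hUV⟩ := sw (S.new ψ hψ) 0 hy1 hcmp
  have hyn : y.toWord.Nodup := by
    rcases hUV with h | h
    · rw [h] at hnd
      exact (List.nodup_append.1 (List.nodup_append.1 hnd).1).2.1
    · rw [h] at hnd
      have h1 : (y⁻¹).toWord.Nodup := (List.nodup_append.1 (List.nodup_append.1 hnd).1).2.1
      rw [FreeGroup.toWord_inv] at h1
      unfold FreeGroup.invRev at h1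
      rw [List.nodup_reverse] at h1
      exact List.Nodup.of_map _ h1
  rw [← FreeGroup.mk_toWord (x := y), ex_mk]
  have c1 := List.nodup_iff_count_le_one.1 hyn (a, true)
  have c2 := List.nodup_iff_count_le_one.1 hyn (a, false)
  show |(y.toWord.count (a, true) : ℤ) - y.toWord.count (a, false)| ≤ 1
  rw [abs_le]
  constructor <;> omega

/-! ### uncrossing -/

/-- total number of crossings of the family `T` with the basis -/
noncomputable def tc (R : Rib α) (T : Finset (FreeGroup α)) (ψ : MulAut (FreeGroup α)) : ℕ :=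
  ∑ e ∈ T, ∑ b : α, cr R 0 e 0 (ψ (FreeGroup.of b))

/-- UNCROSSING: a finite family of pairwise compatible arcs is compatible with some basis of
compatible arcs -/
theorem unc (S : Srf α) (T : Finset (FreeGroup α)) (hT : ∀ e ∈ T, ∀ e' ∈ T, Cmp S.R 0 e 0 e') :
    ∃ ψ : MulAut (FreeGroup α), CB S.R ψ ∧ ∀ e ∈ T, ∀ b, Cmp S.R 0 e 0 (ψ (FreeGroup.of b)) := by
  have main : ∀ (n : ℕ) (ψ : MulAut (FreeGroup α)), CB S.R ψ → tc S.R T ψ = n →
      ∃ ψ : MulAut (FreeGroup α), CB S.R ψ ∧
        ∀ e ∈ T, ∀ b, Cmp S.R 0 e 0 (ψ (FreeGroup.of b)) := by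
    intro n
    induction n using Nat.strong_induction_on with
    | _ n ih =>
      intro ψ hψ hn
      by_cases hall : ∀ e ∈ T, ∀ b, Cmp S.R 0 e 0 (ψ (FreeGroup.of b))
      · exact ⟨ψ, hψ, hall⟩
      push Not at hall
      obtain ⟨e, he, b0, hb0⟩ := hall
      let L : Set (FreeGroup α) := {k | ∃ b, k = ψ (FreeGroup.of b) ∨ k = (ψ (FreeGroup.of b))⁻¹}
      have hLf : L.Finite := by
        have : (⋃ b : α, ({ψ (FreeGroup.of b), (ψ (FreeGroup.of b))⁻¹} :
            Set (FreeGroup α))).Finite := Set.finite_iUnion (fun b => Set.toFinite _)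
        refine this.subset ?_
        rintro k ⟨b, hk⟩
        simp only [Set.mem_iUnion, Set.mem_insert_iff, Set.mem_singleton_iff]
        exact ⟨b, hk⟩
      have hinv : ∀ k ∈ L, k⁻¹ ∈ L := by
        rintro k ⟨b, rfl | rfl⟩
        · exact ⟨b, Or.inr rfl⟩
        · exact ⟨b, Or.inl (inv_inv _)⟩
      have hex : ∃ g k, k ∈ L ∧ Lo S.R (1, 0) (e, 0) (g, 0) (g * k, 0) := by
        unfold Cmp at hb0
        push Not at hb0
        obtain ⟨g, hg⟩ := hb0
        exact ⟨g, _, ⟨b0, Or.inl rfl⟩, hg⟩
      obtain ⟨g, k, hs⟩ := exists_sg S.R 0 e L hLf hinv hex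
      obtain ⟨a, hak⟩ := hs.mem
      have kc : ∀ {j : ℕ} {m : FreeGroup α}, Cmp S.R 0 (ψ (FreeGroup.of a)) j m →
          Cmp S.R 0 k j m := by
        intro j m h
        rcases hak with h' | h' <;> rw [h']
        · exact h
        · exact h.inv_left
      have hkk : Cmp S.R 0 k 0 k := (kc (kc (hψ a a)).symm)
      have hee := hT e he e he
      have hself := hs.cmp_self hinv hkk hee
      have hb : ∀ b, Cmp S.R 0 g 0 (ψ (FreeGroup.of b)) ∧
          Cmp S.R 0 (g * k) 0 (ψ (FreeGroup.of b)) := fun b =>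
        hs.cmp_mem hinv ⟨b, Or.inl rfl⟩ (kc (hψ a b))
      have hlt := hs.cr_lt hee
      have hle : ∀ e' ∈ T, cr S.R 0 e' 0 g ≤ cr S.R 0 e' 0 k ∧
          cr S.R 0 e' 0 (g * k) ≤ cr S.R 0 e' 0 k := fun e' he' =>
        hs.cr_le (hT e he e' he')
      have hcrk : ∀ e', cr S.R 0 e' 0 k = cr S.R 0 e' 0 (ψ (FreeGroup.of a)) := by
        intro e'
        rcases hak with h' | h' <;> rw [h']
        exact cr_inv _ _ _ _ _
      have hg1 : g ≠ 1 := by rintro rfl; exact hs.h1.ne12 rfl
      have hgk1 : g * k ≠ 1 := by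
        intro h; have := hs.h2.ne23; rw [h] at this; exact this rfl
      -- one of the two new arcs has exponent sum `±1`
      have hxor : ex a (ψ⁻¹ g) ≠ 1 ∨ ex a (ψ⁻¹ (g * k)) ≠ 1 := by
        by_contra hcon
        push Not at hcon
        rw [_root_.map_mul, _root_.map_mul, hcon.1, one_mul] at hcon
        have h1 := hcon.2
        have h2 : ex a (FreeGroup.of a) = Multiplicative.ofAdd (1 : ℤ) := by
          unfold ex; rw [FreeGroup.lift_apply_of]; simp
        have h3 : ψ⁻¹ (ψ (FreeGroup.of a)) = FreeGroup.of a := MulAut.inv_apply_self _ ψ _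
        rcases hak with h' | h'
        · rw [h', h3, h2] at h1
          have := Multiplicative.ofAdd.injective h1
          omega
        · rw [h', _root_.map_inv, h3, _root_.map_inv, h2] at h1
          have h4 := inv_eq_one.1 h1
          have := Multiplicative.ofAdd.injective h4
          omega
      have good : ∀ x : FreeGroup α, Cmp S.R 0 x 0 x →
          (∀ b, Cmp S.R 0 x 0 (ψ (FreeGroup.of b))) → ex a (ψ⁻¹ x) ≠ 1 →
          cr S.R 0 e 0 x < cr S.R 0 e 0 k → (∀ e' ∈ T, cr S.R 0 e' 0 x ≤ cr S.R 0 e' 0 k) →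
          ∃ ψ : MulAut (FreeGroup α), CB S.R ψ ∧
            ∀ e ∈ T, ∀ b, Cmp S.R 0 e 0 (ψ (FreeGroup.of b)) := by
        intro x hx hxb hxe h1 h2
        obtain ⟨ψ', c1, c2, c3⟩ := replace_cb S hψ hx hxb hxe
        refine ih (tc S.R T ψ') ?_ ψ' c1 rfl
        rw [← hn]
        unfold tc
        have term : ∀ e' ∈ T, ∀ b ∈ (Finset.univ : Finset α),
            cr S.R 0 e' 0 (ψ' (FreeGroup.of b)) ≤ cr S.R 0 e' 0 (ψ (FreeGroup.of b)) := by
          intro e' he' b _
          by_cases hba : b = a
          · rw [hba, c2, ← hcrk]; exact h2 e' he'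
          · rw [c3 b hba]
        refine Finset.sum_lt_sum (fun e' he' => Finset.sum_le_sum (term e' he')) ⟨e, he, ?_⟩
        refine Finset.sum_lt_sum (term e he) ⟨a, Finset.mem_univ _, ?_⟩
        rw [c2, ← hcrk]
        exact h1
      rcases hxor with h | h
      · exact good g hself.1 (fun b => (hb b).1) h hlt.1 (fun e' he' => (hle e' he').1)
      · exact good (g * k) hself.2 (fun b => (hb b).2) h hlt.2 (fun e' he' => (hle e' he').2)
  refine main _ 1 ?_ rfl
  intro a b
  exact H29.cmp_lt S.R (a, true) (b, true)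

/-- homomorphisms to the integers in terms of exponent sums -/
theorem hom_ex (h : FreeGroup α →* Multiplicative ℤ) (y : FreeGroup α) :
    h y = ∏ a : α, (h (FreeGroup.of a)) ^ (Multiplicative.toAdd (ex a y)) := by
  let f : FreeGroup α →* Multiplicative ℤ :=
    { toFun := fun y => ∏ a : α, (h (FreeGroup.of a)) ^ (Multiplicative.toAdd (ex a y))
      map_one' := by simp
      map_mul' := by
        intro x y
        rw [← Finset.prod_mul_distrib]
        refine Finset.prod_congr rfl (fun a _ => ?_)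
        rw [_root_.map_mul, toAdd_mul, zpow_add] }
  have e : h = f := by
    ext b
    show h (FreeGroup.of b) = ∏ a : α, (h (FreeGroup.of a)) ^
      (Multiplicative.toAdd (ex a (FreeGroup.of b)))
    rw [Finset.prod_eq_single b]
    · have : ex b (FreeGroup.of b) = Multiplicative.ofAdd (1 : ℤ) := by
        unfold ex; rw [FreeGroup.lift_apply_of]; simp
      rw [this]; simp
    · intro a _ hab
      have : ex a (FreeGroup.of b) = 1 := by
        unfold ex; rw [FreeGroup.lift_apply_of, if_neg hab.symm]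
      rw [this]; simp
    · intro h; exact (h (Finset.mem_univ _)).elim
  exact DFunLike.congr_fun e y

/-- a family of compatible arcs with independent classes is part of a basis of compatible arcs -/
theorem unc_ind (S : Srf α) (T : Finset (FreeGroup α))
    (hT : ∀ e ∈ T, ∀ e' ∈ T, Cmp S.R 0 e 0 e') : ∀ (r : ℕ) (e : Fin r → FreeGroup α),
    (∀ i, e i ∈ T) →
    (∀ i : Fin r, ∃ f : FreeGroup α →* Multiplicative ℤ, (∀ j < i, f (e j) = 1) ∧ f (e i) ≠ 1) →
    ∃ ψ : MulAut (FreeGroup α), CB S.R ψ ∧
      (∀ e ∈ T, ∀ b, Cmp S.R 0 e 0 (ψ (FreeGroup.of b))) ∧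
      ∃ a : Fin r → α, Function.Injective a ∧ ∀ i, ψ (FreeGroup.of (a i)) = e i := by
  intro r
  induction r with
  | zero =>
    intro e _ _
    obtain ⟨ψ, h1, h2⟩ := unc S T hT
    exact ⟨ψ, h1, h2, Fin.elim0, fun i => i.elim0, fun i => i.elim0⟩
  | succ r ih =>
    intro e he hind
    obtain ⟨ψ, h1, h2, a, ha, hae⟩ := ih (fun i => e i.castSucc) (fun i => he _) (fun i => by
      obtain ⟨f, f1, f2⟩ := hind i.castSucc
      exact ⟨f, fun j hj => f1 j.castSucc (by simpa using hj), f2⟩)
    set x := e (Fin.last r) with hx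
    by_cases hc : ∃ c, (∀ i, a i ≠ c) ∧ ex c (ψ⁻¹ x) ≠ 1
    · obtain ⟨c, hc1, hc2⟩ := hc
      have hxT : x ∈ T := he _
      obtain ⟨ψ', d1, d2, d3⟩ := replace_cb S h1 (hT x hxT x hxT) (h2 x hxT) hc2
      refine ⟨ψ', d1, ?_, Fin.snoc a c, ?_, ?_⟩
      · intro e' he' b
        by_cases hb : b = c
        · rw [hb, d2]; exact hT e' he' x hxT
        · rw [d3 b hb]; exact h2 e' he' b
      · intro i j hij
        rcases Fin.eq_castSucc_or_eq_last i with ⟨i', rfl⟩ | rfl <;>
          rcases Fin.eq_castSucc_or_eq_last j with ⟨j', rfl⟩ | rfl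
        · rw [Fin.snoc_castSucc, Fin.snoc_castSucc] at hij
          rw [ha hij]
        · rw [Fin.snoc_castSucc, Fin.snoc_last] at hij
          exact (hc1 i' hij).elim
        · rw [Fin.snoc_castSucc, Fin.snoc_last] at hij
          exact (hc1 j' hij.symm).elim
        · rfl
      · intro i
        rcases Fin.eq_castSucc_or_eq_last i with ⟨i', rfl⟩ | rfl
        · rw [Fin.snoc_castSucc, d3 _ (hc1 i')]
          exact hae i'
        · rw [Fin.snoc_last]; exact d2
    · exfalso
      push Not at hc
      obtain ⟨f, f1, f2⟩ := hind (Fin.last r)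
      apply f2
      have hψx : ψ (ψ⁻¹ x) = x := MulAut.apply_inv_self _ ψ _
      have h3 := hom_ex (f.comp ψ.toMonoidHom) (ψ⁻¹ x)
      have h4 : (f.comp ψ.toMonoidHom) (ψ⁻¹ x) = f x := by
        show f (ψ (ψ⁻¹ x)) = f x
        rw [hψx]
      rw [h4] at h3
      rw [← hx, h3]
      refine Finset.prod_eq_one (fun b _ => ?_)
      by_cases hb : ∃ i, a i = b
      · obtain ⟨i, rfl⟩ := hb
        have : (f.comp ψ.toMonoidHom) (FreeGroup.of (a i)) = 1 := by
          show f (ψ (FreeGroup.of (a i))) = 1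
          rw [hae i]
          exact f1 i.castSucc (Fin.castSucc_lt_last i)
        rw [this, one_zpow]
      · push Not at hb
        rw [hc b hb]
        simp

end Pool.Agent.TOR.H59
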